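import Pool.Agent.Y773.HK.Eul

/-! # Euler products over the primes of a subfield (helper784; adapted from
`Pool.Agent.Y773.HK.Eul`) -/

set_option autoImplicit false
set_option linter.unusedSectionVars false

open NumberField Complex Filter Topology Set

namespace Pool.Agent.N784.AD

open Pool.Agent.Y772.DK
open Pool.Agent.Y773 (zz norm_zz_lt hasSum_log natCast_pow_cpow LI)

section

variable {K : Type} [Field K] [NumberField K] (k : Type) [Field k] [NumberField k] [Algebra k K]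

/-- the prime ideals above `𝔭` -/
def Ab (𝔭 : Ideal (𝓞 k)) : Set (Ideal (𝓞 K)) := {𝔓 : Ideal (𝓞 K) | 𝔓.IsPrime ∧ 𝔓.LiesOver 𝔭}

lemma prime_of_Ab {𝔭 : Ideal (𝓞 k)} (hp : Prime 𝔭) {𝔓 : Ideal (𝓞 K)} (h : 𝔓 ∈ Ab k 𝔭) :
    Prime 𝔓 := by
  refine Ideal.prime_of_isPrime ?_ h.1
  rintro rfl
  have h2 := h.2.over
  apply hp.ne_zero
  rw [h2, Ideal.zero_eq_bot]
  ext x
  rw [Ideal.under_def, Ideal.mem_comap, Ideal.mem_bot, Ideal.mem_bot]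
  constructor
  · intro hx
    exact (FaithfulSMul.algebraMap_injective (𝓞 k) (𝓞 K)) (by rw [hx, map_zero])
  · rintro rfl
    exact map_zero _

/-- the prime of `k` below -/
noncomputable def bk (𝔓 : {𝔓 : Ideal (𝓞 K) // Prime 𝔓}) : {𝔭 : Ideal (𝓞 k) // Prime 𝔭} :=
  ⟨𝔓.1.under (𝓞 k), by
    have h1 : 𝔓.1.IsPrime := Ideal.isPrime_of_prime 𝔓.2
    refine Ideal.prime_of_isPrime ?_ (Ideal.IsPrime.under (𝓞 k) 𝔓.1)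
    exact Ideal.IsIntegral.comap_ne_bot (𝓞 k) 𝔓.2.ne_zero⟩

lemma bk_iff (𝔓 : {𝔓 : Ideal (𝓞 K) // Prime 𝔓}) (𝔭 : {𝔭 : Ideal (𝓞 k) // Prime 𝔭}) :
    bk k 𝔓 = 𝔭 ↔ 𝔓.1 ∈ Ab k 𝔭.1 := by
  constructor
  · rintro rfl
    exact ⟨Ideal.isPrime_of_prime 𝔓.2, ⟨rfl⟩⟩
  · rintro ⟨-, h⟩
    exact Subtype.ext h.over.symm

lemma Ab_finite {𝔭 : Ideal (𝓞 k)} (hp : Prime 𝔭) : (Ab (K := K) k 𝔭).Finite := by
  have h1 : 𝔭.IsPrime := Ideal.isPrime_of_prime hp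
  have h2 : 𝔭.IsMaximal := h1.isMaximal hp.ne_zero
  exact IsDedekindDomain.primesOver_finite 𝔭 (𝓞 K)

/-- the local factor: `∏_{𝔓 ∣ 𝔭} (1 - ψ(𝔓) x^(f(𝔓 ∣ 𝔭)))` -/
noncomputable def HPk (ψ : Ideal (𝓞 K) →*₀ ℂ) (𝔭 : Ideal (𝓞 k)) (x : ℂ) : ℂ :=
  ∏ᶠ 𝔓 ∈ {𝔓 : Ideal (𝓞 K) | 𝔓.IsPrime ∧ 𝔓.LiesOver 𝔭}, (1 - ψ 𝔓 * x ^ (𝔓.inertiaDeg (𝓞 k)))

/-- **Euler product over the primes of `k`** -/
theorem hasProd_rel {ψ : Ideal (𝓞 K) →*₀ ℂ} (hψ : ∀ 𝔞, ‖ψ 𝔞‖ ≤ 1) {s : ℂ} (hs : 1 < s.re) :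
    HasProd (fun 𝔭 : {𝔭 : Ideal (𝓞 k) // Prime 𝔭} =>
      (HPk k ψ 𝔭.1 (((Ideal.absNorm (𝔭 : Ideal (𝓞 k)) : ℕ) : ℂ) ^ (-s)))⁻¹) (LI ψ s) := by
  classical
  have h1 := hasSum_log hψ hs
  have h2 := h1.tsum_fiberwise (bk k)
  have h3 := h2.cexp
  rw [← LI_eq_exp ψ hψ hs] at h3
  refine h3.congr_fun fun 𝔭 => ?_
  have hfin' : Finite (Ab (K := K) k 𝔭.1) := Ab_finite k 𝔭.2
  let e : (bk k ⁻¹' {𝔭} : Set {𝔓 : Ideal (𝓞 K) // Prime 𝔓}) ≃ Ab (K := K) k 𝔭.1 :=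
    { toFun := fun 𝔓 => ⟨𝔓.1.1, (bk_iff k 𝔓.1 𝔭).mp 𝔓.2⟩
      invFun := fun x => ⟨⟨x.1, prime_of_Ab k 𝔭.2 x.2⟩, (bk_iff k _ 𝔭).mpr x.2⟩
      left_inv := fun 𝔓 => rfl
      right_inv := fun x => rfl }
  have hfin2 : Finite (bk k ⁻¹' {𝔭} : Set {𝔓 : Ideal (𝓞 K) // Prime 𝔓}) := Finite.of_equiv _ e.symm
  have := Fintype.ofFinite (bk k ⁻¹' {𝔭} : Set {𝔓 : Ideal (𝓞 K) // Prime 𝔓})
  have := Fintype.ofFinite (Ab (K := K) k 𝔭.1)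
  unfold HPk
  change (∏ᶠ 𝔓 ∈ Ab (K := K) k 𝔭.1, _)⁻¹ = _
  rw [← finprod_set_coe_eq_finprod_mem, finprod_eq_prod_of_fintype]
  simp only [Function.comp_apply]
  rw [tsum_fintype, Complex.exp_sum, ← Equiv.prod_comp e, ← Finset.prod_inv_distrib]
  refine Finset.prod_congr rfl fun 𝔓 _ => ?_
  have hz := norm_zz_lt hψ hs 𝔓.1.2
  have hne : 1 - zz ψ s 𝔓.1.1 ≠ 0 := by
    intro h0
    have h5 : zz ψ s 𝔓.1.1 = 1 := (sub_eq_zero.mp h0).symm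
    rw [h5, norm_one] at hz
    exact lt_irrefl _ hz
  rw [Complex.exp_neg, Complex.exp_log hne]
  congr 2
  have hm := (bk_iff k 𝔓.1 𝔭).mp 𝔓.2
  have i1 : 𝔓.1.1.IsPrime := hm.1
  have i2 : 𝔓.1.1.LiesOver 𝔭.1 := hm.2
  have h6 := Ideal.absNorm_pow_inertiaDeg 𝔭.1 𝔓.1.1
  unfold zz
  rw [← h6]
  change ψ 𝔓.1.1 * _ = _
  congr 1
  exact (natCast_pow_cpow _ _ _).symm

end

end Pool.Agent.N784.AD
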