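import Pool.Agent.N784.AD.Ray

/-! # The narrow ray class group modulo `𝔮` and its characters (helper784) -/

set_option autoImplicit false
set_option linter.unusedSectionVars false

open NumberField

namespace Pool.Agent.N784.AD

open Pool.Agent.Y773 (TPos)
open Pool.Agent.Y767 (Mq Mq_cop Mq_ne_bot Mq_cancel isUnit_mk coprime_of_isUnit Cls cls cls_eq
  cls_of_mul cls_pi cls_div ext_mon tpos_one tpos_mul tpos_of_mul exists_lam card_dual finite_dual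
  bes_cls Tq Tq_cop Tq_tp pq pq_coe gq gq_surj gq_coe)
open Pool.Agent.Y773.IQ (ne_zero_of_cop cop_mono cop_one cop_congr cop_mul exists_cop_lift
  exists_inv exists_mem_one exists_moving ofM' ofM'_pos ofM'_supp absNorm_pos' absNorm_lt)
open Pool.Agent.Y773.G (IsPrimChar)

section

variable {K : Type} [Field K] [NumberField K]

/-- the signs at the real places -/
def sgn (x : 𝓞 K) : (K →+* ℝ) → Prop := fun σ => 0 < σ (x : K)

lemma sameSign_of_sgn {x y : 𝓞 K} (h : sgn x = sgn y) : SameSign x y := fun σ => by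
  have := congrFun h σ
  unfold sgn at this
  rw [this]

instance finite_real : Finite (K →+* ℝ) := by
  refine Finite.of_injective (fun σ : K →+* ℝ => (Complex.ofRealHom.comp σ : K →+* ℂ)) ?_
  intro σ τ h
  ext y
  have h1 := congrArg (fun f : K →+* ℂ => f y) h
  exact Complex.ofReal_injective h1

/-- `h(K) 2^(number of real places)` -/
noncomputable def hK (K : Type) [Field K] [NumberField K] : ℕ :=
  Nat.card (ClassGroup (𝓞 K)) * Nat.card ((K →+* ℝ) → Prop)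

lemma cls_congr {𝔮 : Ideal (𝓞 K)} (hbot : 𝔮 ≠ ⊥) (htop : 𝔮 ≠ ⊤) {x y : 𝓞 K}
    (hx : IsCoprime (Ideal.span {x}) 𝔮)
    (hy : IsCoprime (Ideal.span {y}) 𝔮) (h : x - y ∈ 𝔮) (hs : SameSign x y) :
    cls (pi1 htop) ⟨Ideal.span {x}, hx⟩ = cls (pi1 htop) ⟨Ideal.span {y}, hy⟩ := by
  have hx0 := ne_zero_of_cop htop hx
  have hy0 := ne_zero_of_cop htop hy
  obtain ⟨w, hwp, hw⟩ := exists_inv_tp hbot (cop_mul hx hx)
  have h1' : (w * x) * x - 1 ∈ 𝔮 := by rw [mul_assoc]; exact hw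
  have h2' : (w * x) * y - 1 ∈ 𝔮 := by
    have : (w * x) * y - 1 = ((w * x) * x - 1) - (w * x) * (x - y) := by ring
    rw [this]; exact sub_mem h1' (Ideal.mul_mem_left _ _ h)
  have p1 : TPos K ((w * x) * x) := by rw [mul_assoc]; exact tpos_mul hwp (sq_tp hx0)
  have p2 : TPos K ((w * x) * y) := by rw [mul_assoc]; exact tpos_mul hwp (hs.mul_tp hx0 hy0)
  refine cls_of_mul (π := pi1 htop) (a := ⟨(w * x) * y, h2', p2⟩) (b := ⟨(w * x) * x, h1', p1⟩) ?_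
  apply Subtype.ext
  rw [Submonoid.coe_mul, Submonoid.coe_mul, pi1_coe, pi1_coe,
    Ideal.span_singleton_mul_span_singleton, Ideal.span_singleton_mul_span_singleton]
  congr 2
  ring

lemma exists_compl {𝔮 : Ideal (𝓞 K)} (hbot : 𝔮 ≠ ⊥) (htop : 𝔮 ≠ ⊤) (𝔟 : Mq 𝔮) :
    ∃ (x : 𝓞 K) (𝔠 : Mq 𝔮), x - 1 ∈ 𝔮 ∧ TPos K x ∧
      Ideal.span {x} = (𝔟 : Ideal (𝓞 K)) * (𝔠 : Ideal (𝓞 K)) ∧
      cls (pi1 htop) 𝔟 * cls (pi1 htop) 𝔠 = 1 := by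
  obtain ⟨x, 𝔠, h1, hp, h2, h3⟩ := exists_mem_one_tp (Mq_cop 𝔟) (Mq_ne_bot htop 𝔟) hbot
  refine ⟨x, ⟨𝔠, h3⟩, h1, hp, h2, ?_⟩
  rw [← map_mul, ← cls_pi (pi1 htop) ⟨x, h1, hp⟩]
  congr 1
  apply Subtype.ext
  rw [pi1_coe, Submonoid.coe_mul]
  exact h2.symm

lemma exists_rep {𝔮 : Ideal (𝓞 K)} (hbot : 𝔮 ≠ ⊥) (htop : 𝔮 ≠ ⊤) (c : Cls (pi1 htop)) :
    ∃ 𝔞 : Mq 𝔮, cls (pi1 htop) 𝔞 = c := by
  obtain ⟨a, b, hab⟩ := cls_div (pi1 htop) c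
  obtain ⟨-, 𝔠, -, -, -, h⟩ := exists_compl hbot htop b
  refine ⟨a * 𝔠, ?_⟩
  rw [map_mul, ← hab, mul_assoc, h, mul_one]

lemma same_class {𝔮 : Ideal (𝓞 K)} (hbot : 𝔮 ≠ ⊥) (htop : 𝔮 ≠ ⊤) {𝔞 𝔟 : Mq 𝔮} {x y : 𝓞 K}
    (hx : x ≠ 0)
    (h : Ideal.span {x} * (𝔞 : Ideal (𝓞 K)) = Ideal.span {y} * (𝔟 : Ideal (𝓞 K))) :
    ∃ (x' y' : 𝓞 K) (_ : x' - 1 ∈ 𝔮) (_ : TPos K x') (_ : IsCoprime (Ideal.span {y'}) 𝔮),
      Ideal.span {x'} * (𝔞 : Ideal (𝓞 K)) = Ideal.span {y'} * (𝔟 : Ideal (𝓞 K)) := by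
  obtain ⟨x', 𝔠, h1, hp, h2, -⟩ := exists_compl hbot htop 𝔟
  have h3 : Ideal.span {x} * ((𝔞 : Ideal (𝓞 K)) * 𝔠) = Ideal.span {y * x'} := by
    rw [← mul_assoc, h, mul_assoc, ← h2, Ideal.span_singleton_mul_span_singleton]
  have h4 : y * x' ∈ Ideal.span {x} := by
    have h5 : Ideal.span {y * x'} ≤ Ideal.span {x} := by
      rw [← h3]; exact Ideal.mul_le_left
    exact h5 (Ideal.mem_span_singleton_self _)
  obtain ⟨y', hy'⟩ := Ideal.mem_span_singleton'.mp h4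
  have h6 : (𝔞 : Ideal (𝓞 K)) * 𝔠 = Ideal.span {y'} := by
    apply mul_left_cancel₀ (a := Ideal.span {x})
    · rw [Ne, Ideal.zero_eq_bot, Ideal.span_singleton_eq_bot]; exact hx
    · rw [h3, Ideal.span_singleton_mul_span_singleton, mul_comm x, hy']
  refine ⟨x', y', h1, hp, ?_, ?_⟩
  · rw [← h6]; exact IsCoprime.mul_left (Mq_cop 𝔞) (Mq_cop 𝔠)
  · rw [h2, ← h6]; ring

lemma cls_same {𝔮 : Ideal (𝓞 K)} (htop : 𝔮 ≠ ⊤) {𝔞 𝔟 : Mq 𝔮} {x' y' : 𝓞 K} (hx' : x' - 1 ∈ 𝔮)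
    (hp : TPos K x') (hy : IsCoprime (Ideal.span {y'}) 𝔮)
    (h : Ideal.span {x'} * (𝔞 : Ideal (𝓞 K)) = Ideal.span {y'} * (𝔟 : Ideal (𝓞 K))) :
    cls (pi1 htop) 𝔞 = cls (pi1 htop) ⟨Ideal.span {y'}, hy⟩ * cls (pi1 htop) 𝔟 := by
  rw [← map_mul]
  have h1 : pi1 htop ⟨x', hx', hp⟩ * 𝔞 = ⟨Ideal.span {y'}, hy⟩ * 𝔟 := by
    apply Subtype.ext
    rw [Submonoid.coe_mul, Submonoid.coe_mul, pi1_coe]
    exact h
  rw [← h1, map_mul, cls_pi, one_mul]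

/-- the ideal class -/
noncomputable def cg {𝔮 : Ideal (𝓞 K)} (htop : 𝔮 ≠ ⊤) (𝔞 : Mq 𝔮) : ClassGroup (𝓞 K) :=
  ClassGroup.mk0 ⟨(𝔞 : Ideal (𝓞 K)), mem_nonZeroDivisors_iff_ne_zero.mpr (Mq_ne_bot htop 𝔞)⟩

lemma cg_eq {𝔮 : Ideal (𝓞 K)} (hbot : 𝔮 ≠ ⊥) (htop : 𝔮 ≠ ⊤) {𝔞 𝔟 : Mq 𝔮}
    (h : cg htop 𝔞 = cg htop 𝔟) :
    ∃ (x' y' : 𝓞 K) (_ : x' - 1 ∈ 𝔮) (_ : TPos K x') (_ : IsCoprime (Ideal.span {y'}) 𝔮),
      Ideal.span {x'} * (𝔞 : Ideal (𝓞 K)) = Ideal.span {y'} * (𝔟 : Ideal (𝓞 K)) := by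
  unfold cg at h
  rw [ClassGroup.mk0_eq_mk0_iff] at h
  obtain ⟨x, y, hx, -, h1⟩ := h
  exact same_class hbot htop hx h1

lemma exists_reps {𝔮 : Ideal (𝓞 K)} (htop : 𝔮 ≠ ⊤) :
    ∃ 𝔟 : ClassGroup (𝓞 K) → Mq 𝔮, ∀ 𝔠 : Mq 𝔮, cg htop (𝔟 (cg htop 𝔠)) = cg htop 𝔠 := by
  classical
  refine ⟨fun C => if h : ∃ 𝔠 : Mq 𝔮, cg htop 𝔠 = C then h.choose else 1, fun 𝔠 => ?_⟩
  have h : ∃ 𝔠' : Mq 𝔮, cg htop 𝔠' = cg htop 𝔠 := ⟨𝔠, rfl⟩
  simp only [dif_pos h]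
  exact h.choose_spec

theorem cls_card_le {𝔮 : Ideal (𝓞 K)} (hbot : 𝔮 ≠ ⊥) (htop : 𝔮 ≠ ⊤) :
    Finite (Cls (pi1 htop)) ∧
      Nat.card (Cls (pi1 htop)) ≤ Nat.card (𝓞 K ⧸ 𝔮)ˣ * hK K := by
  classical
  have : Finite (𝓞 K ⧸ 𝔮) := Ideal.finiteQuotientOfFreeOfNeBot 𝔮 hbot
  choose 𝔞 h𝔞 using exists_rep hbot htop
  obtain ⟨𝔟, h𝔟⟩ := exists_reps htop
  choose x' y' hx' hp hy' hxy using fun c => cg_eq hbot htop (h𝔟 (𝔞 c)).symm
  have hinj : Function.Injective (fun c : Cls (pi1 htop) =>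
      ((isUnit_mk (hy' c)).unit, cg htop (𝔞 c), sgn (y' c))) := by
    intro c c' h
    obtain ⟨h1, h2⟩ := Prod.ext_iff.mp h
    obtain ⟨h2, h2s⟩ := Prod.ext_iff.mp h2
    have h1' : (isUnit_mk (hy' c)).unit = (isUnit_mk (hy' c')).unit := h1
    have h2' : cg htop (𝔞 c) = cg htop (𝔞 c') := h2
    have h2s' : sgn (y' c) = sgn (y' c') := h2s
    have h3 : y' c - y' c' ∈ 𝔮 := by
      rw [← Ideal.Quotient.eq, ← IsUnit.unit_spec (isUnit_mk (hy' c)), h1', IsUnit.unit_spec]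
    rw [← h𝔞 c, ← h𝔞 c', cls_same htop (hx' c) (hp c) (hy' c) (hxy c),
      cls_same htop (hx' c') (hp c') (hy' c') (hxy c'),
      cls_congr hbot htop (hy' c) (hy' c') h3 (sameSign_of_sgn h2s'), h2']
  have hfin := Finite.of_injective _ hinj
  refine ⟨hfin, ?_⟩
  have h := Nat.card_le_card_of_injective _ hinj
  rw [Nat.card_prod, Nat.card_prod] at h
  exact h

/-- the number of residue classes of the units modulo `𝔮` -/
noncomputable def Un (𝔮 : Ideal (𝓞 K)) : ℕ :=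
  (Set.range (fun u : (𝓞 K)ˣ => Ideal.Quotient.mk 𝔮 (u : 𝓞 K))).ncard

lemma finite_Un {𝔮 : Ideal (𝓞 K)} (hbot : 𝔮 ≠ ⊥) :
    (Set.range (fun u : (𝓞 K)ˣ => Ideal.Quotient.mk 𝔮 (u : 𝓞 K))).Finite := by
  have : Finite (𝓞 K ⧸ 𝔮) := Ideal.finiteQuotientOfFreeOfNeBot 𝔮 hbot
  exact Set.toFinite _

lemma one_le_Un {𝔮 : Ideal (𝓞 K)} (hbot : 𝔮 ≠ ⊥) : 1 ≤ Un 𝔮 := by
  unfold Un
  rw [Nat.one_le_iff_ne_zero, Ne, Set.ncard_eq_zero (finite_Un hbot)]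
  exact (Set.range_nonempty _).ne_empty

theorem card_units_le {𝔮 : Ideal (𝓞 K)} (hbot : 𝔮 ≠ ⊥) (htop : 𝔮 ≠ ⊤) :
    Nat.card (𝓞 K ⧸ 𝔮)ˣ ≤ Un 𝔮 * Nat.card (Cls (pi1 htop)) := by
  classical
  have : Finite (𝓞 K ⧸ 𝔮) := Ideal.finiteQuotientOfFreeOfNeBot 𝔮 hbot
  have := (cls_card_le hbot htop).1
  have := Fintype.ofFinite (𝓞 K ⧸ 𝔮)ˣ
  have := Fintype.ofFinite (Cls (pi1 htop))
  have := Mq_cancel htop
  choose x hx using gq_surj (K := K) hbot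
  have hx' : ∀ g, Ideal.Quotient.mk 𝔮 ((x g : Tq 𝔮) : 𝓞 K) = (g : 𝓞 K ⧸ 𝔮) := fun g => by
    rw [← gq_coe, hx]
  have h := Finset.card_le_mul_card_image
    (f := fun g : (𝓞 K ⧸ 𝔮)ˣ => cls (pi1 htop) ⟨Ideal.span {((x g : Tq 𝔮) : 𝓞 K)}, Tq_cop (x g)⟩)
    Finset.univ (Un 𝔮) (by
      intro c hc'
      obtain ⟨g₀, -, hg₀⟩ := Finset.mem_image.mp hc'
      have h1 : (fun g : (𝓞 K ⧸ 𝔮)ˣ => (g : 𝓞 K ⧸ 𝔮)) ''
          ((Finset.univ.filter (fun g : (𝓞 K ⧸ 𝔮)ˣ =>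
          cls (pi1 htop) ⟨Ideal.span {((x g : Tq 𝔮) : 𝓞 K)}, Tq_cop (x g)⟩ = c) :
            Finset (𝓞 K ⧸ 𝔮)ˣ) : Set (𝓞 K ⧸ 𝔮)ˣ) ⊆
          (fun r : 𝓞 K ⧸ 𝔮 => r * (g₀ : 𝓞 K ⧸ 𝔮)) ''
            (Set.range (fun u : (𝓞 K)ˣ => Ideal.Quotient.mk 𝔮 (u : 𝓞 K))) := by
        rintro _ ⟨g, hg, rfl⟩
        have h2 := ((Finset.mem_filter.mp (Finset.mem_coe.mp hg)).2).trans hg₀.symm
        obtain ⟨a, b, hab⟩ := cls_eq h2
        have h3 := congrArg Subtype.val hab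
        rw [Submonoid.coe_mul, Submonoid.coe_mul, pi1_coe, pi1_coe,
          Ideal.span_singleton_mul_span_singleton, Ideal.span_singleton_mul_span_singleton,
          Ideal.span_singleton_eq_span_singleton] at h3
        obtain ⟨u, hu⟩ := h3.symm
        refine ⟨_, ⟨u, rfl⟩, ?_⟩
        have ha := (Ideal.Quotient.eq (I := 𝔮)).mpr (T1_one a)
        have hb := (Ideal.Quotient.eq (I := 𝔮)).mpr (T1_one b)
        have h4 := congrArg (Ideal.Quotient.mk 𝔮) hu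
        rw [map_mul, map_mul, map_mul, ha, hb, map_one, one_mul, one_mul, hx', hx'] at h4
        change Ideal.Quotient.mk 𝔮 (u : 𝓞 K) * (g₀ : 𝓞 K ⧸ 𝔮) = (g : 𝓞 K ⧸ 𝔮)
        rw [mul_comm]
        exact h4
      have hfin := finite_Un (K := K) hbot
      have h5 := Set.ncard_le_ncard h1 (hfin.image _)
      rw [Set.ncard_image_of_injective _ Units.val_injective, Set.ncard_coe_finset] at h5
      exact h5.trans (Set.ncard_image_le hfin))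
  calc Nat.card (𝓞 K ⧸ 𝔮)ˣ = (Finset.univ : Finset (𝓞 K ⧸ 𝔮)ˣ).card := by
        rw [Nat.card_eq_fintype_card]; rfl
    _ ≤ _ := h
    _ ≤ Un 𝔮 * Nat.card (Cls (pi1 htop)) := by
        refine Nat.mul_le_mul_left _ ?_
        rw [Nat.card_eq_fintype_card]
        exact Finset.card_le_univ _

/-- the characters of the narrow ray class group modulo `𝔮` -/
def D1 {𝔮 : Ideal (𝓞 K)} (htop : 𝔮 ≠ ⊤) : Set (Mq 𝔮 →* ℂˣ) :=
  {F | ∀ x : T1 htop, F (pi1 htop x) = 1}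

lemma D1_card {𝔮 : Ideal (𝓞 K)} (hbot : 𝔮 ≠ ⊥) (htop : 𝔮 ≠ ⊤) :
    (D1 htop).Finite ∧ (D1 htop).ncard = Nat.card (Cls (pi1 htop)) := by
  have := (cls_card_le hbot htop).1
  have hfd := finite_dual (Cls (pi1 htop))
  have hsurj : D1 htop = Set.range (fun lam : Cls (pi1 htop) →* ℂˣ => lam.comp (cls (pi1 htop))) := by
    ext F
    constructor
    · intro hF
      obtain ⟨lam, hlam⟩ := exists_lam (pi1 htop) F 1 (fun a => by
        rw [hF a, MonoidHom.one_apply])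
      refine ⟨lam, ?_⟩
      ext x
      change ((lam (cls (pi1 htop) x) : ℂˣ) : ℂ) = F x
      rw [hlam x, MonoidHom.one_apply, one_mul]
    · rintro ⟨lam, rfl⟩ x
      change lam (cls (pi1 htop) (pi1 htop x)) = 1
      rw [cls_pi, map_one]
  have hinj : Function.Injective
      (fun lam : Cls (pi1 htop) →* ℂˣ => lam.comp (cls (pi1 htop))) := by
    intro l l' h
    refine MonoidHom.ext fun c => ?_
    obtain ⟨𝔞, rfl⟩ := exists_rep hbot htop c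
    exact DFunLike.congr_fun h 𝔞
  refine ⟨hsurj ▸ Set.finite_range _, ?_⟩
  rw [hsurj, ← Set.image_univ, Set.ncard_image_of_injective _ hinj, Set.ncard_univ, card_dual]

/-- the characters which are trivial on the ideals with a totally positive generator -/
def D0 (𝔮 : Ideal (𝓞 K)) : Set (Mq 𝔮 →* ℂˣ) :=
  {F | ∀ (x : 𝓞 K) (hx : IsCoprime (Ideal.span {x}) 𝔮), TPos K x → F ⟨Ideal.span {x}, hx⟩ = 1}

lemma D0_sub {𝔮 : Ideal (𝓞 K)} (htop : 𝔮 ≠ ⊤) : D0 𝔮 ⊆ D1 htop := fun _ hF x =>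
  hF x (T1_cop x) (T1_tp x)

lemma D0_card {𝔮 : Ideal (𝓞 K)} (hbot : 𝔮 ≠ ⊥) (htop : 𝔮 ≠ ⊤) :
    (D0 𝔮).ncard ≤ hK K := by
  have hC := Mq_cancel htop
  have hrep : ∀ c : Cls (pq 𝔮), ∃ 𝔞 : Mq 𝔮, cls (pq 𝔮) 𝔞 = c := by
    intro c
    obtain ⟨a, b, hab⟩ := cls_div (pq 𝔮) c
    obtain ⟨x, 𝔠, h1, hp, h2, -⟩ := exists_compl hbot htop b
    refine ⟨a * 𝔠, ?_⟩
    have h3 : cls (pq 𝔮) (b * 𝔠) = 1 := by
      rw [← cls_pi (pq 𝔮) ⟨x, hp, cop_one h1⟩]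
      congr 1
      apply Subtype.ext
      rw [pq_coe, Submonoid.coe_mul]
      exact h2.symm
    rw [map_mul] at h3
    rw [map_mul, ← hab, mul_assoc, h3, mul_one]
  choose 𝔞 h𝔞 using hrep
  obtain ⟨𝔟, h𝔟⟩ := exists_reps htop
  choose x' y' hx' hp hy' hxy using fun c => cg_eq hbot htop (h𝔟 (𝔞 c)).symm
  have hinj : Function.Injective (fun c => (cg htop (𝔞 c), sgn (y' c))) := by
    intro c c' h
    obtain ⟨h1, h2⟩ := Prod.ext_iff.mp h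
    have h1' : cg htop (𝔞 c) = cg htop (𝔞 c') := h1
    have h2' : sgn (y' c) = sgn (y' c') := h2
    have hs := sameSign_of_sgn h2'
    have hy0 := ne_zero_of_cop htop (hy' c)
    have hy0' := ne_zero_of_cop htop (hy' c')
    rw [← h𝔞 c, ← h𝔞 c']
    have e1 := hxy c
    have e2 := hxy c'
    rw [← h1'] at e2
    refine cls_of_mul (π := pq 𝔮) (a := ⟨x' c * (y' c * y' c'), tpos_mul (hp c) (hs.mul_tp hy0 hy0'),
      cop_mul (cop_one (hx' c)) (cop_mul (hy' c) (hy' c'))⟩)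
      (b := ⟨x' c' * (y' c * y' c), tpos_mul (hp c') (sq_tp hy0),
      cop_mul (cop_one (hx' c')) (cop_mul (hy' c) (hy' c))⟩) ?_
    apply Subtype.ext
    rw [Submonoid.coe_mul, Submonoid.coe_mul, pq_coe, pq_coe]
    change Ideal.span {x' c * (y' c * y' c')} * _ = Ideal.span {x' c' * (y' c * y' c)} * _
    simp only [← Ideal.span_singleton_mul_span_singleton]
    calc Ideal.span {x' c} * (Ideal.span {y' c} * Ideal.span {y' c'}) * (𝔞 c : Ideal (𝓞 K)) =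
        (Ideal.span {x' c} * (𝔞 c : Ideal (𝓞 K))) * (Ideal.span {y' c} * Ideal.span {y' c'}) := by
          ring
      _ = (Ideal.span {y' c'} * ((𝔟 (cg htop (𝔞 c)) : Mq 𝔮) : Ideal (𝓞 K))) *
          (Ideal.span {y' c} * Ideal.span {y' c}) := by rw [e1]; ring
      _ = _ := by rw [← e2]; ring
  have hfin : Finite (Cls (pq 𝔮)) := Finite.of_injective _ hinj
  have hcard : Nat.card (Cls (pq 𝔮)) ≤ hK K := by
    have := Nat.card_le_card_of_injective _ hinj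
    rw [Nat.card_prod] at this
    exact this
  have hfd := finite_dual (Cls (pq 𝔮))
  have hsub : D0 𝔮 ⊆ Set.range (fun lam : Cls (pq 𝔮) →* ℂˣ => lam.comp (cls (pq 𝔮))) := by
    intro F hF
    obtain ⟨lam, hlam⟩ := exists_lam (pq 𝔮) F 1 (fun a => by
      rw [MonoidHom.one_apply]; exact hF a (Tq_cop a) (Tq_tp a))
    refine ⟨lam, ?_⟩
    ext x
    change ((lam (cls (pq 𝔮) x) : ℂˣ) : ℂ) = F x
    rw [hlam x, MonoidHom.one_apply, one_mul]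
  refine (Set.ncard_le_ncard hsub (Set.finite_range _)).trans ?_
  rw [← Set.image_univ]
  refine (Set.ncard_image_le Set.finite_univ).trans ?_
  rw [Set.ncard_univ, card_dual]
  exact hcard

open Classical in
/-- the ordered pairs of different members of `S` in the same class -/
noncomputable def prs {𝔮 : Ideal (𝓞 K)} (htop : 𝔮 ≠ ⊤) (S : Finset (Mq 𝔮)) :
    Finset (Mq 𝔮 × Mq 𝔮) :=
  (S ×ˢ S).filter (fun p => p.1 ≠ p.2 ∧ cls (pi1 htop) p.1 = cls (pi1 htop) p.2)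

/-- **the large sieve** with the pairs in the same ray class -/
theorem ls {𝔮 : Ideal (𝓞 K)} (hbot : 𝔮 ≠ ⊥) (htop : 𝔮 ≠ ⊤) (Y : Finset (Mq 𝔮 →* ℂˣ))
    (hY : ∀ F ∈ Y, F ∈ D1 htop) (S : Finset (Mq 𝔮)) (a : Mq 𝔮 → ℂ) :
    ∑ F ∈ Y, ‖∑ x ∈ S, a x * ((F x : ℂˣ) : ℂ)‖ ^ 2 ≤
      Nat.card (Cls (pi1 htop)) * (∑ x ∈ S, ‖a x‖ ^ 2 + ∑ p ∈ prs htop S, ‖a p.1‖ * ‖a p.2‖) := by
  classical
  have := (cls_card_le hbot htop).1
  have := Fintype.ofFinite (Cls (pi1 htop))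
  have := Mq_cancel htop
  have h := bes_cls Pool.Agent.Y287.HC.t_bes (pi1 htop) 1 Y (fun F hF x => by
    rw [hY F hF x, MonoidHom.one_apply]) S a
  refine h.trans ?_
  rw [Nat.card_eq_fintype_card]
  refine mul_le_mul_of_nonneg_left ?_ (Nat.cast_nonneg _)
  have h1 : ∀ c : Cls (pi1 htop), ‖∑ x ∈ S.filter (fun x => cls (pi1 htop) x = c),
      a x * (((1 : Mq 𝔮 →* ℂˣ) x : ℂˣ) : ℂ)‖ ^ 2 ≤
      ∑ x ∈ S.filter (fun x => cls (pi1 htop) x = c),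
        ∑ y ∈ S.filter (fun x => cls (pi1 htop) x = c), ‖a x‖ * ‖a y‖ := by
    intro c
    have h2 : ‖∑ x ∈ S.filter (fun x => cls (pi1 htop) x = c),
      a x * (((1 : Mq 𝔮 →* ℂˣ) x : ℂˣ) : ℂ)‖ ≤ ∑ x ∈ S.filter (fun x => cls (pi1 htop) x = c), ‖a x‖ := by
      refine (norm_sum_le _ _).trans (le_of_eq (Finset.sum_congr rfl fun x _ => ?_))
      rw [MonoidHom.one_apply, Units.val_one, mul_one]
    refine (pow_le_pow_left₀ (norm_nonneg _) h2 2).trans (le_of_eq ?_)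
    rw [sq, Finset.sum_mul_sum]
  refine (Finset.sum_le_sum fun c _ => h1 c).trans ?_
  have h2 : ∑ c : Cls (pi1 htop), ∑ x ∈ S.filter (fun x => cls (pi1 htop) x = c),
        ∑ y ∈ S.filter (fun x => cls (pi1 htop) x = c), ‖a x‖ * ‖a y‖ =
      ∑ x ∈ S, ∑ y ∈ S, (if cls (pi1 htop) x = cls (pi1 htop) y then ‖a x‖ * ‖a y‖ else 0) := by
    rw [← Finset.sum_fiberwise S (cls (pi1 htop)) (fun x => ∑ y ∈ S,
      (if cls (pi1 htop) x = cls (pi1 htop) y then ‖a x‖ * ‖a y‖ else 0))]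
    refine Finset.sum_congr rfl fun c _ => Finset.sum_congr rfl fun x hx => ?_
    rw [Finset.sum_filter]
    refine Finset.sum_congr rfl fun y _ => ?_
    rw [(Finset.mem_filter.mp hx).2]
    by_cases h3 : cls (pi1 htop) y = c
    · rw [if_pos h3, if_pos h3.symm]
    · rw [if_neg h3, if_neg (fun h4 => h3 h4.symm)]
  rw [h2]
  have h3 : ∑ x ∈ S, ∑ y ∈ S, (if cls (pi1 htop) x = cls (pi1 htop) y then ‖a x‖ * ‖a y‖ else 0) =
      ∑ x ∈ S, ‖a x‖ ^ 2 + ∑ x ∈ S, ∑ y ∈ S,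
        (if x ≠ y ∧ cls (pi1 htop) x = cls (pi1 htop) y then ‖a x‖ * ‖a y‖ else 0) := by
    rw [← Finset.sum_add_distrib]
    refine Finset.sum_congr rfl fun x hx => ?_
    have h4 : ‖a x‖ ^ 2 = ∑ y ∈ S, (if x = y then ‖a x‖ * ‖a y‖ else 0) := by
      rw [Finset.sum_ite_eq, if_pos hx, sq]
    rw [h4, ← Finset.sum_add_distrib]
    refine Finset.sum_congr rfl fun y _ => ?_
    by_cases h5 : x = y
    · subst h5
      simp
    · rw [if_neg h5, zero_add]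
      by_cases h6 : cls (pi1 htop) x = cls (pi1 htop) y
      · rw [if_pos h6, if_pos ⟨h5, h6⟩]
      · rw [if_neg h6, if_neg (fun h7 => h6 h7.2)]
  rw [h3, ← Finset.sum_product']
  unfold prs
  rw [Finset.sum_filter]

end

end Pool.Agent.N784.AD
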