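import Pool.Agent.Y773.IQ.Good
import Pool.Agent.Y773.IQ.Fam
import Pool.Agent.Y767.WA.FinH

/-! # Conversions (helper784) -/

set_option autoImplicit false
set_option linter.unusedSectionVars false

open NumberField Complex Filter Topology MeasureTheory

namespace Pool.Agent.N784.AD

open Pool.Agent.W354 (LogC)
open Y767.WH (GoodH)
open W388.LV (GoodG)
open Pool.Agent.Y773 (VM cc)
open Pool.Agent.Y767 (cK)
open Pool.Agent.Y772.DK (NN NN_finite cc_mul sum_VM_le VM_nonneg VM_pow VM_of_not)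
open Pool.Agent.Y773.IQ (sq_cK)

lemma logC_of {Q : ℝ} (hQ : 1 ≤ Q) : LogC (fun t => Real.log (Q * t)) := by
  have hQ0 : 0 < Q := by linarith
  refine ⟨fun x y hx hxy => ?_, fun x hx => ?_, fun x y hx hxy => ?_⟩
  · exact Real.log_le_log (by positivity) (mul_le_mul_of_nonneg_left hxy hQ0.le)
  · refine Real.log_le_log (by linarith) ?_
    nlinarith
  · have hx0 : 0 < x := by linarith
    have hy0 : 0 < y := by linarith
    rw [Real.log_mul hQ0.ne' hy0.ne', Real.log_mul hQ0.ne' hx0.ne', Real.log_div hy0.ne' hx0.ne']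
    linarith

lemma goodH_of {d A Q : ℝ} {F : ℂ → ℂ} {a : ℕ → ℂ} (hQ : 1 ≤ Q) (h : GoodG d A Q F a) :
    GoodH d A (fun t => Real.log (Q * t)) F a := by
  refine ⟨h.an, ?_, h.lower, h.nzr, h.nzl, h.symm, h.ha1, h.has, h.ha, h.ld, h.left⟩
  intro s h1 h2 h3
  refine (h.growth s h1 h2 h3).trans (le_of_eq ?_)
  have hpos : 0 < Q * s.im := by
    have : 0 < Q := by linarith
    have : 0 < s.im := by linarith
    positivity
  rw [Real.rpow_def_of_pos hpos, mul_comm (Real.log _)]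

section

variable {K : Type} [Field K] [NumberField K]

lemma le_VM (𝔞 : Ideal (𝓞 K)) (h : VM 𝔞 ≠ 0) :
    ArithmeticFunction.vonMangoldt (Ideal.absNorm 𝔞) ≤ VM 𝔞 := by
  have h1 : IsPrimePow 𝔞 := by
    by_contra hcon
    exact h (VM_of_not hcon)
  obtain ⟨P, k, hP, hk, rfl⟩ := h1
  rw [VM_pow hP hk.ne', map_pow, ArithmeticFunction.vonMangoldt_apply_pow hk.ne']
  exact ArithmeticFunction.vonMangoldt_le_log

/-- the coefficients are bounded in the mean square -/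
lemma cc_sq_le (ψ : Ideal (𝓞 K) →*₀ ℂ) (hψ : ∀ 𝔞, ‖ψ 𝔞‖ ≤ 1) (n : ℕ) :
    ‖cc ψ n * (ArithmeticFunction.vonMangoldt n : ℂ)‖ ^ 2 ≤
      Module.finrank ℚ K * (ArithmeticFunction.vonMangoldt n * ‖cK K n‖) ^ 2 := by
  classical
  by_cases hΛ : ArithmeticFunction.vonMangoldt n = 0
  · rw [hΛ]
    simp
  rw [cc_mul, mul_pow, sq_cK, mul_div_cancel₀ _ (pow_ne_zero 2 hΛ)]
  have h1 : ‖∑ᶠ 𝔞 ∈ NN K n, (VM 𝔞 : ℂ) * ψ 𝔞‖ ≤ ∑ᶠ 𝔞 ∈ NN K n, VM 𝔞 := by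
    rw [finsum_mem_eq_finite_toFinset_sum _ (NN_finite n),
      finsum_mem_eq_finite_toFinset_sum _ (NN_finite n)]
    refine norm_sum_le_of_le _ fun 𝔞 _ => ?_
    rw [norm_mul, norm_real, Real.norm_of_nonneg (VM_nonneg _)]
    exact mul_le_of_le_one_right (VM_nonneg _) (hψ 𝔞)
  have h2 := sum_VM_le (K := K) n
  have h3 : 0 ≤ ∑ᶠ 𝔞 ∈ NN K n, VM 𝔞 := (norm_nonneg _).trans h1
  have h4 : ArithmeticFunction.vonMangoldt n * ∑ᶠ 𝔞 ∈ NN K n, VM 𝔞 ≤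
      ∑ᶠ 𝔞 ∈ NN K n, VM 𝔞 ^ 2 := by
    rw [finsum_mem_eq_finite_toFinset_sum _ (NN_finite n),
      finsum_mem_eq_finite_toFinset_sum _ (NN_finite n), Finset.mul_sum]
    refine Finset.sum_le_sum fun 𝔞 h𝔞 => ?_
    rw [Set.Finite.mem_toFinset] at h𝔞
    have h5 : Ideal.absNorm 𝔞 = n := h𝔞
    by_cases h6 : VM 𝔞 = 0
    · rw [h6]; simp
    · have h7 := le_VM 𝔞 h6
      rw [h5] at h7
      rw [sq]
      exact mul_le_mul_of_nonneg_right h7 (VM_nonneg _)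
  calc ‖∑ᶠ 𝔞 ∈ NN K n, (VM 𝔞 : ℂ) * ψ 𝔞‖ ^ 2 ≤ (∑ᶠ 𝔞 ∈ NN K n, VM 𝔞) ^ 2 :=
        pow_le_pow_left₀ (norm_nonneg _) h1 2
    _ = (∑ᶠ 𝔞 ∈ NN K n, VM 𝔞) * ∑ᶠ 𝔞 ∈ NN K n, VM 𝔞 := sq _
    _ ≤ (Module.finrank ℚ K * ArithmeticFunction.vonMangoldt n) * ∑ᶠ 𝔞 ∈ NN K n, VM 𝔞 :=
        mul_le_mul_of_nonneg_right h2 h3
    _ = Module.finrank ℚ K * (ArithmeticFunction.vonMangoldt n * ∑ᶠ 𝔞 ∈ NN K n, VM 𝔞) := by ring
    _ ≤ _ := mul_le_mul_of_nonneg_left h4 (Nat.cast_nonneg _)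

end

end Pool.Agent.N784.AD
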