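import Pool.Agent.N786.CoreI

/-!
# The zeros from the mean square, the condition on the conductors on average (helper784; adapted
from `Pool.Agent.N786.CoreI` and `Pool.Agent.Y773.IQ.Core`)
-/

set_option autoImplicit false
set_option maxHeartbeats 4000000
set_option linter.unusedVariables false

open Complex Filter Topology Set MeasureTheory
open H370 (zset mult NN Nd Ns)
open H385 (Rw bt)
open Y767.WH

namespace Pool.Agent.N784.AD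

open Pool.Agent.W354 (LogC)
open Pool.Agent.N786 (MSD)

theorem coreP_aux (d A : ℝ) (hd : 1 ≤ d) (hA : 1 ≤ A) (θ : ℝ) (hθ0 : 0 < θ) (hθ1 : θ ≤ 1)
    (γ β c' : ℝ) (h0 : 0 < γ) (hπ : γ < Real.pi)
    (hβ : 0 < β) (hc' : 0 ≤ c') (hR0 : 0 ≤ Rw γ 0) (ε : ℝ) (hε : 0 < ε) :
    ∃ ε1 η L0 : ℝ, 0 < ε1 ∧ 0 < η ∧ 8 ≤ L0 ∧
    ∀ {ι : Type} (s : Finset ι) (ω : ι → ℝ) (lc : ι → ℝ → ℝ) (F : ι → ℂ → ℂ) (a : ι → ℕ → ℂ)
      (L T : ℝ), L0 ≤ L → L ^ 2 ≤ T → T ≤ Real.exp (L ^ 2 / 2) →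
      (∀ i ∈ s, 0 ≤ ω i ∧ LogC (lc i) ∧ GoodH d A (lc i) (F i) (a i) ∧ 0 ≤ lc i T ∧
        lc i T ≤ (1 + 2 * η) * L) →
      θ * L * (∑ i ∈ s, ω i) ≤ ∑ i ∈ s, ω i * lc i T →
      MSD s ω a γ β c' ε1 L T →
      ∑ i ∈ s, ω i * (2 * (H370.NN (F i) T (2 * T) : ℝ) - (H370.Ns (F i) T (2 * T) : ℝ)) ≤
        (d * Rw γ 0 / β + c' / d + ε) *
          (θ⁻¹ * ∑ i ∈ s, ω i * (H370.NN (F i) T (2 * T) : ℝ)) ∧
      ∑ i ∈ s, ω i * (3 * (H370.NN (F i) T (2 * T) : ℝ) - 2 * (H370.Nd (F i) T (2 * T) : ℝ)) ≤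
        (d * Rw γ 0 / β + c' / d + ε) *
          (θ⁻¹ * ∑ i ∈ s, ω i * (H370.NN (F i) T (2 * T) : ℝ)) := by
  obtain ⟨C1, hC1, hfam⟩ := fam_abstract_E γ h0 hπ d A hd hA
  obtain ⟨C1', hC1', hfam'⟩ := fam_abstract_d_E γ h0 hπ d A hd hA
  obtain ⟨C3, hC3, hlow⟩ := N_lower_E d A hd hA
  have hd0 : 0 < d := by linarith
  have hθi : 1 ≤ θ⁻¹ := (one_le_inv₀ hθ0).mpr hθ1
  obtain ⟨C2, hC2d⟩ : ∃ C2 : ℝ, C2 = θ⁻¹ * C3 := ⟨_, rfl⟩
  have hC2 : 0 < C2 := by rw [hC2d]; positivity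
  -- choose ε1
  have hpi := Real.pi_pos
  set CC : ℝ := max C1 C1' with hCC
  have hCC0 : 0 < CC := lt_max_of_lt_left hC1
  obtain ⟨ε1, hε1, hε1a, hε1b⟩ : ∃ ε1 : ℝ, 0 < ε1 ∧ ε1 ≤ ε / 8 ∧
      6 * Real.pi * CC * ε1 / β ≤ ε / 8 := by
    refine ⟨min (ε / 8) (ε / 8 * β / (6 * Real.pi * CC)), ?_, min_le_left _ _, ?_⟩
    · exact lt_min (by positivity) (by positivity)
    · have : 6 * Real.pi * CC * min (ε / 8) (ε / 8 * β / (6 * Real.pi * CC)) ≤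
          6 * Real.pi * CC * (ε / 8 * β / (6 * Real.pi * CC)) := by
        gcongr; exact min_le_right _ _
      rw [div_le_iff₀ hβ]
      refine this.trans (le_of_eq ?_)
      field_simp
  -- choose η
  obtain ⟨η, hη, hη1, hη2⟩ : ∃ η : ℝ, 0 < η ∧ η ≤ 1 ∧
      8 * η * (d ^ 2 * Rw γ 0 / β) ≤ ε / 8 := by
    refine ⟨min 1 (ε / 64 / (d ^ 2 * Rw γ 0 / β + 1)), ?_, ?_, ?_⟩
    · exact lt_min one_pos (by positivity)
    · exact min_le_left _ _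
    · have h1 : min 1 (ε / 64 / (d ^ 2 * Rw γ 0 / β + 1)) ≤
          ε / 64 / (d ^ 2 * Rw γ 0 / β + 1) := min_le_right _ _
      have h2 : 0 ≤ d ^ 2 * Rw γ 0 / β := by positivity
      have h3 : ε / 64 / (d ^ 2 * Rw γ 0 / β + 1) * (d ^ 2 * Rw γ 0 / β) ≤ ε / 64 := by
        rw [div_mul_eq_mul_div, div_le_iff₀ (by positivity)]
        exact H385.NL.b9 (by positivity)
      have h4 : min 1 (ε / 64 / (d ^ 2 * Rw γ 0 / β + 1)) * (d ^ 2 * Rw γ 0 / β) ≤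
          ε / 64 / (d ^ 2 * Rw γ 0 / β + 1) * (d ^ 2 * Rw γ 0 / β) :=
        mul_le_mul_of_nonneg_right h1 h2
      exact H385.NL.b10 h4 h3
  -- choose L0
  set L0 : ℝ := 8 + 5 * β + 1 / β + CC * (12 / β + 3) * (2 * Real.pi) * (8 / ε) +
    10 * Real.pi * C2 * (d ^ 2 * Rw γ 0 / β + c' + ε) * (2 / ε) with hL0
  have hL0a : 5 * β + 8 ≤ L0 := by
    have : 0 ≤ 1 / β + CC * (12 / β + 3) * (2 * Real.pi) * (8 / ε) +
      10 * Real.pi * C2 * (d ^ 2 * Rw γ 0 / β + c' + ε) * (2 / ε) := by positivity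
    rw [hL0]; linarith
  have hL0b : 1 / β ≤ L0 := by
    have : 0 ≤ 8 + 5 * β + CC * (12 / β + 3) * (2 * Real.pi) * (8 / ε) +
      10 * Real.pi * C2 * (d ^ 2 * Rw γ 0 / β + c' + ε) * (2 / ε) := by positivity
    rw [hL0]; linarith
  have hL0c : CC * (12 / β + 3) * (2 * Real.pi) ≤ ε / 8 * L0 := by
    have h1 : 0 ≤ 8 + 5 * β + 1 / β +
      10 * Real.pi * C2 * (d ^ 2 * Rw γ 0 / β + c' + ε) * (2 / ε) := by positivity
    have h2 : ε / 8 * L0 = CC * (12 / β + 3) * (2 * Real.pi) + ε / 8 * (8 + 5 * β + 1 / β +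
      10 * Real.pi * C2 * (d ^ 2 * Rw γ 0 / β + c' + ε) * (2 / ε)) := by
      rw [hL0]; field_simp; ring
    rw [h2]
    have := mul_nonneg (show 0 ≤ ε / 8 by positivity) h1
    linarith
  have hL0d : 10 * Real.pi * C2 * (d ^ 2 * Rw γ 0 / β + c' + ε) ≤ ε / 2 * L0 := by
    have h1 : 0 ≤ 8 + 5 * β + 1 / β + CC * (12 / β + 3) * (2 * Real.pi) * (8 / ε) := by positivity
    have h2 : ε / 2 * L0 = 10 * Real.pi * C2 * (d ^ 2 * Rw γ 0 / β + c' + ε) +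
        ε / 2 * (8 + 5 * β + 1 / β + CC * (12 / β + 3) * (2 * Real.pi) * (8 / ε)) := by
      rw [hL0]; field_simp; ring
    rw [h2]
    have := mul_nonneg (show 0 ≤ ε / 2 by positivity) h1
    linarith
  have hL08 : 8 ≤ L0 := by linarith
  refine ⟨ε1, η, L0, hε1, hη, hL08, ?_⟩
  intro ι s ω lc F a L T hLL0 hT1 hT2 hfamd hcond hms
  have hL8 : 8 ≤ L := by linarith
  have hTe : L ^ 2 ≤ Real.exp (1 * L) := by
    have h1 := Real.quadratic_le_exp_of_nonneg (show 0 ≤ L / 2 by linarith)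
    have h2 : Real.exp (1 * L) = Real.exp (L / 2) * Real.exp (L / 2) := by
      rw [← Real.exp_add]; congr 1; ring
    rw [h2]
    have h3 : L ≤ Real.exp (L / 2) := by nlinarith
    nlinarith
  obtain ⟨p1, p2', -, p4, p5, p6⟩ := H385.param_ok β L (L ^ 2) 1 hβ le_rfl (by linarith) (by linarith)
    le_rfl hTe
  obtain ⟨-, -, -, -, p5', -⟩ := H385.param_ok (5 / 4 * β) L (L ^ 2) 1 (by positivity) le_rfl
    (by linarith) (by
      refine le_trans ?_ (hL0b.trans hLL0)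
      apply one_div_le_one_div_of_le hβ
      linarith) le_rfl hTe
  have p2 : 8 * L ≤ T := p2'.trans hT1
  have p3 : T ≤ Real.exp (L ^ 2 / 2) := hT2
  have hTpos : 0 < T := by linarith
  have hL8 : 8 ≤ L := by linarith
  have hT1' : 1 ≤ T := by
    have h1 : 1 ≤ L ^ 2 := by nlinarith
    exact h1.trans hT1
  obtain ⟨Yf, y1, y2, hy1, hy2, m1, m2, m3, m4, m5⟩ := hms
  -- family data
  have hdata : ∀ p ∈ s, 0 ≤ ω p ∧ LogC (lc p) ∧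
      GoodH d A (lc p) (F p) (a p) ∧ lc p T ≤ (1 + 2 * η) * L := fun p hp =>
    ⟨(hfamd p hp).1, (hfamd p hp).2.1, (hfamd p hp).2.2.1, (hfamd p hp).2.2.2.2⟩
  have hLm : (1 + 2 * η) * L ≤ 3 * L := mul_le_mul_of_nonneg_right (by linarith) (by linarith)
  have hLm1 : 1 ≤ (1 + 2 * η) * L := H385.NL.b12 hη (by linarith)
  have hLm0 : 0 ≤ (1 + 2 * η) * L := by linarith
  have hLm2 : ((1 + 2 * η) * L) ^ 2 ≤ 9 * L ^ 2 := by
    have h0 : ((1 + 2 * η) * L) ^ 2 ≤ (3 * L) ^ 2 := pow_le_pow_left₀ hLm0 hLm 2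
    linarith [show (3 * L) ^ 2 = 9 * L ^ 2 by ring]
  have hW0 : 0 ≤ ∑ p ∈ s, ω p := Finset.sum_nonneg fun p hp => (hfamd p hp).1
  have hexp : ((1 + 2 * η) * L) ^ 2 * Real.exp (5 / 4 * (β * L) - L ^ 2 / 2) ≤
      Real.exp (-(β * L)) := by
    refine le_trans (mul_le_mul_of_nonneg_right hLm2 (Real.exp_pos _).le) ?_
    have e1 : 5 / 4 * (β * L) = 5 / 4 * β * L := by ring
    rw [e1]
    refine p5'.trans (Real.exp_le_exp.2 ?_)
    have : 0 ≤ β * L := by positivity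
    linarith
  have k1 := hfam s ω lc F a
    T L (β * L) ((1 + 2 * η) * L) y1 y2 Yf hdata p1 p2 p3 p4 hLm1 hexp hy1 hy2 m1 m2 m3
  have k2 := hfam' s ω lc F a
    T L (β * L) ((1 + 2 * η) * L) y1 y2 Yf hdata p1 p2 p3 p4 hLm1 hexp hy1 hy2 m1 m2 m3
  -- lower bound for the number of zeros
  have hone : ∀ p ∈ s, ω p * (d * (T / (2 * Real.pi) * lc p T) - 5 * C3 * T) ≤
      ω p * (NN (F p) T (2 * T) : ℝ) := by
    intro p hp
    refine mul_le_mul_of_nonneg_left ?_ (hfamd p hp).1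
    have hl := hlow (lc p) (F p) (a p) (hfamd p hp).2.1 (hfamd p hp).2.2.1 T L p1 p2
    have hlog1 : 0 ≤ lc p T := (hfamd p hp).2.2.2.1
    have hlog2 : lc p T ≤ 3 * L := (hfamd p hp).2.2.2.2.trans hLm
    refine le_trans ?_ hl
    have a1 : d * (T / (2 * Real.pi) * lc p T) = T / (2 * Real.pi) * (d * lc p T) := by ring
    have a2 : L * lc p T ≤ 3 * T := by
      have : L * lc p T ≤ L * (3 * L) := mul_le_mul_of_nonneg_left hlog2 (by linarith)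
      linarith [show L * (3 * L) = 3 * L ^ 2 by ring]
    have a3 : T * lc p T ^ 2 * Real.exp (-L ^ 2 / 2) ≤ T := by
      have b1 : lc p T ^ 2 ≤ (3 * L) ^ 2 := pow_le_pow_left₀ hlog1 hlog2 2
      have b2 : lc p T ^ 2 * Real.exp (-L ^ 2 / 2) ≤ 1 := by
        refine le_trans (mul_le_mul_of_nonneg_right b1 (Real.exp_pos _).le) ?_
        rw [show (3 * L) ^ 2 = 9 * L ^ 2 by ring]; exact p6
      calc _ = T * (lc p T ^ 2 * Real.exp (-L ^ 2 / 2)) := by ring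
        _ ≤ T * 1 := mul_le_mul_of_nonneg_left b2 hTpos.le
        _ = T := mul_one T
    have a4 : C3 * (T + L * lc p T + T * lc p T ^ 2 *
        Real.exp (-L ^ 2 / 2)) ≤ C3 * (5 * T) := mul_le_mul_of_nonneg_left (by linarith) hC3.le
    linarith
  obtain ⟨SN, hSNd⟩ : ∃ SN : ℝ, SN = ∑ p ∈ s, ω p * (NN (F p) T (2 * T) : ℝ) := ⟨_, rfl⟩
  obtain ⟨W, hWd⟩ : ∃ W : ℝ, W = ∑ p ∈ s, ω p := ⟨_, rfl⟩
  have hSN0 : 0 ≤ SN := by
    rw [hSNd]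
    exact Finset.sum_nonneg fun p hp => mul_nonneg (hfamd p hp).1 (Nat.cast_nonneg _)
  have hN : W * (d * (T / (2 * Real.pi) * L) - 5 * C2 * T) ≤ θ⁻¹ * SN := by
    have h1 := Finset.sum_le_sum hone
    rw [← hSNd] at h1
    have h2 := hcond
    rw [← hWd] at h2
    have h3 : ∑ p ∈ s, ω p * (d * (T / (2 * Real.pi) * lc p T) - 5 * C3 * T) =
        d * (T / (2 * Real.pi)) * (∑ p ∈ s, ω p * lc p T) - 5 * C3 * T * W := by
      rw [hWd, Finset.mul_sum, Finset.mul_sum, ← Finset.sum_sub_distrib]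
      refine Finset.sum_congr rfl fun p _ => ?_
      ring
    rw [h3] at h1
    have h4 : 0 ≤ d * (T / (2 * Real.pi)) := by positivity
    have h5 : d * (T / (2 * Real.pi)) * (θ * L * W) ≤
        d * (T / (2 * Real.pi)) * (∑ p ∈ s, ω p * lc p T) :=
      mul_le_mul_of_nonneg_left h2 h4
    have h6 : θ * (W * (d * (T / (2 * Real.pi) * L) - 5 * C2 * T)) ≤ SN := by
      have e1 : θ * (W * (d * (T / (2 * Real.pi) * L) - 5 * C2 * T)) =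
          d * (T / (2 * Real.pi)) * (θ * L * W) - 5 * C3 * T * W := by
        rw [hC2d]
        field_simp
      rw [e1]
      linarith
    rw [inv_mul_eq_div, le_div_iff₀ hθ0]
    linarith
  have hθSN : 0 ≤ θ⁻¹ * SN := by positivity
  have hL0L : ε / 8 * L0 ≤ ε / 8 * L := mul_le_mul_of_nonneg_left hLL0 (by positivity)
  have hL0L' : ε / 2 * L0 ≤ ε / 2 * L := mul_le_mul_of_nonneg_left hLL0 (by positivity)
  have core : ∀ (D : ℝ) (SM : ℝ), 0 < D → D ≤ CC →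
      SM ≤ (∑ p ∈ s, ω p) * (d * ((1 + 2 * η) * L)) ^ 2 * Rw γ 0 * T /
          (2 * Real.pi * (β * L)) +
        (2 / (Real.sqrt Real.pi * (β * L))) * (∫ u in (0 : ℝ)..(β * L), Rw γ (u / (β * L)) * Yf u) +
      D * ((∑ p ∈ s, ω p) * (((1 + 2 * η) * L) ^ 2 * L / (β * L) +
        ((1 + 2 * η) * L) * T / (β * L) +
        L * ((1 + 2 * η) * L)) + Real.sqrt (∑ p ∈ s, ω p) * ((1 + 2 * η) * L) * T *
          (Real.sqrt y1 + Real.sqrt y2) / (β * L)) →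
      SM ≤ (d * Rw γ 0 / β + c' / d + ε) *
        (θ⁻¹ * ∑ p ∈ s, ω p * (NN (F p) T (2 * T) : ℝ)) := by
    intro D SM hD hDC hSM
    rw [← hSNd]
    rw [← hWd] at hSM m4 m5
    have hW0' : 0 ≤ W := by rw [hWd]; exact hW0
    refine H385.numeric_core_D d β c' ε (Rw γ 0) D C2 η ε1 L T W _ SM _ _ hd hβ
      hc' hε hR0 hD hC2 hη hη1 hε1 hL8 hT1 hW0' hη2 hε1a ?_ ?_ ?_ m4 m5 hSM hN hθSN
    · refine le_trans ?_ (hL0c.trans hL0L)
      have : 0 ≤ (12 / β + 3) * (2 * Real.pi) := by positivity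
      rw [mul_assoc, mul_assoc]
      exact mul_le_mul_of_nonneg_right hDC this
    · refine le_trans ?_ hε1b
      gcongr
    · exact hL0d.trans hL0L'
  constructor
  · exact core C1 _ hC1 (le_max_left _ _) (k1.trans (le_of_eq (by ring)))
  · exact core C1' _ hC1' (le_max_right _ _) (k2.trans (le_of_eq (by ring)))

/-- the zeros, from the mean square, the condition on the conductors on average -/
theorem coreP (d A : ℝ) (hd : 1 ≤ d) (hA : 1 ≤ A) (γ β c' : ℝ) (h0 : 0 < γ) (hπ : γ < Real.pi)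
    (hβ : 0 < β) (hc' : 0 ≤ c') (hR0 : 0 ≤ Rw γ 0) (ε : ℝ) (hε : 0 < ε) :
    ∃ ε1 η θ L0 : ℝ, 0 < ε1 ∧ 0 < η ∧ 0 < θ ∧ θ < 1 ∧ 8 ≤ L0 ∧
    ∀ {ι : Type} (s : Finset ι) (ω : ι → ℝ) (lc : ι → ℝ → ℝ) (F : ι → ℂ → ℂ) (a : ι → ℕ → ℂ)
      (L T : ℝ), L0 ≤ L → L ^ 2 ≤ T → T ≤ Real.exp (L ^ 2 / 2) →
      (∀ i ∈ s, 0 ≤ ω i ∧ LogC (lc i) ∧ GoodH d A (lc i) (F i) (a i) ∧ 0 ≤ lc i T ∧
        lc i T ≤ (1 + 2 * η) * L) →
      θ * L * (∑ i ∈ s, ω i) ≤ ∑ i ∈ s, ω i * lc i T →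
      MSD s ω a γ β c' ε1 L T →
      ∑ i ∈ s, ω i * (2 * (H370.NN (F i) T (2 * T) : ℝ) - (H370.Ns (F i) T (2 * T) : ℝ)) ≤
        (d * Rw γ 0 / β + c' / d + ε) * ∑ i ∈ s, ω i * (H370.NN (F i) T (2 * T) : ℝ) ∧
      ∑ i ∈ s, ω i * (3 * (H370.NN (F i) T (2 * T) : ℝ) - 2 * (H370.Nd (F i) T (2 * T) : ℝ)) ≤
        (d * Rw γ 0 / β + c' / d + ε) * ∑ i ∈ s, ω i * (H370.NN (F i) T (2 * T) : ℝ) := by
  have hd0 : 0 < d := by linarith
  obtain ⟨κ, hκ⟩ : ∃ κ : ℝ, κ = d * Rw γ 0 / β + c' / d + ε / 2 := ⟨_, rfl⟩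
  have hκ0 : 0 < κ := by rw [hκ]; positivity
  obtain ⟨θ, hθd⟩ : ∃ θ : ℝ, θ = κ / (κ + ε / 2) := ⟨_, rfl⟩
  have hθ0 : 0 < θ := by rw [hθd]; positivity
  have hθ1 : θ < 1 := by
    rw [hθd, div_lt_one (by positivity)]
    linarith
  obtain ⟨ε1, η, L0, h1, h2, h3, h⟩ := coreP_aux d A hd hA θ hθ0 hθ1.le γ β c' h0 hπ hβ hc' hR0
    (ε / 2) (by positivity)
  refine ⟨ε1, η, θ, L0, h1, h2, hθ0, hθ1, h3, fun s ω lc F a L T g1 g2 g3 g4 g5 g6 => ?_⟩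
  have e : ∀ S : ℝ, (d * Rw γ 0 / β + c' / d + ε / 2) * (θ⁻¹ * S) =
      (d * Rw γ 0 / β + c' / d + ε) * S := by
    intro S
    rw [← hκ, ← mul_assoc]
    congr 1
    rw [hθd, inv_div, mul_div_cancel₀ _ hκ0.ne', hκ]
    ring
  obtain ⟨a1, a2⟩ := h s ω lc F a L T g1 g2 g3 g4 g5 g6
  rw [e] at a1 a2
  exact ⟨a1, a2⟩

end Pool.Agent.N784.AD
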