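import Mathlib

/-! # Cyclic fields of every degree (helper784) -/

set_option autoImplicit false

open NumberField Polynomial

namespace Pool.Agent.N784.AD

lemma galois_of {K : Type} [Field K] [CharZero K] (a : Algebra ℚ K) (h : @IsGalois ℚ _ K _ a) :
    @IsGalois ℚ _ K _ DivisionRing.toRatAlgebra := by
  have h1 : a = DivisionRing.toRatAlgebra := Subsingleton.elim _ _
  rw [← h1]
  exact h

lemma finrank_of {K : Type} [Field K] [CharZero K] (a : Algebra ℚ K) :
    @Module.finrank ℚ K _ _ a.toModule =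
      @Module.finrank ℚ K _ _ (DivisionRing.toRatAlgebra : Algebra ℚ K).toModule := by
  have h1 : a = DivisionRing.toRatAlgebra := Subsingleton.elim _ _
  rw [← h1]

lemma aux {p : ℕ} (hp : p.Prime) (L : Type) [Field L] [NumberField L] [Algebra ℚ L]
    (hce : IsCyclotomicExtension {p} ℚ L) (n : ℕ) (hn : 1 ≤ n) (hmod : p ≡ 1 [MOD n]) :
    ∃ (K : Type) (_ : Field K) (_ : NumberField K),
    IsGalois ℚ K ∧ Module.finrank ℚ K = n := by
  have : Fact p.Prime := ⟨hp⟩
  have : NeZero p := ⟨hp.ne_zero⟩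
  have hgal : IsGalois ℚ L := IsCyclotomicExtension.isGalois {p} ℚ _
  obtain ⟨e⟩ : Nonempty ((L ≃ₐ[ℚ] L) ≃* (ZMod p)ˣ) :=
    ⟨IsCyclotomicExtension.autEquivPow L (cyclotomic.irreducible_rat hp.pos)⟩
  have hcyc : IsCyclic (L ≃ₐ[ℚ] L) := isCyclic_of_surjective e.symm e.symm.surjective
  have hcard : Nat.card (L ≃ₐ[ℚ] L) = p - 1 := by
    rw [Nat.card_congr e.toEquiv, Nat.card_eq_fintype_card, ZMod.card_units]
  obtain ⟨g, hg⟩ := IsCyclic.exists_ofOrder_eq_natCard (α := L ≃ₐ[ℚ] L)
  have hd : n ∣ p - 1 := (Nat.modEq_iff_dvd' hp.one_lt.le).mp hmod.symm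
  obtain ⟨m, hm⟩ := hd
  have hm0 : 0 < m := by
    have := hp.two_le
    rcases Nat.eq_zero_or_pos m with h | h
    · rw [h, Nat.mul_zero] at hm; omega
    · exact h
  obtain ⟨H, hH⟩ : ∃ H : Subgroup (L ≃ₐ[ℚ] L), H = Subgroup.zpowers (g ^ n) := ⟨_, rfl⟩
  have hHc : Nat.card H = m := by
    rw [hH, Nat.card_zpowers, orderOf_pow, hg, hcard, hm, Nat.gcd_eq_right (dvd_mul_right n m),
      Nat.mul_div_cancel_left _ (by omega)]
  have hcomm : ∀ a b : L ≃ₐ[ℚ] L, a * b = b * a := by
    intro a b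
    apply e.injective
    rw [map_mul, map_mul, mul_comm]
  have hnorm : H.Normal := ⟨fun a ha b => by rw [hcomm b a, mul_inv_cancel_right]; exact ha⟩
  have h0 : Module.finrank ℚ L = n * m := by
    rw [← IsGalois.card_aut_eq_finrank, hcard, hm]
  have h1 := IntermediateField.finrank_fixedField_eq_card H
  have h2 := Module.finrank_mul_finrank ℚ (IntermediateField.fixedField H) L
  rw [h1, hHc, h0] at h2
  have h3 := Nat.eq_of_mul_eq_mul_right hm0 h2
  have hnf : NumberField (IntermediateField.fixedField H) := inferInstance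
  exact ⟨IntermediateField.fixedField H, (IntermediateField.fixedField H).toField, hnf,
    galois_of (IntermediateField.fixedField H).algebra' (IsGalois.of_fixedField_normal_subgroup H),
    (finrank_of (IntermediateField.fixedField H).algebra').symm.trans h3⟩

theorem exists_field (n : ℕ) (hn : 1 ≤ n) : ∃ (K : Type) (_ : Field K) (_ : NumberField K),
    IsGalois ℚ K ∧ Module.finrank ℚ K = n := by
  obtain ⟨p, hp, hnp, hmod⟩ := Nat.exists_prime_gt_modEq_one n (k := n) (by omega)
  have : NeZero p := ⟨hp.ne_zero⟩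
  have : NeZero ((p : ℕ) : ℚ) := ⟨by exact_mod_cast hp.ne_zero⟩
  have h1 := CyclotomicField.isCyclotomicExtension p ℚ
  letI := CyclotomicField.algebra p ℚ
  exact aux hp (CyclotomicField p ℚ) h1 n hn hmod

end Pool.Agent.N784.AD
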