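import Pool.Agent.N784.AD.Cl

/-! # The primitive characters of conductor dividing `𝔮` (helper784) -/

set_option autoImplicit false
set_option linter.unusedSectionVars false

open NumberField

namespace Pool.Agent.N784.AD

open Pool.Agent.Y773 (TPos VM cc)
open Pool.Agent.Y772.DK (NN NN_finite cc_mul)
open Pool.Agent.Y767 (Mq Mq_cop Mq_ne_bot Cls cls cK)
open Pool.Agent.Y773.IQ (Fam Fam_ne_zero tM tM_coe ne_zero_of_cop cop_mono IM mem_IM sum_IM mem_NN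
  sum_cc sq_cK sum_sq cop_of_norm cd cd_spec dv dv_finite absNorm_pos')
open Pool.Agent.Y773.G (IsPrimChar)

section

variable {K : Type} [Field K] [NumberField K]

lemma tM_mem {𝔮 : Ideal (𝓞 K)} (htop : 𝔮 ≠ ⊤)
    {ψ : Ideal (𝓞 K) →*₀ ℂ} (h : ψ ∈ Fam 𝔮) : tM 𝔮 ψ ∈ D1 htop := by
  intro x
  ext
  rw [tM_coe htop h, pi1_coe, Units.val_one]
  obtain ⟨𝔣, h1, h2, h3⟩ := h
  exact h3.ray x (ne_zero_of_cop htop (T1_cop x)) (Ideal.dvd_iff_le.mp h1 (T1_one x)) (T1_tp x)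

lemma tM_inj {𝔮 : Ideal (𝓞 K)} (hbot : 𝔮 ≠ ⊥) (htop : 𝔮 ≠ ⊤) :
    Set.InjOn (tM 𝔮) (Fam 𝔮) := by
  intro ψ h ψ' h' he
  have he' : ∀ 𝔞, IsCoprime 𝔞 𝔮 → ψ 𝔞 = ψ' 𝔞 := by
    intro 𝔞 h𝔞
    have h1 := tM_coe htop h ⟨𝔞, h𝔞⟩
    have h2 := tM_coe htop h' ⟨𝔞, h𝔞⟩
    rw [he] at h1
    exact h1.symm.trans h2
  obtain ⟨𝔣, h1, h2, h3⟩ := h
  obtain ⟨𝔣', h1', h2', h3'⟩ := h'
  exact (prim_unique hbot h3 h3' h1 h1' h2 h2' he').2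

lemma Fam_finite {𝔮 : Ideal (𝓞 K)} (hbot : 𝔮 ≠ ⊥) (htop : 𝔮 ≠ ⊤) :
    (Fam 𝔮).Finite ∧ (Fam 𝔮).ncard ≤ Nat.card (Cls (pi1 htop)) := by
  obtain ⟨h1, h2⟩ := D1_card hbot htop
  have hm : Set.MapsTo (tM 𝔮) (Fam 𝔮) (D1 htop) := fun ψ h => tM_mem htop h
  refine ⟨Set.Finite.of_injOn hm (tM_inj hbot htop) h1, ?_⟩
  rw [← h2]
  exact Set.ncard_le_ncard_of_injOn _ hm (tM_inj hbot htop) h1

lemma Fam_lower {𝔮 : Ideal (𝓞 K)} (hbot : 𝔮 ≠ ⊥) (htop : 𝔮 ≠ ⊤) :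
    Nat.card (Cls (pi1 htop)) ≤ (Fam 𝔮).ncard + hK K := by
  obtain ⟨h1, h2⟩ := D1_card hbot htop
  have hsub : D1 htop ⊆ tM 𝔮 '' Fam 𝔮 ∪ D0 𝔮 := by
    intro F hF
    rcases exists_prim hbot htop F hF with h | ⟨𝔣, ψ, h3, h4, h5, h6⟩
    · exact Or.inr h
    · left
      have hψ : ψ ∈ Fam 𝔮 := ⟨𝔣, h3, h4, h5⟩
      refine ⟨ψ, hψ, ?_⟩
      ext x
      rw [tM_coe htop hψ, h6]
  have hf := (Fam_finite hbot htop).1
  rw [← h2]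
  refine (Set.ncard_le_ncard hsub ((hf.image _).union (h1.subset (D0_sub htop)))).trans ?_
  refine (Set.ncard_union_le _ _).trans ?_
  exact Nat.add_le_add (Set.ncard_image_le hf) (D0_card hbot htop)

/-- the number of the primitive characters of conductor `𝔣` -/
lemma prim_card {𝔣 : Ideal (𝓞 K)} (hbot : 𝔣 ≠ ⊥) (htop : 𝔣 ≠ ⊤) :
    {ψ : Ideal (𝓞 K) →*₀ ℂ | IsPrimChar K 𝔣 ψ}.Finite ∧
    {ψ : Ideal (𝓞 K) →*₀ ℂ | IsPrimChar K 𝔣 ψ}.ncard ≤ Ideal.absNorm 𝔣 * hK K := by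
  obtain ⟨h1, h2⟩ := Fam_finite hbot htop
  have hsub : {ψ : Ideal (𝓞 K) →*₀ ℂ | IsPrimChar K 𝔣 ψ} ⊆ Fam 𝔣 := fun ψ h =>
    ⟨𝔣, dvd_refl _, htop, h⟩
  refine ⟨h1.subset hsub, (Set.ncard_le_ncard hsub h1).trans (h2.trans
    ((cls_card_le hbot htop).2.trans (Nat.mul_le_mul_right _
      (Pool.Agent.Y773.IQ.card_units_le_norm hbot))))⟩

/-- few characters have a small conductor -/
lemma small_cond {𝔮 : Ideal (𝓞 K)} (hbot : 𝔮 ≠ ⊥)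
    (Z : ℝ) (hZ : 0 ≤ Z) (S : Finset (Ideal (𝓞 K) →*₀ ℂ))
    (hS : ∀ ψ ∈ S, ψ ∈ Fam 𝔮 ∧ (Ideal.absNorm (cd 𝔮 ψ) : ℝ) ≤ Z) :
    (S.card : ℝ) ≤ (dv 𝔮).ncard * (Z * hK K) := by
  classical
  have h1 := Finset.card_eq_sum_card_image (cd 𝔮) S
  rw [h1]
  push_cast
  have h2 : ∀ 𝔡 ∈ S.image (cd 𝔮), ((S.filter (fun ψ => cd 𝔮 ψ = 𝔡)).card : ℝ) ≤
      Z * hK K := by
    intro 𝔡 h𝔡
    obtain ⟨ψ, hψ, rfl⟩ := Finset.mem_image.mp h𝔡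
    obtain ⟨h3, h4⟩ := hS ψ hψ
    obtain ⟨h5, h6, h7⟩ := cd_spec h3
    obtain ⟨h8, h9⟩ := prim_card h7.ne_bot h6
    have h10 : (S.filter (fun ψ' => cd 𝔮 ψ' = cd 𝔮 ψ)).card ≤
        Ideal.absNorm (cd 𝔮 ψ) * hK K := by
      refine le_trans ?_ h9
      rw [Set.ncard_eq_toFinset_card _ h8]
      refine Finset.card_le_card fun ψ' hψ' => ?_
      obtain ⟨h11, h12⟩ := Finset.mem_filter.mp hψ'
      rw [Set.Finite.mem_toFinset]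
      have := (cd_spec (hS ψ' h11).1).2.2
      rw [h12] at this
      exact this
    have h13 : ((S.filter (fun ψ' => cd 𝔮 ψ' = cd 𝔮 ψ)).card : ℝ) ≤
        (Ideal.absNorm (cd 𝔮 ψ) : ℝ) * hK K := by exact_mod_cast h10
    exact h13.trans (mul_le_mul_of_nonneg_right h4 (Nat.cast_nonneg _))
  refine (Finset.sum_le_sum h2).trans ?_
  rw [Finset.sum_const, nsmul_eq_mul]
  refine mul_le_mul_of_nonneg_right ?_ (by positivity)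
  have h3 : (S.image (cd 𝔮)).card ≤ (dv 𝔮).ncard := by
    rw [Set.ncard_eq_toFinset_card _ (dv_finite hbot)]
    refine Finset.card_le_card fun 𝔡 h𝔡 => ?_
    obtain ⟨ψ, hψ, rfl⟩ := Finset.mem_image.mp h𝔡
    rw [Set.Finite.mem_toFinset]
    exact (cd_spec (hS ψ hψ).1).1
  exact_mod_cast h3

/-! ## the sums over prime ideals of degree one -/

open Classical in
/-- the ideals of prime norm at most `M`, prime to `N(𝔮)` -/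
noncomputable def SP (𝔮 : Ideal (𝓞 K)) (M : ℕ) : Finset (Mq 𝔮) :=
  ((IM K M).filter (fun 𝔞 => (Ideal.absNorm 𝔞).Prime ∧
    Nat.Coprime (Ideal.absNorm 𝔞) (Ideal.absNorm 𝔮))).subtype (fun 𝔞 => 𝔞 ∈ Mq 𝔮)

lemma prime_of_SP {𝔮 : Ideal (𝓞 K)} {M : ℕ} {x : Mq 𝔮} (h : x ∈ SP 𝔮 M) :
    Prime (x : Ideal (𝓞 K)) ∧ (Ideal.absNorm (x : Ideal (𝓞 K))).Prime := by
  classical
  unfold SP at h
  rw [Finset.mem_subtype, Finset.mem_filter] at h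
  obtain ⟨h1, h2, -⟩ := h
  refine ⟨?_, h2⟩
  rw [Ideal.prime_iff_isPrime (mem_IM h1).1]
  exact Ideal.isPrime_of_irreducible_absNorm h2.prime.irreducible

open Classical in
/-- **the large sieve for the family**, sums over the prime ideals of degree one -/
theorem ls_fam {𝔮 : Ideal (𝓞 K)} (hbot : 𝔮 ≠ ⊥) (htop : 𝔮 ≠ ⊤) (Y : Finset (Ideal (𝓞 K) →*₀ ℂ))
    (hY : ∀ ψ ∈ Y, ψ ∈ Fam 𝔮) (M : ℕ) (b : ℕ → ℂ) :
    ∑ ψ ∈ Y, ‖∑ m ∈ Finset.Icc 1 M, b m * (if m.Prime ∧ Nat.Coprime m (Ideal.absNorm 𝔮) then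
      cc ψ m * (ArithmeticFunction.vonMangoldt m : ℂ) else 0)‖ ^ 2 ≤
      Nat.card (Cls (pi1 htop)) * (∑ m ∈ Finset.Icc 1 M,
          ‖b m‖ ^ 2 * (ArithmeticFunction.vonMangoldt m * ‖cK K m‖) ^ 2 +
        ∑ p ∈ prs htop (SP 𝔮 M),
          (‖b (Ideal.absNorm (p.1 : Ideal (𝓞 K)))‖ * Real.log (Ideal.absNorm (p.1 : Ideal (𝓞 K)))) *
          (‖b (Ideal.absNorm (p.2 : Ideal (𝓞 K)))‖ *
            Real.log (Ideal.absNorm (p.2 : Ideal (𝓞 K))))) := by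
  obtain ⟨b', hb'⟩ : ∃ b' : ℕ → ℂ, ∀ m, b' m =
    if m.Prime ∧ Nat.Coprime m (Ideal.absNorm 𝔮) then b m else 0 := ⟨_, fun _ => rfl⟩
  obtain ⟨a, ha⟩ : ∃ a : Mq 𝔮 → ℂ, ∀ x, a x =
    b' (Ideal.absNorm (x : Ideal (𝓞 K))) * (VM (x : Ideal (𝓞 K)) : ℂ) := ⟨_, fun _ => rfl⟩
  have h1 : ∀ ψ ∈ Y, ∑ m ∈ Finset.Icc 1 M, b m *
      (if m.Prime ∧ Nat.Coprime m (Ideal.absNorm 𝔮) then
      cc ψ m * (ArithmeticFunction.vonMangoldt m : ℂ) else 0) =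
      ∑ x ∈ SP 𝔮 M, a x * ((tM 𝔮 ψ x : ℂˣ) : ℂ) := by
    intro ψ hψ
    have h2 : ∑ x ∈ SP 𝔮 M, a x * ((tM 𝔮 ψ x : ℂˣ) : ℂ) = ∑ x ∈ SP 𝔮 M,
        (fun 𝔞 : Ideal (𝓞 K) => (b' (Ideal.absNorm 𝔞) * (VM 𝔞 : ℂ)) * ψ 𝔞) (x : Ideal (𝓞 K)) := by
      refine Finset.sum_congr rfl fun x _ => ?_
      rw [tM_coe htop (hY ψ hψ), ha]
    rw [h2]
    unfold SP
    refine Eq.trans ?_ (Finset.sum_subtype_eq_sum_filter
      (fun 𝔞 : Ideal (𝓞 K) => (b' (Ideal.absNorm 𝔞) * (VM 𝔞 : ℂ)) * ψ 𝔞)).symm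
    rw [Finset.filter_filter, Finset.sum_filter_of_ne, ← sum_cc]
    · refine Finset.sum_congr rfl fun m _ => ?_
      rw [hb']
      split_ifs <;> simp
    · intro 𝔞 _ hne
      have h3 : (Ideal.absNorm 𝔞).Prime ∧ Nat.Coprime (Ideal.absNorm 𝔞) (Ideal.absNorm 𝔮) := by
        by_contra hcon
        apply hne
        rw [hb', if_neg hcon]
        ring
      exact ⟨h3, cop_of_norm h3.2⟩
  rw [Finset.sum_congr rfl fun ψ hψ => by rw [h1 ψ hψ]]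
  have hinj : Set.InjOn (tM 𝔮) Y := fun ψ hψ ψ' hψ' h =>
    tM_inj hbot htop (hY ψ hψ) (hY ψ' hψ') h
  have h3 := ls hbot htop (Y.image (tM 𝔮)) (by
    intro F hF
    obtain ⟨ψ, hψ, rfl⟩ := Finset.mem_image.mp hF
    exact tM_mem htop (hY ψ hψ)) (SP 𝔮 M) a
  rw [Finset.sum_image hinj] at h3
  refine h3.trans (mul_le_mul_of_nonneg_left (add_le_add ?_ ?_) (Nat.cast_nonneg _))
  · calc ∑ x ∈ SP 𝔮 M, ‖a x‖ ^ 2
        = ∑ 𝔞 ∈ ((IM K M).filter (fun 𝔞 => (Ideal.absNorm 𝔞).Prime ∧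
            Nat.Coprime (Ideal.absNorm 𝔞) (Ideal.absNorm 𝔮))).filter (fun 𝔞 => 𝔞 ∈ Mq 𝔮),
            ‖b' (Ideal.absNorm 𝔞) * (VM 𝔞 : ℂ)‖ ^ 2 := by
          unfold SP
          rw [← Finset.sum_subtype_eq_sum_filter
            (fun 𝔞 : Ideal (𝓞 K) => ‖b' (Ideal.absNorm 𝔞) * (VM 𝔞 : ℂ)‖ ^ 2)]
          exact Finset.sum_congr rfl fun x _ => by rw [ha]
      _ ≤ ∑ 𝔞 ∈ IM K M, ‖b' (Ideal.absNorm 𝔞) * (VM 𝔞 : ℂ)‖ ^ 2 :=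
          Finset.sum_le_sum_of_subset_of_nonneg
            ((Finset.filter_subset _ _).trans (Finset.filter_subset _ _)) (fun _ _ _ => sq_nonneg _)
      _ ≤ ∑ m ∈ Finset.Icc 1 M, ‖b' m‖ ^ 2 *
            (ArithmeticFunction.vonMangoldt m * ‖cK K m‖) ^ 2 := sum_sq M b'
      _ ≤ _ := by
          refine Finset.sum_le_sum fun m _ => mul_le_mul_of_nonneg_right ?_ (sq_nonneg _)
          rw [hb']
          split_ifs
          · exact le_rfl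
          · rw [norm_zero]
            exact (by norm_num : (0 : ℝ) ^ 2 ≤ 0).trans (sq_nonneg _)
  · have h5 : ∀ x ∈ SP 𝔮 M, ‖a x‖ ≤ ‖b (Ideal.absNorm (x : Ideal (𝓞 K)))‖ *
        Real.log (Ideal.absNorm (x : Ideal (𝓞 K))) := by
      intro x _
      rw [ha, norm_mul, Complex.norm_real,
        Real.norm_of_nonneg (Pool.Agent.Y772.DK.VM_nonneg _)]
      refine mul_le_mul ?_ (Pool.Agent.Y772.DK.VM_le (Mq_ne_bot htop x))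
        (Pool.Agent.Y772.DK.VM_nonneg _) (norm_nonneg _)
      rw [hb']
      split_ifs
      · exact le_rfl
      · rw [norm_zero]; exact norm_nonneg _
    refine Finset.sum_le_sum fun p hp => ?_
    unfold prs at hp
    rw [Finset.mem_filter, Finset.mem_product] at hp
    exact mul_le_mul (h5 _ hp.1.1) (h5 _ hp.1.2) (norm_nonneg _)
      ((norm_nonneg _).trans (h5 _ hp.1.1))

end

end Pool.Agent.N784.AD
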