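import Pool.Agent.N784.AD.Zer

/-! # The zeros, final form (helper784) -/

set_option autoImplicit false
set_option linter.unusedSectionVars false
set_option linter.unusedVariables false

open NumberField Filter Topology MeasureTheory

namespace Pool.Agent.N784.AD

open Pool.Agent.Y773 (LI cc)
open Pool.Agent.Y767 (Cls cK)
open Pool.Agent.Y773.IQ (Fam cd cd_spec LL LL_eq absNorm_pos')
open Pool.Agent.N786 (kc p6_bound)
open H370 (zset NN Ns Nd)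
open H385 (Rw)
open Pool.Agent.W354 (LogC)
open Y767.WH (GoodH)
open ArithmeticFunction (vonMangoldt)

/-- the zeros of a family with the condition on the average of the conductors -/
theorem fam_zeros (γ h ε : ℝ) (h0 : 0 < γ) (hπ : γ < Real.pi) (hh : 0 < h) (hε : 0 < ε)
    {c : ℕ → ℂ} (hsel : W388.SelE c) (d A : ℝ) (hd : 1 ≤ d) (hA : 1 ≤ A) :
    ∃ D r θ κ0 : ℝ, 1 < D ∧ 0 < r ∧ r < 1 ∧ 0 < θ ∧ θ < 1 ∧ 0 < κ0 ∧ ∀ κ : ℝ, 0 < κ → κ ≤ κ0 →
    ∃ L0 : ℝ, 8 ≤ L0 ∧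
    ∀ {ι : Type} (s : Finset ι) (lc : ι → ℝ → ℝ) (F : ι → ℂ → ℂ) (a : ι → ℕ → ℂ) (q : ℕ)
      (L T A0 A1 : ℝ), s.Nonempty → L0 ≤ L → L ^ 2 ≤ T → T ≤ Real.exp (L ^ 2 / 2) →
      Real.exp (5 * κ * L) ≤ T → 1 ≤ q → Real.log q ≤ d * L →
      (∀ i ∈ s, LogC (lc i) ∧ GoodH d A (lc i) (F i) (a i) ∧ 0 ≤ lc i T ∧ lc i T ≤ L) →
      θ * L * s.card ≤ ∑ i ∈ s, lc i T →
      (∀ i ∈ s, ∀ n : ℕ, ‖a i n‖ ≤ d * vonMangoldt n) →
      (∀ i ∈ s, ∀ n : ℕ, ‖a i n‖ ^ 2 ≤ d * (vonMangoldt n * ‖c n‖) ^ 2) →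
      0 ≤ A0 → 0 ≤ A1 → LSG s a c q (D * s.card) A0 A1 → A0 ≤ Real.exp (κ * L / 2) →
      A1 * Real.exp (h * d * r * L) * (h * d * r * L + 1) ^ 2 ≤ 1 →
      (∀ i ∈ s, (zset (F i) T (2 * T)).Finite) ∧
      (1 - ε) * ((s.card : ℝ) * (T / (2 * Real.pi) * (d * L))) ≤
        ∑ i ∈ s, (NN (F i) T (2 * T) : ℝ) ∧
      (2 - kc γ h - ε) * ∑ i ∈ s, (NN (F i) T (2 * T) : ℝ) ≤
        ∑ i ∈ s, (Ns (F i) T (2 * T) : ℝ) ∧
      (3 - kc γ h - ε) * ∑ i ∈ s, (NN (F i) T (2 * T) : ℝ) ≤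
        2 * ∑ i ∈ s, (Nd (F i) T (2 * T) : ℝ) := by
  have hpi := Real.pi_pos
  obtain ⟨hR0, hI0, D, r, hD1, hr0, hr1, hconst⟩ := par_const γ h ε h0 hπ hh hε
  have hconst' := hconst d hd
  have hd0 : 0 < d := by linarith
  obtain ⟨β, hβd⟩ : ∃ β : ℝ, β = h * d * r := ⟨_, rfl⟩
  have hβ0 : 0 < β := by rw [hβd]; positivity
  rw [← hβd] at hconst'
  obtain ⟨I1, hI1⟩ : ∃ I1 : ℝ, I1 = ∫ α in (0 : ℝ)..1, α * Rw γ α := ⟨_, rfl⟩
  have hc' : 0 ≤ 2 * β * I1 * D := by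
    rw [← hI1] at hI0
    positivity
  obtain ⟨ε1, η, θ', L1, hε1, hη, hθ0, hθ1, hL1, hcore⟩ := coreP d A hd hA γ β (2 * β * I1 * D)
    h0 hπ hβ0 hc' hR0 (ε / 4) (by positivity)
  obtain ⟨κ0, hκ0, hms⟩ := msqP hsel d D hd hD1.le γ β h0 hπ hβ0 ε1 hε1
  obtain ⟨C2, hC2, hlow⟩ := Y767.WH.N_lower_E d A hd hA
  obtain ⟨θ, hθ⟩ : ∃ θ : ℝ, θ = max θ' (max (1 - ε / 2) (1 / 2)) := ⟨_, rfl⟩
  have hθ2 : θ < 1 := by
    rw [hθ]
    exact max_lt hθ1 (max_lt (by linarith) (by norm_num))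
  have hθ3 : 0 < θ := by
    rw [hθ]
    exact lt_max_of_lt_left hθ0
  refine ⟨D, r, θ, κ0, hD1, hr0, hr1, hθ3, hθ2, hκ0, fun κ hκ hκκ0 => ?_⟩
  obtain ⟨L2, hL2, hms2⟩ := hms κ hκ hκκ0
  refine ⟨max (max L1 L2) (20 * Real.pi * C2 / ε), le_max_of_le_left (le_max_of_le_left hL1), ?_⟩
  intro ι s lc F a q L T A0 A1 hsne hL hT hTe hTκ hq hlogq hfam hav ha ha2 hA0 hA1 hLS hA0e hA1e
  have hLL1 : L1 ≤ L := ((le_max_left _ _).trans (le_max_left _ _)).trans hL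
  have hLL2 : L2 ≤ L := ((le_max_right _ _).trans (le_max_left _ _)).trans hL
  have hLC : 20 * Real.pi * C2 / ε ≤ L := (le_max_right _ _).trans hL
  have hL8 : 8 ≤ L := hL1.trans hLL1
  have hL0 : 0 < L := by linarith
  have hTpos : 0 < T := lt_of_lt_of_le (by positivity) hT
  have hTL : 8 * L ≤ T := by
    refine le_trans ?_ hT
    rw [pow_two]
    exact mul_le_mul_of_nonneg_right hL8 hL0.le
  have hT1 : 1 ≤ T := by linarith
  have hcard : (0 : ℝ) < s.card := by exact_mod_cast hsne.card_pos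
  have hTe2 : T ≤ Real.exp (L ^ 2) := by
    refine hTe.trans (Real.exp_le_exp.mpr ?_)
    have : 0 ≤ L ^ 2 := sq_nonneg L
    linarith
  rw [← hβd] at hA1e
  have hMS := hms2 s a q L T A0 A1 hsne hLL2 hT hTe2 hTκ hq hlogq ha ha2 hA0 hA1 hLS hA0e hA1e
  rw [← hI1] at hMS
  have hηL : L ≤ (1 + 2 * η) * L := by
    have : 0 ≤ 2 * η * L := by positivity
    linarith
  have hav' : θ' * L * (∑ i ∈ s, (s.card : ℝ)⁻¹) ≤ ∑ i ∈ s, (s.card : ℝ)⁻¹ * lc i T := by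
    rw [Finset.sum_const, nsmul_eq_mul, mul_inv_cancel₀ hcard.ne', mul_one, ← Finset.mul_sum,
      inv_mul_eq_div, le_div_iff₀ hcard]
    refine le_trans ?_ hav
    have : θ' ≤ θ := by rw [hθ]; exact le_max_left _ _
    gcongr
  obtain ⟨k1, k2⟩ := hcore s (fun _ => (s.card : ℝ)⁻¹) lc F a L T hLL1 hT hTe
    (fun i hi => ⟨by positivity, (hfam i hi).1, (hfam i hi).2.1, (hfam i hi).2.2.1,
      (hfam i hi).2.2.2.trans hηL⟩) hav' hMS
  rw [← hI1] at hconst'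
  obtain ⟨cc, hcc⟩ : ∃ cc : ℝ, cc = d * Rw γ 0 / β + 2 * β * I1 * D / d + ε / 4 := ⟨_, rfl⟩
  rw [← hcc] at k1 k2 hconst'
  rw [← Finset.mul_sum, ← Finset.mul_sum] at k1 k2
  obtain ⟨kk, hkk⟩ : ∃ kk : ℝ, kk = kc γ h := ⟨_, rfl⟩
  rw [← hkk] at hconst' ⊢
  obtain ⟨S, hS⟩ : ∃ S : ℝ, S = ∑ i ∈ s, (NN (F i) T (2 * T) : ℝ) := ⟨_, rfl⟩
  have hS0 : 0 ≤ S := by rw [hS]; exact Finset.sum_nonneg fun _ _ => Nat.cast_nonneg _
  rw [← hS] at k1 k2 ⊢
  have hcS : cc * S ≤ (kk + ε) * S := mul_le_mul_of_nonneg_right hconst' hS0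
  have cancel : ∀ X : ℝ, (s.card : ℝ)⁻¹ * X ≤ cc * ((s.card : ℝ)⁻¹ * S) → X ≤ cc * S := by
    intro X hX
    have h1 := mul_le_mul_of_nonneg_left hX hcard.le
    rw [← mul_assoc, mul_inv_cancel₀ hcard.ne', one_mul] at h1
    refine h1.trans (le_of_eq ?_)
    field_simp
  have m1 := cancel _ k1
  have m2 := cancel _ k2
  rw [Finset.sum_sub_distrib, ← Finset.mul_sum, ← hS] at m1
  rw [Finset.sum_sub_distrib, ← Finset.mul_sum, ← Finset.mul_sum, ← hS] at m2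
  refine ⟨fun i hi => ?_, ?_, by linarith, by linarith⟩
  · obtain ⟨g1, g2, g3, g4⟩ := hfam i hi
    exact Y767.WH.zset_finite_E hA g1 g2 T (2 * T) hT1
  · -- the lower bound
    have p6 : 9 * L ^ 2 * Real.exp (-L ^ 2 / 2) ≤ 1 := p6_bound hL8
    have hone : ∀ i ∈ s, T / (2 * Real.pi) * (d * lc i T) - 5 * C2 * T ≤
        (NN (F i) T (2 * T) : ℝ) := by
      intro i hi
      obtain ⟨g1, g2, g3, g4⟩ := hfam i hi
      have hl := hlow (lc i) (F i) (a i) g1 g2 T L (by linarith) hTL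
      refine le_trans ?_ hl
      have g5 : lc i T ≤ 3 * L := by linarith
      have a2 : L * lc i T ≤ 3 * T := by
        calc L * lc i T ≤ L * (3 * L) := mul_le_mul_of_nonneg_left g5 hL0.le
          _ = 3 * L ^ 2 := by ring
          _ ≤ 3 * T := by linarith
      have a3 : T * lc i T ^ 2 * Real.exp (-L ^ 2 / 2) ≤ T := by
        have b1 : lc i T ^ 2 ≤ (3 * L) ^ 2 := pow_le_pow_left₀ g3 g5 2
        have b2 : lc i T ^ 2 * Real.exp (-L ^ 2 / 2) ≤ 1 := by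
          refine le_trans (mul_le_mul_of_nonneg_right b1 (Real.exp_pos _).le) ?_
          rw [show (3 * L) ^ 2 = 9 * L ^ 2 by ring]; exact p6
        calc _ = T * (lc i T ^ 2 * Real.exp (-L ^ 2 / 2)) := by ring
          _ ≤ T * 1 := mul_le_mul_of_nonneg_left b2 hTpos.le
          _ = T := mul_one T
      have a4 : C2 * (T + L * lc i T + T * lc i T ^ 2 * Real.exp (-L ^ 2 / 2)) ≤ C2 * (5 * T) :=
        mul_le_mul_of_nonneg_left (by linarith) hC2.le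
      linarith
    have h1 := Finset.sum_le_sum hone
    rw [← hS, Finset.sum_sub_distrib, Finset.sum_const, nsmul_eq_mul, ← Finset.mul_sum,
      ← Finset.mul_sum] at h1
    have a5 : 5 * C2 * T ≤ ε / 2 * (T / (2 * Real.pi) * L) := by
      rw [div_le_iff₀ hε] at hLC
      have h1 : 20 * Real.pi * C2 * (T / (4 * Real.pi)) ≤ L * ε * (T / (4 * Real.pi)) :=
        mul_le_mul_of_nonneg_right hLC (by positivity)
      have h2 : 20 * Real.pi * C2 * (T / (4 * Real.pi)) = 5 * C2 * T := by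
        field_simp; ring
      have h3 : L * ε * (T / (4 * Real.pi)) = ε / 2 * (T / (2 * Real.pi) * L) := by
        field_simp; ring
      linarith
    have a7 : T / (2 * Real.pi) * L ≤ T / (2 * Real.pi) * (d * L) := by
      have h1 : 1 * L ≤ d * L := mul_le_mul_of_nonneg_right hd hL0.le
      rw [one_mul] at h1
      exact mul_le_mul_of_nonneg_left h1 (by positivity)
    have a8 : 5 * C2 * T ≤ ε / 2 * (T / (2 * Real.pi) * (d * L)) :=
      a5.trans (mul_le_mul_of_nonneg_left a7 (by positivity))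
    have a9 : (1 - ε / 2) * (L * s.card) ≤ ∑ i ∈ s, lc i T := by
      refine le_trans ?_ hav
      have : 1 - ε / 2 ≤ θ := by
        rw [hθ]; exact (le_max_left _ _).trans (le_max_right _ _)
      calc (1 - ε / 2) * (L * s.card) ≤ θ * (L * s.card) :=
            mul_le_mul_of_nonneg_right this (by positivity)
        _ = θ * L * s.card := by ring
    have a10 : T / (2 * Real.pi) * (d * ((1 - ε / 2) * (L * s.card))) ≤
        T / (2 * Real.pi) * (d * ∑ i ∈ s, lc i T) := by gcongr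
    have a11 : (s.card : ℝ) * (5 * C2 * T) ≤
        (s.card : ℝ) * (ε / 2 * (T / (2 * Real.pi) * (d * L))) :=
      mul_le_mul_of_nonneg_left a8 hcard.le
    have e1 : T / (2 * Real.pi) * (d * ((1 - ε / 2) * (L * s.card))) =
        (1 - ε / 2) * ((s.card : ℝ) * (T / (2 * Real.pi) * (d * L))) := by ring
    rw [e1] at a10
    have e2 : (s.card : ℝ) * (ε / 2 * (T / (2 * Real.pi) * (d * L))) =
        ε / 2 * ((s.card : ℝ) * (T / (2 * Real.pi) * (d * L))) := by ring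
    rw [e2] at a11
    linarith

end Pool.Agent.N784.AD
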