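import Mathlib

/-! # Integers of a number field of bounded size: counting in an ideal, balanced generators
(helper784) -/

set_option autoImplicit false
set_option linter.unusedSectionVars false

open NumberField Module

namespace Pool.Agent.N784.AD

variable {K : Type} [Field K] [NumberField K]

/-- all the absolute values are at most `Y` -/
def Bd (x : 𝓞 K) (Y : ℝ) : Prop := ∀ w : InfinitePlace K, w (x : K) ≤ Y

lemma absNorm_eq_prod (x : 𝓞 K) : (Ideal.absNorm (Ideal.span {x}) : ℝ) =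
    ∏ w : InfinitePlace K, w (x : K) ^ w.mult := by
  rw [InfinitePlace.prod_eq_abs_norm, Ideal.absNorm_span_singleton, ← Algebra.coe_norm_int]
  push_cast
  rw [Nat.cast_natAbs]
  push_cast
  rfl

lemma norm_le_of_bd {x : 𝓞 K} {Y : ℝ} (hx : Bd x Y) :
    (Ideal.absNorm (Ideal.span {x}) : ℝ) ≤ Y ^ finrank ℚ K := by
  rw [absNorm_eq_prod, ← InfinitePlace.sum_mult_eq, ← Finset.prod_pow_eq_pow_sum]
  refine Finset.prod_le_prod (fun w _ => by positivity) fun w _ => ?_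
  exact pow_le_pow_left₀ (apply_nonneg w _) (hx w) _

lemma absNorm_le_of_mem {𝔞 : Ideal (𝓞 K)} {x : 𝓞 K} (hx : x ∈ 𝔞) (h0 : x ≠ 0) :
    Ideal.absNorm 𝔞 ≤ Ideal.absNorm (Ideal.span {x}) := by
  refine Nat.le_of_dvd ?_ (Ideal.absNorm_dvd_absNorm_of_le
    ((Ideal.span_singleton_le_iff_mem 𝔞).mpr hx))
  refine Nat.pos_of_ne_zero ?_
  rw [Ne, Ideal.absNorm_eq_zero_iff, Ideal.span_singleton_eq_bot]
  exact h0

lemma eq_zero_of_bd {𝔞 : Ideal (𝓞 K)} {x : 𝓞 K} {Y : ℝ} (hx : x ∈ 𝔞) (hY : Bd x Y)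
    (h : Y ^ finrank ℚ K < (Ideal.absNorm 𝔞 : ℝ)) : x = 0 := by
  by_contra h0
  have h1 := norm_le_of_bd hY
  have h2 : (Ideal.absNorm 𝔞 : ℝ) ≤ Ideal.absNorm (Ideal.span {x}) := by
    exact_mod_cast absNorm_le_of_mem hx h0
  linarith

lemma Bd.sub {x y : 𝓞 K} {Y Z : ℝ} (hx : Bd x Y) (hy : Bd y Z) : Bd (x - y) (Y + Z) := by
  intro w
  have h1 : ((x - y : 𝓞 K) : K) = (x : K) - (y : K) := map_sub (algebraMap (𝓞 K) K) x y
  rw [h1, sub_eq_add_neg]
  refine (w.1.add_le _ _).trans ?_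
  have h2 : w.1 (-(y : K)) = w (y : K) := by
    rw [AbsoluteValue.map_neg]
    rfl
  rw [h2]
  exact add_le_add (hx w) (hy w)

lemma Bd.mul {x y : 𝓞 K} {Y Z : ℝ} (hx : Bd x Y) (hy : Bd y Z) : Bd (x * y) (Y * Z) := by
  intro w
  have h1 : ((x * y : 𝓞 K) : K) = (x : K) * (y : K) := map_mul (algebraMap (𝓞 K) K) x y
  rw [h1, map_mul]
  exact mul_le_mul (hx w) (hy w) (apply_nonneg w _) ((apply_nonneg w _).trans (hx w))

lemma Bd.mono {x : 𝓞 K} {Y Z : ℝ} (hx : Bd x Y) (h : Y ≤ Z) : Bd x Z := fun w => (hx w).trans h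

variable (K)

/-- the coordinates are bounded by the size -/
lemma coord_le : ∃ C : ℝ, 1 ≤ C ∧ ∀ (x : 𝓞 K) (Y : ℝ), Bd x Y →
    ∀ i, |((RingOfIntegers.basis K).repr x i : ℝ)| ≤ C * Y := by
  classical
  obtain ⟨c, hc⟩ : ∃ c : ℝ, ∀ (α : 𝓞 K) (i : K →+* ℂ),
      ‖(((integralBasis K).reindex (equivReindex K).symm).repr α i : ℂ)‖ ≤
        c * house (algebraMap (𝓞 K) K α) :=
    ⟨_, fun α i => NumberField.house.basis_repr_norm_le_const_mul_house K α i⟩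
  refine ⟨max c 1, le_max_right _ _, fun x Y hx i => ?_⟩
  have hh : house (algebraMap (𝓞 K) K x) ≤ Y := by
    rw [house_eq_sup']
    have : ∀ φ : K →+* ℂ, ‖φ (algebraMap (𝓞 K) K x)‖ ≤ Y := fun φ => hx (InfinitePlace.mk φ)
    obtain ⟨φ, -, hφ⟩ := Finset.exists_mem_eq_sup' (s := (Finset.univ : Finset (K →+* ℂ)))
      Finset.univ_nonempty (fun φ : K →+* ℂ => ‖φ (algebraMap (𝓞 K) K x)‖₊)
    rw [hφ]
    exact this φ
  have h0 : 0 ≤ house (algebraMap (𝓞 K) K x) := house_nonneg _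
  have h1 := hc x (equivReindex K |>.symm i)
  rw [Basis.repr_reindex, Finsupp.mapDomain_equiv_apply, Equiv.symm_symm,
    Equiv.apply_symm_apply, integralBasis_repr_apply] at h1
  have h2 : ‖((((algebraMap ℤ ℚ) ((RingOfIntegers.basis K).repr x i) : ℚ)) : ℂ)‖ =
      |((RingOfIntegers.basis K).repr x i : ℝ)| := by
    simp
  rw [h2] at h1
  refine h1.trans ?_
  calc c * house (algebraMap (𝓞 K) K x) ≤ max c 1 * house (algebraMap (𝓞 K) K x) :=
        mul_le_mul_of_nonneg_right (le_max_left _ _) h0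
    _ ≤ max c 1 * Y := mul_le_mul_of_nonneg_left hh (by positivity)

/-- the size is bounded by the coordinates -/
lemma le_coord : ∃ C : ℝ, 1 ≤ C ∧ ∀ (x : 𝓞 K) (s : ℝ), 0 ≤ s →
    (∀ i, |((RingOfIntegers.basis K).repr x i : ℝ)| ≤ s) → Bd x (C * s) := by
  classical
  refine ⟨1 + ∑ w : InfinitePlace K, ∑ i, w ((RingOfIntegers.basis K i : 𝓞 K) : K), ?_, ?_⟩
  · have : 0 ≤ ∑ w : InfinitePlace K, ∑ i, w ((RingOfIntegers.basis K i : 𝓞 K) : K) :=
      Finset.sum_nonneg fun w _ => Finset.sum_nonneg fun i _ => apply_nonneg w _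
    linarith
  intro x s hs hx w
  have h1 : (x : K) = ∑ i, (((RingOfIntegers.basis K).repr x i : ℤ) : K) *
      ((RingOfIntegers.basis K i : 𝓞 K) : K) := by
    have h2 := (RingOfIntegers.basis K).sum_repr x
    have h3 := congrArg (fun z : 𝓞 K => (z : K)) h2
    simp only [map_sum, zsmul_eq_mul, map_mul, map_intCast] at h3
    exact h3.symm
  have h2 : w (x : K) ≤ ∑ i, s * w ((RingOfIntegers.basis K i : 𝓞 K) : K) := by
    conv_lhs => rw [h1]
    have h4 : ∀ (t : Finset (Free.ChooseBasisIndex ℤ (𝓞 K)))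
        (f : Free.ChooseBasisIndex ℤ (𝓞 K) → K), w (∑ i ∈ t, f i) ≤ ∑ i ∈ t, w (f i) := by
      intro t f
      induction t using Finset.induction_on with
      | empty => simp
      | insert a t ha ih =>
        rw [Finset.sum_insert ha, Finset.sum_insert ha]
        exact (w.1.add_le _ _).trans (add_le_add le_rfl ih)
    refine (h4 _ _).trans (Finset.sum_le_sum fun i _ => ?_)
    rw [map_mul]
    refine mul_le_mul_of_nonneg_right ?_ (apply_nonneg w _)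
    have h5 : w (((RingOfIntegers.basis K).repr x i : ℤ) : K) =
        |((RingOfIntegers.basis K).repr x i : ℝ)| := by
      rw [← InfinitePlace.norm_embedding_eq, map_intCast, Complex.norm_intCast]
    rw [h5]
    exact hx i
  refine h2.trans ?_
  rw [← Finset.mul_sum, mul_comm s]
  refine mul_le_mul_of_nonneg_right ?_ hs
  have h3 : ∑ i, w ((RingOfIntegers.basis K i : 𝓞 K) : K) ≤
      ∑ w : InfinitePlace K, ∑ i, w ((RingOfIntegers.basis K i : 𝓞 K) : K) :=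
    Finset.single_le_sum (f := fun w : InfinitePlace K =>
      ∑ i, w ((RingOfIntegers.basis K i : 𝓞 K) : K))
      (fun w _ => Finset.sum_nonneg fun i _ => apply_nonneg w _) (Finset.mem_univ w)
  linarith

lemma one_add_pow_le (t : ℝ) (ht : 0 ≤ t) (d : ℕ) : (1 + t) ^ d ≤ 2 ^ d * (1 + t ^ d) := by
  rcases le_total t 1 with h | h
  · calc (1 + t) ^ d ≤ 2 ^ d := pow_le_pow_left₀ (by linarith) (by linarith) _
      _ = 2 ^ d * 1 := (mul_one _).symm
      _ ≤ _ := mul_le_mul_of_nonneg_left (by linarith [pow_nonneg ht d]) (by positivity)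
  · calc (1 + t) ^ d ≤ (2 * t) ^ d := pow_le_pow_left₀ (by linarith) (by linarith) _
      _ = 2 ^ d * t ^ d := mul_pow _ _ _
      _ ≤ _ := mul_le_mul_of_nonneg_left (by linarith) (by positivity)

/-- **the number of the elements of an ideal in a box** -/
theorem box_count : ∃ C : ℝ, 1 ≤ C ∧ ∀ (𝔞 : Ideal (𝓞 K)), 𝔞 ≠ ⊥ → ∀ (Y : ℝ), 0 ≤ Y →
    ∀ F : Finset (𝓞 K), (∀ x ∈ F, x ∈ 𝔞 ∧ Bd x Y) →
      (F.card : ℝ) ≤ C * (1 + Y ^ finrank ℚ K / (Ideal.absNorm 𝔞 : ℝ)) := by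
  classical
  obtain ⟨Ch, hCh, h1⟩ := coord_le K
  obtain ⟨Cb, hCb, h2⟩ := le_coord K
  obtain ⟨d, hd⟩ : ∃ d : ℕ, d = finrank ℚ K := ⟨_, rfl⟩
  have hd0 : 0 < d := by rw [hd]; exact finrank_pos
  have hdr : (0 : ℝ) < d := by exact_mod_cast hd0
  have hcard : Fintype.card (Free.ChooseBasisIndex ℤ (𝓞 K)) = d := by
    rw [hd, ← RingOfIntegers.rank K, finrank_eq_card_chooseBasisIndex]
  obtain ⟨A, hA⟩ : ∃ A : ℝ, A = 4 * Ch * Cb + 3 := ⟨_, rfl⟩
  have hA1 : 1 ≤ A := by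
    have : 0 ≤ 4 * Ch * Cb := by positivity
    rw [hA]; linarith
  refine ⟨A ^ d * 2 ^ d, ?_, ?_⟩
  · exact one_le_mul_of_one_le_of_one_le (one_le_pow₀ hA1) (one_le_pow₀ (by norm_num))
  intro 𝔞 h𝔞 Y hY F hF
  have hN : (1 : ℝ) ≤ (Ideal.absNorm 𝔞 : ℝ) := by
    have : Ideal.absNorm 𝔞 ≠ 0 := by rwa [Ne, Ideal.absNorm_eq_zero_iff]
    exact_mod_cast Nat.one_le_iff_ne_zero.mpr this
  rw [← hd]
  obtain ⟨ρ, hρ⟩ : ∃ ρ : ℝ, ρ = (Ideal.absNorm 𝔞 : ℝ) ^ (1 / (d : ℝ)) := ⟨_, rfl⟩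
  have hρ1 : 1 ≤ ρ := by rw [hρ]; exact Real.one_le_rpow hN (by positivity)
  have hρd : ρ ^ d = (Ideal.absNorm 𝔞 : ℝ) := by
    rw [hρ, ← Real.rpow_natCast, ← Real.rpow_mul (by linarith), one_div_mul_cancel hdr.ne',
      Real.rpow_one]
  obtain ⟨s, hs⟩ : ∃ s : ℝ, s = ρ / (2 * Cb) := ⟨_, rfl⟩
  have hs0 : 0 < s := by rw [hs]; positivity
  have hCs : Cb * s = ρ / 2 := by rw [hs]; field_simp
  obtain ⟨m, hm⟩ : ∃ m : ℕ, m = ⌈Ch * Y / s⌉₊ := ⟨_, rfl⟩
  have hmle : (m : ℝ) ≤ Ch * Y / s + 1 := by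
    rw [hm]; exact (Nat.ceil_lt_add_one (by positivity)).le
  have hmge : Ch * Y / s ≤ m := by rw [hm]; exact Nat.le_ceil _
  obtain ⟨f, hf⟩ : ∃ f : 𝓞 K → (Free.ChooseBasisIndex ℤ (𝓞 K) → ℤ), ∀ x i,
      f x i = ⌊((RingOfIntegers.basis K).repr x i : ℝ) / s⌋ := ⟨fun x i => _, fun _ _ => rfl⟩
  have hinj : Set.InjOn f F := by
    intro x hx y hy hxy
    have h3 : ∀ i, |((RingOfIntegers.basis K).repr (x - y) i : ℝ)| ≤ s := by
      intro i
      have h4 := congrFun hxy i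
      rw [hf, hf] at h4
      have h5 := Int.abs_sub_lt_one_of_floor_eq_floor h4
      rw [← sub_div, abs_div, abs_of_pos hs0, div_lt_one hs0] at h5
      rw [map_sub, Finsupp.sub_apply]
      push_cast
      exact h5.le
    have h4 := h2 (x - y) s hs0.le h3
    rw [hCs] at h4
    have h5 : x - y = 0 := by
      refine eq_zero_of_bd (𝔞 := 𝔞) (sub_mem (hF x hx).1 (hF y hy).1) h4 ?_
      rw [← hd, div_pow, hρd]
      refine div_lt_self (by linarith) ?_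
      exact one_lt_pow₀ (by norm_num) hd0.ne'
    exact sub_eq_zero.mp h5
  have himg : F.image f ⊆ Fintype.piFinset (fun _ => Finset.Icc (-(m : ℤ)) (m : ℤ)) := by
    intro g hg
    obtain ⟨x, hx, rfl⟩ := Finset.mem_image.mp hg
    rw [Fintype.mem_piFinset]
    intro i
    have h3 := abs_le.mp (h1 x Y (hF x hx).2 i)
    have h4 : ((RingOfIntegers.basis K).repr x i : ℝ) / s ≤ m :=
      (div_le_div_of_nonneg_right h3.2 hs0.le).trans hmge
    have h5 : -(m : ℝ) ≤ ((RingOfIntegers.basis K).repr x i : ℝ) / s := by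
      have := div_le_div_of_nonneg_right h3.1 hs0.le
      rw [neg_div] at this
      linarith
    rw [hf, Finset.mem_Icc]
    constructor
    · rw [Int.le_floor]
      push_cast
      exact h5
    · have h6 : (⌊((RingOfIntegers.basis K).repr x i : ℝ) / s⌋ : ℝ) ≤ (m : ℝ) :=
        (Int.floor_le _).trans h4
      exact_mod_cast h6
  have hc : (F.card : ℝ) ≤ (2 * m + 1) ^ d := by
    have h3 := Finset.card_le_card himg
    rw [Finset.card_image_of_injOn hinj, Fintype.card_piFinset, Finset.prod_const,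
      Finset.card_univ, hcard, Int.card_Icc] at h3
    have h4 : ((m : ℤ) + 1 - -(m : ℤ)).toNat = 2 * m + 1 := by omega
    rw [h4] at h3
    exact_mod_cast h3
  refine hc.trans ?_
  have ht : 0 ≤ Y / ρ := by positivity
  have h3 : (2 * m + 1 : ℝ) ≤ A * (1 + Y / ρ) := by
    have h4 : Ch * Y / s = 2 * Ch * Cb * (Y / ρ) := by
      rw [hs]; field_simp
    have h5 : (0 : ℝ) ≤ 4 * Ch * Cb := by positivity
    calc (2 * m + 1 : ℝ) ≤ 2 * (Ch * Y / s + 1) + 1 := by linarith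
      _ = 4 * Ch * Cb * (Y / ρ) + 3 := by rw [h4]; ring
      _ ≤ A * (1 + Y / ρ) := by rw [hA]; nlinarith
  calc ((2 * m + 1 : ℝ)) ^ d ≤ (A * (1 + Y / ρ)) ^ d :=
        pow_le_pow_left₀ (by positivity) h3 _
    _ = A ^ d * (1 + Y / ρ) ^ d := mul_pow _ _ _
    _ ≤ A ^ d * (2 ^ d * (1 + (Y / ρ) ^ d)) :=
        mul_le_mul_of_nonneg_left (one_add_pow_le _ ht d) (by positivity)
    _ = _ := by rw [div_pow, hρd]; ring

/-- **balanced generators** -/
theorem balanced : ∃ C : ℝ, 1 ≤ C ∧ ∀ x : 𝓞 K, x ≠ 0 → ∃ u : (𝓞 K)ˣ,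
    Bd ((u : 𝓞 K) * x) (C * (Ideal.absNorm (Ideal.span {x}) : ℝ) ^ (1 / (finrank ℚ K : ℝ))) := by
  classical
  obtain ⟨B, hB⟩ := isBounded_iff_forall_norm_le.mp
    (mixedEmbedding.fundamentalCone.isBounded_normLeOne K)
  have hd0 : 0 < finrank ℚ K := finrank_pos
  have hdr : (0 : ℝ) < finrank ℚ K := by exact_mod_cast hd0
  refine ⟨max B 1, le_max_right _ _, fun x hx => ?_⟩
  have hxK : (x : K) ≠ 0 := by
    rw [Ne, RingOfIntegers.coe_eq_zero_iff]; exact hx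
  have hn : mixedEmbedding.norm (mixedEmbedding K (x : K)) ≠ 0 := by
    rw [mixedEmbedding.norm_eq_norm]
    simpa using hxK
  obtain ⟨u, hu⟩ := mixedEmbedding.fundamentalCone.exists_unit_smul_mem hn
  refine ⟨u, fun w => ?_⟩
  obtain ⟨N, hN⟩ : ∃ N : ℝ, N = (Ideal.absNorm (Ideal.span {x}) : ℝ) := ⟨_, rfl⟩
  have hNx : mixedEmbedding.norm (mixedEmbedding K (x : K)) = N := by
    rw [hN, absNorm_eq_prod, mixedEmbedding.norm_eq_norm, InfinitePlace.prod_eq_abs_norm]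
  have hN0 : 0 < N := by
    rw [← hNx]
    exact lt_of_le_of_ne (mixedEmbedding.norm_nonneg _) (Ne.symm hn)
  rw [← hN]
  obtain ⟨ρ, hρ⟩ : ∃ ρ : ℝ, ρ = N ^ (1 / (finrank ℚ K : ℝ)) := ⟨_, rfl⟩
  have hρ0 : 0 < ρ := by rw [hρ]; exact Real.rpow_pos_of_pos hN0 _
  have hρd : ρ ^ finrank ℚ K = N := by
    rw [hρ, ← Real.rpow_natCast, ← Real.rpow_mul hN0.le, one_div_mul_cancel hdr.ne',
      Real.rpow_one]
  rw [← hρ]
  have h1 : ρ⁻¹ • (u • mixedEmbedding K (x : K)) ∈ mixedEmbedding.fundamentalCone.normLeOne K := by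
    rw [mixedEmbedding.fundamentalCone.mem_normLeOne]
    refine ⟨mixedEmbedding.fundamentalCone.smul_mem_of_mem hu (inv_ne_zero hρ0.ne'), ?_⟩
    rw [mixedEmbedding.norm_smul, mixedEmbedding.norm_unit_smul, hNx, abs_of_pos (inv_pos.mpr hρ0),
      inv_pow, hρd, inv_mul_cancel₀ hN0.ne']
  have h2 := hB _ h1
  rw [mixedEmbedding.norm_eq_sup'_normAtPlace] at h2
  have h3 := (Finset.le_sup' (s := Finset.univ) (f := fun w : InfinitePlace K =>
    mixedEmbedding.normAtPlace w (ρ⁻¹ • (u • mixedEmbedding K (x : K)))) (Finset.mem_univ w)).trans h2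
  have h4 : mixedEmbedding.normAtPlace w (ρ⁻¹ • (u • mixedEmbedding K (x : K))) =
      ρ⁻¹ * w (((u : 𝓞 K) * x : 𝓞 K) : K) := by
    rw [mixedEmbedding.normAtPlace_smul, abs_of_pos (inv_pos.mpr hρ0), mixedEmbedding.unitSMul_smul,
      ← map_mul, mixedEmbedding.normAtPlace_apply]
    rfl
  rw [h4, inv_mul_le_iff₀ hρ0] at h3
  refine h3.trans ?_
  rw [mul_comm]
  exact mul_le_mul_of_nonneg_right (le_max_left _ _) hρ0.le

end Pool.Agent.N784.AD
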