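import Mathlib

/-! # Sums over pairs with a Gaussian weight (helper784) -/

set_option autoImplicit false

open Finset

namespace Pool.Agent.N784.AD

lemma geo_sum (u : ℝ) (hu : 0 ≤ u) (J : ℕ) :
    ∑ j ∈ range J, Real.exp (-|u - j * Real.log 2|) ≤ 4 := by
  have hl : 0 < Real.log 2 := Real.log_pos (by norm_num)
  obtain ⟨m, hm⟩ : ∃ m : ℕ, m = ⌊u / Real.log 2⌋₊ := ⟨_, rfl⟩
  have hm1 : (m : ℝ) * Real.log 2 ≤ u := by
    rw [← le_div_iff₀ hl, hm]; exact Nat.floor_le (by positivity)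
  have hm2 : u < (m + 1 : ℝ) * Real.log 2 := by
    rw [← div_lt_iff₀ hl, hm]; exact Nat.lt_floor_add_one _
  have e2 : ∀ j : ℕ, Real.exp (j * Real.log 2) = 2 ^ j := by
    intro j
    rw [mul_comm, Real.exp_mul, Real.exp_log (by norm_num), Real.rpow_natCast]
  have h1 : ∀ j ∈ range J, Real.exp (-|u - j * Real.log 2|) ≤
      (if j < m + 1 then Real.exp (-u) * 2 ^ j else 0) +
      (if m + 1 ≤ j then Real.exp u * (1 / 2) ^ j else 0) := by
    intro j _
    by_cases hj : j < m + 1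
    · rw [if_pos hj, if_neg (not_le.mpr hj), add_zero, ← e2, ← Real.exp_add]
      refine Real.exp_le_exp.mpr ?_
      have := neg_le_of_abs_le (le_refl |u - j * Real.log 2|)
      have h2 := le_abs_self (u - j * Real.log 2)
      linarith
    · rw [if_neg hj, if_pos (not_lt.mp hj), zero_add]
      have h3 : ((1 : ℝ) / 2) ^ j = Real.exp (-(j * Real.log 2)) := by
        rw [Real.exp_neg, e2, one_div, inv_pow]
      rw [h3, ← Real.exp_add]
      refine Real.exp_le_exp.mpr ?_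
      have h2 := neg_abs_le (u - j * Real.log 2)
      linarith
  refine (sum_le_sum h1).trans ?_
  rw [sum_add_distrib]
  have h2 : ∑ j ∈ range J, (if j < m + 1 then Real.exp (-u) * 2 ^ j else 0) ≤ 2 := by
    rw [← sum_filter]
    have h3 : (range J).filter (fun j => j < m + 1) ⊆ range (m + 1) := by
      intro j hj
      exact mem_range.mpr (mem_filter.mp hj).2
    refine (sum_le_sum_of_subset_of_nonneg h3 fun _ _ _ => by positivity).trans ?_
    rw [← mul_sum, geom_sum_eq (by norm_num)]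
    have h4 : (2 : ℝ) ^ m ≤ Real.exp u := by rw [← e2]; exact Real.exp_le_exp.mpr hm1
    have h5 : ((2 : ℝ) ^ (m + 1) - 1) / (2 - 1) ≤ 2 * Real.exp u := by
      rw [pow_succ]; linarith
    calc Real.exp (-u) * (((2 : ℝ) ^ (m + 1) - 1) / (2 - 1)) ≤ Real.exp (-u) * (2 * Real.exp u) :=
          mul_le_mul_of_nonneg_left h5 (Real.exp_pos _).le
      _ = 2 * (Real.exp (-u) * Real.exp u) := by ring
      _ = 2 := by rw [← Real.exp_add]; simp
  have h3 : ∑ j ∈ range J, (if m + 1 ≤ j then Real.exp u * (1 / 2) ^ j else 0) ≤ 2 := by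
    rw [← sum_filter]
    have h3 : (range J).filter (fun j => m + 1 ≤ j) ⊆
        (range J).image (fun j => m + 1 + j) := by
      intro j hj
      obtain ⟨q1, q2⟩ := mem_filter.mp hj
      rw [mem_image]
      exact ⟨j - (m + 1), mem_range.mpr (by have := mem_range.mp q1; omega), by omega⟩
    refine (sum_le_sum_of_subset_of_nonneg h3 fun _ _ _ => by positivity).trans ?_
    rw [sum_image (fun a _ b _ h => by simpa using h)]
    have h4 : ∀ j : ℕ, Real.exp u * (1 / 2) ^ (m + 1 + j) =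
        (Real.exp u * (1 / 2) ^ (m + 1)) * (1 / 2) ^ j := fun j => by rw [pow_add]; ring
    simp only [h4]
    rw [← mul_sum]
    have h5 : ∑ j ∈ range J, ((1 : ℝ) / 2) ^ j ≤ 2 := by
      rw [geom_sum_eq (by norm_num)]
      have : (0 : ℝ) ≤ (1 / 2) ^ J := by positivity
      have e : (((1 : ℝ) / 2) ^ J - 1) / (1 / 2 - 1) = 2 * (1 - (1 / 2) ^ J) := by ring
      rw [e]; linarith
    have h6 : Real.exp u * (1 / 2) ^ (m + 1) ≤ 1 := by
      have h7 : Real.exp u ≤ 2 ^ (m + 1) := by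
        rw [← e2]
        refine Real.exp_le_exp.mpr ?_
        push_cast
        exact hm2.le
      calc Real.exp u * (1 / 2) ^ (m + 1) ≤ 2 ^ (m + 1) * (1 / 2) ^ (m + 1) :=
            mul_le_mul_of_nonneg_right h7 (by positivity)
        _ = 1 := by rw [← mul_pow]; norm_num
    calc Real.exp u * (1 / 2) ^ (m + 1) * ∑ j ∈ range J, ((1 : ℝ) / 2) ^ j ≤ 1 * 2 :=
          mul_le_mul h6 h5 (Finset.sum_nonneg fun _ _ => by positivity) zero_le_one
      _ = 2 := by norm_num
  linarith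

/-- the weight -/
noncomputable def gw (u : ℝ) (n : ℕ) : ℝ :=
  Real.log n / Real.sqrt n * Real.exp (-(u - Real.log n) ^ 2 / 4)

lemma gw_nonneg (u : ℝ) (n : ℕ) : 0 ≤ gw u n :=
  mul_nonneg (div_nonneg (Real.log_natCast_nonneg n) (Real.sqrt_nonneg _)) (Real.exp_pos _).le

/-- the constant -/
noncomputable def Cg : ℝ := Real.exp (25 / 4) * Real.exp (3 / 2 * Real.log 2)

lemma gw_le {u : ℝ} (hu : 0 ≤ u) {n j : ℕ} (h1 : 2 ^ j ≤ n) (h2 : n < 2 ^ (j + 1)) :
    gw u n ≤ Cg * (u + 1) * (Real.exp (-(j * Real.log 2) / 2) *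
      Real.exp (-(3 / 2) * |u - j * Real.log 2|)) := by
  have hl : 0 < Real.log 2 := Real.log_pos (by norm_num)
  have e2 : Real.exp (j * Real.log 2) = 2 ^ j := by
    rw [mul_comm, Real.exp_mul, Real.exp_log (by norm_num), Real.rpow_natCast]
  have hn : 1 ≤ n := le_trans Nat.one_le_two_pow h1
  have hn0 : (0 : ℝ) < n := by exact_mod_cast hn
  obtain ⟨x, hx⟩ : ∃ x : ℝ, x = Real.log n := ⟨_, rfl⟩
  have hx1 : j * Real.log 2 ≤ x := by
    rw [hx, Real.le_log_iff_exp_le hn0, e2]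
    exact_mod_cast h1
  have hx2 : x ≤ j * Real.log 2 + Real.log 2 := by
    rw [hx]
    have h3 : Real.log n ≤ Real.log ((2 : ℝ) ^ (j + 1)) :=
      Real.log_le_log hn0 (by exact_mod_cast h2.le)
    rw [Real.log_pow] at h3
    push_cast at h3
    linarith
  have hx0 : 0 ≤ x := le_trans (by positivity) hx1
  obtain ⟨z, hz⟩ : ∃ z : ℝ, z = |u - x| := ⟨_, rfl⟩
  have hz0 : 0 ≤ z := by rw [hz]; exact abs_nonneg _
  have hxz : x ≤ (u + 1) * Real.exp z := by
    have h3 : x ≤ u + z := by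
      have := neg_abs_le (u - x)
      rw [← hz] at this
      linarith
    have h4 : z + 1 ≤ Real.exp z := Real.add_one_le_exp z
    have h5 : 1 ≤ Real.exp z := Real.one_le_exp hz0
    nlinarith
  have hsq : -(u - x) ^ 2 / 4 = -z ^ 2 / 4 := by rw [hz, sq_abs]
  have hzj : |u - j * Real.log 2| - Real.log 2 ≤ z := by
    have h3 : |u - j * Real.log 2| ≤ |u - x| + |x - j * Real.log 2| := by
      have := abs_add_le (u - x) (x - j * Real.log 2)
      simpa using this
    rw [abs_of_nonneg (by linarith : 0 ≤ x - j * Real.log 2)] at h3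
    rw [hz]
    linarith
  have hsqrt : (Real.sqrt n)⁻¹ ≤ Real.exp (-(j * Real.log 2) / 2) := by
    have h3 : Real.exp (j * Real.log 2 / 2) ≤ Real.sqrt n := by
      apply Real.le_sqrt_of_sq_le
      rw [← Real.exp_nat_mul]
      have : ((2 : ℕ) : ℝ) * (j * Real.log 2 / 2) = j * Real.log 2 := by push_cast; ring
      rw [this, e2]
      exact_mod_cast h1
    have h4 : Real.exp (-(j * Real.log 2) / 2) = (Real.exp (j * Real.log 2 / 2))⁻¹ := by
      rw [← Real.exp_neg]; congr 1; ring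
    rw [h4]
    exact inv_anti₀ (Real.exp_pos _) h3
  unfold gw
  rw [← hx, hsq]
  have h6 : x * Real.exp (-z ^ 2 / 4) ≤ Cg * (u + 1) * Real.exp (-(3 / 2) * |u - j * Real.log 2|) := by
    calc x * Real.exp (-z ^ 2 / 4) ≤ ((u + 1) * Real.exp z) * Real.exp (-z ^ 2 / 4) :=
          mul_le_mul_of_nonneg_right hxz (Real.exp_pos _).le
      _ = (u + 1) * Real.exp (z + -z ^ 2 / 4) := by rw [mul_assoc, ← Real.exp_add]
      _ ≤ (u + 1) * Real.exp (25 / 4 + (3 / 2 * Real.log 2 +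
            (-(3 / 2) * |u - j * Real.log 2|))) := by
          refine mul_le_mul_of_nonneg_left (Real.exp_le_exp.mpr ?_) (by linarith)
          nlinarith [sq_nonneg (z - 5)]
      _ = _ := by
          unfold Cg
          rw [Real.exp_add, Real.exp_add]
          ring
  calc x / Real.sqrt n * Real.exp (-z ^ 2 / 4) = (Real.sqrt n)⁻¹ * (x * Real.exp (-z ^ 2 / 4)) := by
        rw [div_eq_mul_inv]; ring
    _ ≤ Real.exp (-(j * Real.log 2) / 2) *
        (Cg * (u + 1) * Real.exp (-(3 / 2) * |u - j * Real.log 2|)) :=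
        mul_le_mul hsqrt h6 (mul_nonneg hx0 (Real.exp_pos _).le) (Real.exp_pos _).le
    _ = _ := by ring

open Classical in
/-- **the sum over the pairs** -/
theorem pairs_sum {α : Type} (P : Finset α) (f g : α → ℕ) (hf : ∀ p ∈ P, 1 ≤ f p)
    (hg : ∀ p ∈ P, 1 ≤ g p) (A0 A1 : ℝ) (hA0 : 0 ≤ A0) (hA1 : 0 ≤ A1)
    (hc : ∀ X Y : ℝ, 0 < X → 0 < Y → ((P.filter (fun p => (X ≤ (f p : ℝ) ∧ (f p : ℝ) ≤ 2 * X) ∧
      (Y ≤ (g p : ℝ) ∧ (g p : ℝ) ≤ 2 * Y))).card : ℝ) ≤ A0 + A1 * (X * Y)) (u : ℝ) (hu : 0 ≤ u) :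
    ∑ p ∈ P, gw u (f p) * gw u (g p) ≤
      16 * Cg ^ 2 * (u + 1) ^ 2 * (A0 * Real.exp (-u) + A1 * Real.exp u) := by
  obtain ⟨J, hJ⟩ : ∃ J : ℕ, J = P.sup (fun p => max (Nat.log 2 (f p)) (Nat.log 2 (g p))) + 1 :=
    ⟨_, rfl⟩
  obtain ⟨c, hcd⟩ : ∃ c : ℕ → ℝ, ∀ j, c j = Cg * (u + 1) * (Real.exp (-(j * Real.log 2) / 2) *
      Real.exp (-(3 / 2) * |u - j * Real.log 2|)) := ⟨_, fun _ => rfl⟩
  have hCg : 0 < Cg := by unfold Cg; positivity
  have hc0 : ∀ j, 0 ≤ c j := fun j => by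
    rw [hcd]; positivity
  have e2 : ∀ j : ℕ, Real.exp (j * Real.log 2) = 2 ^ j := by
    intro j
    rw [mul_comm, Real.exp_mul, Real.exp_log (by norm_num), Real.rpow_natCast]
  have hmap : ∀ p ∈ P, (Nat.log 2 (f p), Nat.log 2 (g p)) ∈ (range J) ×ˢ (range J) := by
    intro p hp
    have h1 := Finset.le_sup (f := fun p => max (Nat.log 2 (f p)) (Nat.log 2 (g p))) hp
    have h2 := (le_max_left (Nat.log 2 (f p)) (Nat.log 2 (g p))).trans h1
    have h3 := (le_max_right (Nat.log 2 (f p)) (Nat.log 2 (g p))).trans h1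
    rw [mem_product, mem_range, mem_range, hJ]
    constructor
    · change Nat.log 2 (f p) < _
      omega
    · change Nat.log 2 (g p) < _
      omega
  rw [← sum_fiberwise_of_maps_to hmap]
  have h1 : ∀ y ∈ (range J) ×ˢ (range J),
      ∑ p ∈ P.filter (fun p => (Nat.log 2 (f p), Nat.log 2 (g p)) = y), gw u (f p) * gw u (g p) ≤
      (A0 + A1 * (2 ^ y.1 * 2 ^ y.2)) * (c y.1 * c y.2) := by
    rintro ⟨j, k⟩ _
    have h2 : ∀ p ∈ P.filter (fun p => (Nat.log 2 (f p), Nat.log 2 (g p)) = (j, k)),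
        gw u (f p) * gw u (g p) ≤ c j * c k := by
      intro p hp
      obtain ⟨h3, h4⟩ := mem_filter.mp hp
      have h5 : Nat.log 2 (f p) = j := congrArg Prod.fst h4
      have h6 : Nat.log 2 (g p) = k := congrArg Prod.snd h4
      have a1 : 2 ^ j ≤ f p := by
        rw [← h5]; exact Nat.pow_log_le_self 2 (by have := hf p h3; omega)
      have a2 : f p < 2 ^ (j + 1) := by rw [← h5]; exact Nat.lt_pow_succ_log_self (by norm_num) _
      have a3 : 2 ^ k ≤ g p := by
        rw [← h6]; exact Nat.pow_log_le_self 2 (by have := hg p h3; omega)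
      have a4 : g p < 2 ^ (k + 1) := by rw [← h6]; exact Nat.lt_pow_succ_log_self (by norm_num) _
      rw [hcd, hcd]
      exact mul_le_mul (gw_le hu a1 a2) (gw_le hu a3 a4) (gw_nonneg _ _)
        (by rw [← hcd]; exact hc0 j)
    refine (sum_le_sum h2).trans ?_
    rw [sum_const, nsmul_eq_mul]
    refine mul_le_mul_of_nonneg_right ?_ (mul_nonneg (hc0 j) (hc0 k))
    refine le_trans ?_ (hc (2 ^ j) (2 ^ k) (by positivity) (by positivity))
    have h3 : P.filter (fun p => (Nat.log 2 (f p), Nat.log 2 (g p)) = (j, k)) ⊆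
        P.filter (fun p => ((2 : ℝ) ^ j ≤ (f p : ℝ) ∧ (f p : ℝ) ≤ 2 * 2 ^ j) ∧
          ((2 : ℝ) ^ k ≤ (g p : ℝ) ∧ (g p : ℝ) ≤ 2 * 2 ^ k)) := by
      intro p hp
      obtain ⟨h3, h4⟩ := mem_filter.mp hp
      have h5 : Nat.log 2 (f p) = j := congrArg Prod.fst h4
      have h6 : Nat.log 2 (g p) = k := congrArg Prod.snd h4
      have a1 : 2 ^ j ≤ f p := by
        rw [← h5]; exact Nat.pow_log_le_self 2 (by have := hf p h3; omega)
      have a2 : f p < 2 ^ (j + 1) := by rw [← h5]; exact Nat.lt_pow_succ_log_self (by norm_num) _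
      have a3 : 2 ^ k ≤ g p := by
        rw [← h6]; exact Nat.pow_log_le_self 2 (by have := hg p h3; omega)
      have a4 : g p < 2 ^ (k + 1) := by rw [← h6]; exact Nat.lt_pow_succ_log_self (by norm_num) _
      rw [mem_filter]
      refine ⟨h3, ⟨by exact_mod_cast a1, ?_⟩, ⟨by exact_mod_cast a3, ?_⟩⟩
      · have : f p ≤ 2 * 2 ^ j := by rw [pow_succ] at a2; omega
        exact_mod_cast this
      · have : g p ≤ 2 * 2 ^ k := by rw [pow_succ] at a4; omega
        exact_mod_cast this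
    exact_mod_cast card_le_card h3
  refine (sum_le_sum h1).trans ?_
  have h2 : ∑ y ∈ (range J) ×ˢ (range J), (A0 + A1 * (2 ^ y.1 * 2 ^ y.2)) * (c y.1 * c y.2) =
      A0 * (∑ j ∈ range J, c j) ^ 2 + A1 * (∑ j ∈ range J, 2 ^ j * c j) ^ 2 := by
    rw [sq, sq, sum_mul_sum, sum_mul_sum, ← sum_product', ← sum_product', mul_sum, mul_sum,
      ← sum_add_distrib]
    refine sum_congr rfl fun y _ => ?_
    ring
  rw [h2]
  have h3 : ∑ j ∈ range J, c j ≤ 4 * Cg * (u + 1) * Real.exp (-u / 2) := by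
    have h4 : ∀ j ∈ range J, c j ≤ Cg * (u + 1) * Real.exp (-u / 2) *
        Real.exp (-|u - j * Real.log 2|) := by
      intro j _
      rw [hcd, mul_assoc (Cg * (u + 1))]
      refine mul_le_mul_of_nonneg_left ?_ (by positivity)
      rw [← Real.exp_add, ← Real.exp_add]
      refine Real.exp_le_exp.mpr ?_
      have := le_abs_self (u - j * Real.log 2)
      linarith
    refine (sum_le_sum h4).trans ?_
    rw [← mul_sum]
    calc _ ≤ Cg * (u + 1) * Real.exp (-u / 2) * 4 :=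
          mul_le_mul_of_nonneg_left (geo_sum u hu J) (by positivity)
      _ = _ := by ring
  have h4 : ∑ j ∈ range J, 2 ^ j * c j ≤ 4 * Cg * (u + 1) * Real.exp (u / 2) := by
    have h4 : ∀ j ∈ range J, 2 ^ j * c j ≤ Cg * (u + 1) * Real.exp (u / 2) *
        Real.exp (-|u - j * Real.log 2|) := by
      intro j _
      rw [hcd, ← e2]
      have e3 : Real.exp (j * Real.log 2) * (Cg * (u + 1) * (Real.exp (-(j * Real.log 2) / 2) *
          Real.exp (-(3 / 2) * |u - j * Real.log 2|))) = Cg * (u + 1) *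
          (Real.exp (j * Real.log 2) * Real.exp (-(j * Real.log 2) / 2) *
          Real.exp (-(3 / 2) * |u - j * Real.log 2|)) := by ring
      rw [e3, mul_assoc (Cg * (u + 1))]
      refine mul_le_mul_of_nonneg_left ?_ (by positivity)
      rw [← Real.exp_add, ← Real.exp_add, ← Real.exp_add]
      refine Real.exp_le_exp.mpr ?_
      have := neg_abs_le (u - j * Real.log 2)
      linarith
    refine (sum_le_sum h4).trans ?_
    rw [← mul_sum]
    calc _ ≤ Cg * (u + 1) * Real.exp (u / 2) * 4 :=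
          mul_le_mul_of_nonneg_left (geo_sum u hu J) (by positivity)
      _ = _ := by ring
  have h5 : 0 ≤ ∑ j ∈ range J, c j := sum_nonneg fun j _ => hc0 j
  have h6 : 0 ≤ ∑ j ∈ range J, 2 ^ j * c j :=
    sum_nonneg fun j _ => mul_nonneg (by positivity) (hc0 j)
  have h7 := pow_le_pow_left₀ h5 h3 2
  have h8 := pow_le_pow_left₀ h6 h4 2
  have e4 : (4 * Cg * (u + 1) * Real.exp (-u / 2)) ^ 2 =
      16 * Cg ^ 2 * (u + 1) ^ 2 * Real.exp (-u) := by
    have : Real.exp (-u) = Real.exp (-u / 2) ^ 2 := by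
      rw [← Real.exp_nat_mul]; congr 1; push_cast; ring
    rw [this]; ring
  have e5 : (4 * Cg * (u + 1) * Real.exp (u / 2)) ^ 2 =
      16 * Cg ^ 2 * (u + 1) ^ 2 * Real.exp u := by
    have : Real.exp u = Real.exp (u / 2) ^ 2 := by
      rw [← Real.exp_nat_mul]; congr 1; push_cast; ring
    rw [this]; ring
  rw [e4] at h7
  rw [e5] at h8
  calc A0 * (∑ j ∈ range J, c j) ^ 2 + A1 * (∑ j ∈ range J, 2 ^ j * c j) ^ 2 ≤
      A0 * (16 * Cg ^ 2 * (u + 1) ^ 2 * Real.exp (-u)) +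
      A1 * (16 * Cg ^ 2 * (u + 1) ^ 2 * Real.exp u) :=
        add_le_add (mul_le_mul_of_nonneg_left h7 hA0) (mul_le_mul_of_nonneg_left h8 hA1)
    _ = _ := by ring

end Pool.Agent.N784.AD
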