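import Pool.Agent.N784.AD.Fam
import Pool.Agent.N784.AD.Geo2
import Pool.Agent.N784.AD.Sum

/-! # The large sieve for the family with Gaussian weights (helper784) -/

set_option autoImplicit false
set_option linter.unusedSectionVars false

open NumberField

namespace Pool.Agent.N784.AD

open Pool.Agent.Y773 (TPos VM cc)
open Pool.Agent.Y767 (Mq Mq_cop Mq_ne_bot Cls cls cK)
open Pool.Agent.Y773.IQ (Fam absNorm_pos')

section

variable (K : Type) [Field K] [NumberField K]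

open Classical in
/-- **the large sieve for the family**, Gaussian weights -/
theorem ls_gw : ∃ C : ℝ, 1 ≤ C ∧ ∀ (𝔮 : Ideal (𝓞 K)) (_ : 𝔮 ≠ ⊥) (htop : 𝔮 ≠ ⊤)
    (Y : Finset (Ideal (𝓞 K) →*₀ ℂ)), (∀ ψ ∈ Y, ψ ∈ Fam 𝔮) → ∀ (M : ℕ) (b : ℕ → ℂ) (ω u : ℝ),
    0 ≤ ω → 0 ≤ u → (∀ n : ℕ, n.Prime → ‖b n‖ * Real.log n ≤ ω * gw u n) →
    ∑ ψ ∈ Y, ‖∑ m ∈ Finset.Icc 1 M, b m * (if m.Prime ∧ Nat.Coprime m (Ideal.absNorm 𝔮) then
      cc ψ m * (ArithmeticFunction.vonMangoldt m : ℂ) else 0)‖ ^ 2 ≤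
      Nat.card (Cls (pi1 htop)) * (∑ m ∈ Finset.Icc 1 M,
          ‖b m‖ ^ 2 * (ArithmeticFunction.vonMangoldt m * ‖cK K m‖) ^ 2 +
        ω ^ 2 * ((u + 1) ^ 2 * (C * Un 𝔮 * Real.exp (-u) +
          C * Un 𝔮 / (Ideal.absNorm 𝔮 : ℝ) * Real.exp u))) := by
  obtain ⟨C, hC, hpc⟩ := pair_count K
  obtain ⟨C', hC'⟩ : ∃ C' : ℝ, C' = 16 * Cg ^ 2 * C + 1 := ⟨_, rfl⟩
  have hCC : 0 ≤ 16 * Cg ^ 2 * C := by positivity
  refine ⟨C', by rw [hC']; linarith, ?_⟩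
  intro 𝔮 hbot htop Y hY M b ω u hω hu hb
  refine (ls_fam hbot htop Y hY M b).trans ?_
  refine mul_le_mul_of_nonneg_left (add_le_add le_rfl ?_) (Nat.cast_nonneg _)
  have hN : (1 : ℝ) ≤ (Ideal.absNorm 𝔮 : ℝ) := by exact_mod_cast absNorm_pos' hbot
  have hmem : ∀ p ∈ prs htop (SP 𝔮 M), p.1 ∈ SP 𝔮 M ∧ p.2 ∈ SP 𝔮 M := by
    intro p hp
    unfold prs at hp
    rw [Finset.mem_filter, Finset.mem_product] at hp
    exact hp.1
  have h1 : ∀ p ∈ prs htop (SP 𝔮 M),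
      (‖b (Ideal.absNorm (p.1 : Ideal (𝓞 K)))‖ * Real.log (Ideal.absNorm (p.1 : Ideal (𝓞 K)))) *
          (‖b (Ideal.absNorm (p.2 : Ideal (𝓞 K)))‖ *
            Real.log (Ideal.absNorm (p.2 : Ideal (𝓞 K)))) ≤
      ω ^ 2 * (gw u (Ideal.absNorm (p.1 : Ideal (𝓞 K))) *
        gw u (Ideal.absNorm (p.2 : Ideal (𝓞 K)))) := by
    intro p hp
    obtain ⟨h2, h3⟩ := hmem p hp
    have h4 := hb _ (prime_of_SP h2).2
    have h5 := hb _ (prime_of_SP h3).2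
    have h6 : 0 ≤ ‖b (Ideal.absNorm (p.2 : Ideal (𝓞 K)))‖ *
        Real.log (Ideal.absNorm (p.2 : Ideal (𝓞 K))) :=
      mul_nonneg (norm_nonneg _) (Real.log_natCast_nonneg _)
    refine (mul_le_mul h4 h5 h6 (mul_nonneg hω (gw_nonneg _ _))).trans (le_of_eq (by ring))
  refine (Finset.sum_le_sum h1).trans ?_
  rw [← Finset.mul_sum]
  refine mul_le_mul_of_nonneg_left ?_ (sq_nonneg _)
  have h2 := pairs_sum (prs htop (SP 𝔮 M))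
    (fun p => Ideal.absNorm (p.1 : Ideal (𝓞 K))) (fun p => Ideal.absNorm (p.2 : Ideal (𝓞 K)))
    (fun p hp => (prime_of_SP (hmem p hp).1).2.one_lt.le)
    (fun p hp => (prime_of_SP (hmem p hp).2).2.one_lt.le)
    (C * Un 𝔮) (C * Un 𝔮 / (Ideal.absNorm 𝔮 : ℝ)) (by positivity) (by positivity) (by
      intro X Y hX hY
      have h3 := hpc 𝔮 hbot htop (SP 𝔮 M) X Y hX hY (fun x hx => (prime_of_SP hx).1)
      refine h3.trans (le_of_eq ?_)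
      ring) u hu
  refine h2.trans ?_
  have h3 : (u + 1) ^ 2 * (C' * Un 𝔮 * Real.exp (-u) +
          C' * Un 𝔮 / (Ideal.absNorm 𝔮 : ℝ) * Real.exp u) =
      C' * ((u + 1) ^ 2 * (Un 𝔮 * Real.exp (-u) + Un 𝔮 / (Ideal.absNorm 𝔮 : ℝ) * Real.exp u)) := by
    ring
  have h4 : 16 * Cg ^ 2 * (u + 1) ^ 2 * (C * Un 𝔮 * Real.exp (-u) +
      C * Un 𝔮 / (Ideal.absNorm 𝔮 : ℝ) * Real.exp u) =
      (16 * Cg ^ 2 * C) * ((u + 1) ^ 2 * (Un 𝔮 * Real.exp (-u) +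
        Un 𝔮 / (Ideal.absNorm 𝔮 : ℝ) * Real.exp u)) := by ring
  rw [h3, h4]
  refine mul_le_mul_of_nonneg_right (by rw [hC']; linarith) (by positivity)

end

end Pool.Agent.N784.AD
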