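import Pool.Agent.N784.AD.Fin

/-! # The main theorem for a number field (helper784) -/

set_option autoImplicit false
set_option linter.unusedSectionVars false
set_option linter.unusedVariables false

open NumberField Filter Topology MeasureTheory

namespace Pool.Agent.N784.AD

open Pool.Agent.Y773 (LI cc)
open Pool.Agent.Y767 (Cls cK)
open Pool.Agent.Y773.IQ (Fam cd cd_spec LL LL_eq absNorm_pos' exists_ge)
open Pool.Agent.N786 (kc p6_bound)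
open H370 (zset NN Ns Nd)
open H385 (Rw)
open Pool.Agent.W354 (LogC)
open Y767.WH (GoodH)
open ArithmeticFunction (vonMangoldt)

section

variable (K : Type) [Field K] [NumberField K]

theorem fam_large {ε : ℝ} (hε : 0 < ε) : ∃ δ N0 : ℝ, 0 < δ ∧ 1 ≤ N0 ∧
    ∀ 𝔮 : Ideal (𝓞 K), 𝔮 ≠ ⊥ → 𝔮 ≠ ⊤ → (Un 𝔮 : ℝ) ≤ (Ideal.absNorm 𝔮 : ℝ) ^ δ →
      N0 ≤ (Ideal.absNorm 𝔮 : ℝ) →
      (Ideal.absNorm 𝔮 : ℝ) ^ (1 - ε) ≤ ((Fam 𝔮).ncard : ℝ) := by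
  obtain ⟨e, he⟩ : ∃ e : ℝ, e = min (ε / 4) (1 / 4) := ⟨_, rfl⟩
  have he0 : 0 < e := by rw [he]; exact lt_min (by positivity) (by norm_num)
  have he1 : e ≤ ε / 4 := by rw [he]; exact min_le_left _ _
  have he2 : e ≤ 1 / 4 := by rw [he]; exact min_le_right _ _
  obtain ⟨c, N0, hc, hN0, h⟩ := fam_big' K he0 (by linarith)
  obtain ⟨N1, hN1, h1⟩ := exists_ge (2 * e) (1 / c) (by positivity)
  refine ⟨e, max N0 N1, he0, le_max_of_le_left hN0, fun 𝔮 hbot htop hU hN => ?_⟩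
  have k1 := h 𝔮 hbot htop hU ((le_max_left _ _).trans hN)
  have k2 := h1 _ ((le_max_right _ _).trans hN)
  have hNge := one_le_norm K hbot
  have hN0' : (0 : ℝ) < Ideal.absNorm 𝔮 := by linarith
  refine le_trans ?_ k1
  have e1 : (Ideal.absNorm 𝔮 : ℝ) ^ (1 - ε) ≤ (Ideal.absNorm 𝔮 : ℝ) ^ (1 - 4 * e) :=
    Real.rpow_le_rpow_of_exponent_le hNge (by linarith)
  have e2 : (Ideal.absNorm 𝔮 : ℝ) ^ (1 - 4 * e) * (Ideal.absNorm 𝔮 : ℝ) ^ (2 * e) =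
      (Ideal.absNorm 𝔮 : ℝ) ^ (1 - 2 * e) := by
    rw [← Real.rpow_add hN0']
    congr 1; ring
  rw [← e2]
  rw [div_le_iff₀ hc] at k2
  have e3 : 0 < (Ideal.absNorm 𝔮 : ℝ) ^ (1 - 4 * e) := Real.rpow_pos_of_pos hN0' _
  calc (Ideal.absNorm 𝔮 : ℝ) ^ (1 - ε) ≤ (Ideal.absNorm 𝔮 : ℝ) ^ (1 - 4 * e) := e1
    _ = (Ideal.absNorm 𝔮 : ℝ) ^ (1 - 4 * e) * 1 := (mul_one _).symm
    _ ≤ (Ideal.absNorm 𝔮 : ℝ) ^ (1 - 4 * e) * ((Ideal.absNorm 𝔮 : ℝ) ^ (2 * e) * c) :=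
        mul_le_mul_of_nonneg_left k2 e3.le
    _ = _ := by ring

theorem main (γ h ε η1 : ℝ) (h0 : 0 < γ) (hπ : γ < Real.pi) (hh : 0 < h) (hε : 0 < ε)
    (hη1 : 0 < η1) :
    ∃ δ X₀ : ℝ, 0 < δ ∧ δ < 1 ∧ 1 ≤ X₀ ∧
    ∀ 𝔮 : Ideal (𝓞 K), 𝔮 ≠ ⊥ → X₀ ≤ (Ideal.absNorm 𝔮 : ℝ) →
      (Un 𝔮 : ℝ) ≤ (Ideal.absNorm 𝔮 : ℝ) ^ δ →
      𝔮 ≠ ⊤ ∧ (Fam 𝔮).Finite ∧ (Ideal.absNorm 𝔮 : ℝ) ^ (1 - ε) ≤ ((Fam 𝔮).ncard : ℝ) ∧
      ∀ T : ℝ, (Ideal.absNorm 𝔮 : ℝ) ^ η1 ≤ T →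
        ((Ideal.absNorm 𝔮 : ℝ) * T ^ Module.finrank ℚ K) ^ h ≤ (Ideal.absNorm 𝔮 : ℝ) →
        ∀ S : Finset (Ideal (𝓞 K) →*₀ ℂ), (∀ ψ ∈ S, ψ ∈ Fam 𝔮) →
          (1 - δ) * ((Fam 𝔮).ncard : ℝ) ≤ (S.card : ℝ) →
          1 ≤ T ∧ (∀ ψ ∈ S, (zset (LL K ψ) T (2 * T)).Finite) ∧
          (1 - ε) * ((S.card : ℝ) * (T / (2 * Real.pi) *
            Real.log ((Ideal.absNorm 𝔮 : ℝ) * T ^ Module.finrank ℚ K))) ≤
            ∑ ψ ∈ S, (NN (LL K ψ) T (2 * T) : ℝ) ∧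
          (2 - kc γ h - ε) * ∑ ψ ∈ S, (NN (LL K ψ) T (2 * T) : ℝ) ≤
            ∑ ψ ∈ S, (Ns (LL K ψ) T (2 * T) : ℝ) ∧
          (3 - kc γ h - ε) * ∑ ψ ∈ S, (NN (LL K ψ) T (2 * T) : ℝ) ≤
            2 * ∑ ψ ∈ S, (Nd (LL K ψ) T (2 * T) : ℝ) := by
  obtain ⟨A, hA, hgood⟩ := Pool.Agent.Y773.IQ.good K
  obtain ⟨d, hd⟩ : ∃ d : ℝ, d = (Module.finrank ℚ K : ℝ) := ⟨_, rfl⟩
  have hd1 : 1 ≤ d := by
    have := Module.finrank_pos (R := ℚ) (M := K)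
    rw [hd]; exact_mod_cast this
  have hd0 : 0 < d := by linarith
  obtain ⟨D, r, θ, κ0, hD1, hr0, hr1, hθ0, hθ1, hκ0, hz⟩ := fam_zeros γ h ε h0 hπ hh hε
    (Pool.Agent.Y772.HC.t_mer K) d A hd1 hA
  obtain ⟨κ, hκd⟩ : ∃ κ : ℝ, κ = min κ0 (η1 * h * d / 5) := ⟨_, rfl⟩
  have hκ : 0 < κ := by rw [hκd]; exact lt_min hκ0 (by positivity)
  have hκ1 : κ ≤ κ0 := by rw [hκd]; exact min_le_left _ _
  have hκ2 : 5 * κ ≤ η1 * h * d := by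
    have : κ ≤ η1 * h * d / 5 := by rw [hκd]; exact min_le_right _ _
    linarith
  obtain ⟨L0, hL0, hzer⟩ := hz κ hκ hκ1
  clear hz
  obtain ⟨C, hC, hls⟩ := ls_gw K
  obtain ⟨D0, hD0⟩ : ∃ D0 : ℝ, D0 = (1 + D) / 2 := ⟨_, rfl⟩
  have hD01 : 1 < D0 := by rw [hD0]; linarith
  have hD0D : D0 < D := by rw [hD0]; linarith
  obtain ⟨Nr, hNr, hratio⟩ := fam_ratio K hD01
  obtain ⟨δ2, hδ2⟩ : ∃ δ2 : ℝ, δ2 = (1 - θ) / 2 := ⟨_, rfl⟩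
  have hδ20 : 0 < δ2 := by rw [hδ2]; linarith
  obtain ⟨δ3, Nc, hδ3, hNc, hcond⟩ := fam_cond K hδ20
  obtain ⟨δ4, Nl, hδ4, hNl, hlarge⟩ := fam_large K hε
  obtain ⟨x1, hx1, hx1'⟩ := exp_dom ((1 - r) / 2) C (by linarith)
  obtain ⟨x2, hx2, hx2'⟩ := exp_dom (η1 * h * d) 1 (by positivity)
  obtain ⟨x3, hx3, hx3'⟩ := exp_dom (κ / 4) C (by positivity)
  obtain ⟨δ, hδ⟩ : ∃ δ : ℝ, δ = min (min (min δ3 δ4) (min (κ / (4 * d)) ((1 - r) / 2)))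
    (min (1 / 4) (1 - D0 / D)) := ⟨_, rfl⟩
  have hδ0 : 0 < δ := by
    rw [hδ]
    refine lt_min (lt_min (lt_min hδ3 hδ4) (lt_min (by positivity) (by linarith)))
      (lt_min (by norm_num) ?_)
    have : D0 / D < 1 := by rw [div_lt_one (by linarith)]; exact hD0D
    linarith
  have hδa : δ ≤ δ3 := by
    rw [hδ]; exact ((min_le_left _ _).trans (min_le_left _ _)).trans (min_le_left _ _)
  have hδb : δ ≤ δ4 := by
    rw [hδ]; exact ((min_le_left _ _).trans (min_le_left _ _)).trans (min_le_right _ _)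
  have hδc : δ ≤ κ / (4 * d) := by
    rw [hδ]; exact ((min_le_left _ _).trans (min_le_right _ _)).trans (min_le_left _ _)
  have hδd : δ ≤ (1 - r) / 2 := by
    rw [hδ]; exact ((min_le_left _ _).trans (min_le_right _ _)).trans (min_le_right _ _)
  have hδe : δ ≤ 1 / 4 := by
    rw [hδ]; exact (min_le_right _ _).trans (min_le_left _ _)
  have hδf : δ ≤ 1 - D0 / D := by
    rw [hδ]; exact (min_le_right _ _).trans (min_le_right _ _)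
  obtain ⟨ℓ, hℓ⟩ : ∃ ℓ : ℝ, ℓ = d * (max (max L0 x2) x3) := ⟨_, rfl⟩
  refine ⟨δ, max (max (max Nr Nc) (max Nl 2)) (Real.exp (max ℓ x1)), hδ0, by linarith, ?_, ?_⟩
  · exact ((hNr.trans (le_max_left _ _)).trans (le_max_left _ _)).trans (le_max_left _ _)
  intro 𝔮 hbot hN hU
  have hN1 : Nr ≤ (Ideal.absNorm 𝔮 : ℝ) :=
    (((le_max_left _ _).trans (le_max_left _ _)).trans (le_max_left _ _)).trans hN
  have hN2 : Nc ≤ (Ideal.absNorm 𝔮 : ℝ) :=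
    (((le_max_right _ _).trans (le_max_left _ _)).trans (le_max_left _ _)).trans hN
  have hN3 : Nl ≤ (Ideal.absNorm 𝔮 : ℝ) :=
    (((le_max_left _ _).trans (le_max_right _ _)).trans (le_max_left _ _)).trans hN
  have hN4 : 2 ≤ (Ideal.absNorm 𝔮 : ℝ) :=
    (((le_max_right _ _).trans (le_max_right _ _)).trans (le_max_left _ _)).trans hN
  have hN5 : Real.exp (max ℓ x1) ≤ (Ideal.absNorm 𝔮 : ℝ) := (le_max_right _ _).trans hN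
  clear hN
  have hNpos : (0 : ℝ) < (Ideal.absNorm 𝔮 : ℝ) := by linarith
  have hNge : (1 : ℝ) ≤ (Ideal.absNorm 𝔮 : ℝ) := by linarith
  have htop : 𝔮 ≠ ⊤ := by
    intro h
    rw [h, Ideal.absNorm_top] at hN4
    norm_num at hN4
  have hΛ1 : ℓ ≤ Real.log (Ideal.absNorm 𝔮) := by
    rw [Real.le_log_iff_exp_le hNpos]
    exact (Real.exp_le_exp.mpr (le_max_left _ _)).trans hN5
  have hΛ2 : x1 ≤ Real.log (Ideal.absNorm 𝔮) := by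
    rw [Real.le_log_iff_exp_le hNpos]
    exact (Real.exp_le_exp.mpr (le_max_right _ _)).trans hN5
  have hpw : ∀ e : ℝ, δ ≤ e → (Un 𝔮 : ℝ) ≤ (Ideal.absNorm 𝔮 : ℝ) ^ e := fun e he =>
    hU.trans (Real.rpow_le_rpow_of_exponent_le hNge he)
  have hfin := (Fam_finite hbot htop).1
  have hbig := hlarge 𝔮 hbot htop (hpw _ hδb) hN3
  refine ⟨htop, hfin, hbig, ?_⟩
  intro T hT1 hTh S hS hSc
  have hFpos : (0 : ℝ) < ((Fam 𝔮).ncard : ℝ) :=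
    lt_of_lt_of_le (Real.rpow_pos_of_pos hNpos _) hbig
  have hScp : (0 : ℝ) < S.card := lt_of_lt_of_le (mul_pos (by linarith) hFpos) hSc
  have hSne : S.Nonempty := by
    rw [← Finset.card_pos]
    exact_mod_cast hScp
  have hTpos : 0 < T := lt_of_lt_of_le (Real.rpow_pos_of_pos hNpos _) hT1
  obtain ⟨L, hL⟩ : ∃ L : ℝ, L = Real.log (Ideal.absNorm 𝔮) / d + Real.log T := ⟨_, rfl⟩
  have hlogNT : Real.log ((Ideal.absNorm 𝔮 : ℝ) * T ^ Module.finrank ℚ K) =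
      Real.log (Ideal.absNorm 𝔮) + d * Real.log T := by
    rw [Real.log_mul hNpos.ne' (pow_pos hTpos _).ne', Real.log_pow, hd]
  have hdL : d * L = Real.log (Ideal.absNorm 𝔮) + d * Real.log T := by
    rw [hL]; field_simp
  have hh2 : h * (Real.log (Ideal.absNorm 𝔮) + d * Real.log T) ≤ Real.log (Ideal.absNorm 𝔮) := by
    have h1 : 0 < (Ideal.absNorm 𝔮 : ℝ) * T ^ Module.finrank ℚ K := by positivity
    have h2 := Real.log_le_log (Real.rpow_pos_of_pos h1 h) hTh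
    rwa [Real.log_rpow h1, hlogNT] at h2
  obtain ⟨p1, p2, p3, p4, p5, p6⟩ := par_rel hNge hTpos hd1 hh hη1 hL hT1 hh2
  have hLℓ : max (max L0 x2) x3 ≤ L := by
    have h1 : d * (max (max L0 x2) x3) ≤ d * L := by
      rw [← hℓ]; exact hΛ1.trans p3
    exact le_of_mul_le_mul_left h1 hd0
  have hLL0 : L0 ≤ L := ((le_max_left _ _).trans (le_max_left _ _)).trans hLℓ
  have hLx2 : x2 ≤ L := ((le_max_right _ _).trans (le_max_left _ _)).trans hLℓ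
  have hLx3 : x3 ≤ L := (le_max_right _ _).trans hLℓ
  have hL8 : 8 ≤ L := hL0.trans hLL0
  have q1 : L ^ 2 ≤ T := by
    have h1 := hx2' L hLx2
    rw [one_mul] at h1
    have h2 : L ^ 2 ≤ (L + 1) ^ 2 := pow_le_pow_left₀ (by linarith) (by linarith) 2
    exact (h2.trans h1).trans p5
  have q2 : T ≤ Real.exp (L ^ 2 / 2) := by
    refine p6.trans (Real.exp_le_exp.mpr ?_)
    nlinarith
  have q3 : Real.exp (5 * κ * L) ≤ T := by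
    refine le_trans (Real.exp_le_exp.mpr ?_) p5
    exact mul_le_mul_of_nonneg_right hκ2 (by linarith)
  have q4 : C ≤ Real.exp (κ / 4 * L) := by
    have h1 := hx3' L hLx3
    have h2 : C * 1 ≤ C * (L + 1) ^ 2 := by
      refine mul_le_mul_of_nonneg_left ?_ (by linarith)
      nlinarith
    linarith
  have q5 := hx1' _ hΛ2
  obtain ⟨a1, a2⟩ := par_A (U := (Un 𝔮 : ℝ)) (β := h * d * r) hNge hd1 hC hr0 hr1 hκ hδ0 hδc hδd
    (Nat.cast_nonneg _) hU rfl hh (by linarith) p3 p4 q4 q5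
  -- the set of all characters
  obtain ⟨Sf, hSf⟩ : ∃ Sf : Finset (Ideal (𝓞 K) →*₀ ℂ), ∀ ψ, ψ ∈ Sf ↔ ψ ∈ Fam 𝔮 :=
    ⟨hfin.toFinset, fun ψ => hfin.mem_toFinset⟩
  have hSfc : (Sf.card : ℝ) = ((Fam 𝔮).ncard : ℝ) := by
    have : (Fam 𝔮) = (Sf : Set _) := by
      ext ψ; rw [Finset.mem_coe, hSf]
    rw [this, Set.ncard_coe_finset]
  have hSf2 : (Sf.card : ℝ) ≤ 2 * S.card := by
    rw [hSfc]
    have h1 : (3 / 4) * ((Fam 𝔮).ncard : ℝ) ≤ (1 - δ) * ((Fam 𝔮).ncard : ℝ) :=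
      mul_le_mul_of_nonneg_right (by linarith) hFpos.le
    linarith
  have hav := avg_cond hbot S Sf hSf hS hSf2 hδ20.le (hcond 𝔮 hbot htop Sf (hpw _ hδa) hSf hN2)
    hd1 hTpos p2 hL
  have hθe : 1 - 2 * δ2 = θ := by rw [hδ2]; ring
  rw [hθe] at hav
  -- the large sieve
  have hrat : (Nat.card (Cls (pi1 htop)) : ℝ) ≤ D * S.card := by
    have h1 := hratio 𝔮 hbot htop (hpw _ hδe) hN1
    have h2 : D0 / D * ((Fam 𝔮).ncard : ℝ) ≤ S.card := by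
      refine le_trans ?_ hSc
      exact mul_le_mul_of_nonneg_right (by linarith) hFpos.le
    have hDpos : 0 < D := by linarith
    calc (Nat.card (Cls (pi1 htop)) : ℝ) ≤ D0 * ((Fam 𝔮).ncard : ℝ) := h1
      _ = D * (D0 / D * ((Fam 𝔮).ncard : ℝ)) := by field_simp
      _ ≤ D * S.card := mul_le_mul_of_nonneg_left h2 hDpos.le
  have hLSG := lsg_of hC hls hbot htop S hS hrat
  have hU0 : (0 : ℝ) ≤ C * Un 𝔮 := by positivity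
  have hGd := fun ψ (hψ : ψ ∈ S) => goodLL hgood hbot (hS ψ hψ)
  rw [← hd] at hGd
  have hn1 : ∀ ψ ∈ S, ∀ 𝔞, ‖ψ 𝔞‖ ≤ 1 := fun ψ hψ =>
    (cd_spec (hS ψ hψ)).2.2.norm_le_one Pool.Agent.Y772.G.t_sig
  obtain ⟨r1, r2, r3, r4⟩ := hzer S
    (fun ψ t => Real.log ((Ideal.absNorm (cd 𝔮 ψ) : ℝ) ^ (1 / d) * t)) (fun ψ => LL K ψ)
    (fun ψ m => cc ψ m * (ArithmeticFunction.vonMangoldt m : ℂ)) (Ideal.absNorm 𝔮) L T
    (C * Un 𝔮) (C * Un 𝔮 / (Ideal.absNorm 𝔮 : ℝ)) hSne hLL0 q1 q2 q3 (absNorm_pos' hbot) p3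
    (fun ψ hψ => ⟨(hGd ψ hψ).1, (hGd ψ hψ).2, lc_bounds hbot (hS ψ hψ) hd1 p1 hL⟩) hav
    (fun ψ hψ m => by
      have h8 := Pool.Agent.Y772.DK.norm_cc_le ψ (hn1 ψ hψ) m
      rw [norm_mul, Complex.norm_real,
        Real.norm_of_nonneg ArithmeticFunction.vonMangoldt_nonneg]
      rw [← hd] at h8
      exact mul_le_mul_of_nonneg_right h8 ArithmeticFunction.vonMangoldt_nonneg)
    (fun ψ hψ m => by
      have h8 := cc_sq_le ψ (hn1 ψ hψ) m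
      rwa [← hd] at h8)
    hU0 (by positivity) hLSG a1 a2
  refine ⟨p1, r1, ?_, r3, r4⟩
  rw [hlogNT, ← hdL]
  exact r2

end

end Pool.Agent.N784.AD
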