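import Pool.Agent.N784.AD.Cl
import Pool.Agent.N784.AD.Rough
import Pool.Agent.Y773.IQ.Fam

/-! # Moduli for which the units occupy few residue classes (helper784) -/

set_option autoImplicit false
set_option linter.unusedSectionVars false
set_option linter.unusedVariables false

open NumberField Filter Topology

namespace Pool.Agent.N784.AD

open Pool.Agent.Y773.IQ (Fam cd cd_spec absNorm_pos' cop_of_norm)
open Pool.Agent.H901R3.MS (DegP t_LY)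

section

variable {K : Type} [Field K] [NumberField K]

lemma norm_ker {p : ℕ} (hp : p.Prime) (φ : 𝓞 K →+* ZMod p) :
    Ideal.absNorm (RingHom.ker φ) = p := by
  rw [Ideal.absNorm_apply, Submodule.cardQuot_apply]
  have e := RingHom.quotientKerEquivOfSurjective (ZMod.ringHom_surjective φ)
  have : Nat.card (𝓞 K ⧸ RingHom.ker φ) = Nat.card (ZMod p) := Nat.card_congr e.toEquiv
  rw [Nat.card_zmod] at this
  exact this

/-- few units modulo `𝔮` if they have a small exponent -/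
lemma Un_le {𝔮 : Ideal (𝓞 K)} (hbot : 𝔮 ≠ ⊥) (L : ℕ) (hL : 1 ≤ L)
    (h : ∀ u : (𝓞 K)ˣ, (u : 𝓞 K) ^ L - 1 ∈ 𝔮) :
    Un 𝔮 ≤ Nat.card (Units.torsion K) * L ^ Units.rank K := by
  classical
  have : NeZero L := ⟨by omega⟩
  obtain ⟨f, hf⟩ : ∃ f : (𝓞 K)ˣ →* (𝓞 K ⧸ 𝔮)ˣ, f = Units.map (Ideal.Quotient.mk 𝔮 : 𝓞 K →* 𝓞 K ⧸ 𝔮) :=
    ⟨_, rfl⟩
  have hfc : ∀ u : (𝓞 K)ˣ, ((f u : (𝓞 K ⧸ 𝔮)ˣ) : 𝓞 K ⧸ 𝔮) = Ideal.Quotient.mk 𝔮 (u : 𝓞 K) := by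
    intro u; rw [hf]; rfl
  have hfL : ∀ u : (𝓞 K)ˣ, f u ^ L = 1 := by
    intro u
    ext
    rw [Units.val_pow_eq_pow_val, hfc, Units.val_one, ← map_pow, ← map_one (Ideal.Quotient.mk 𝔮),
      Ideal.Quotient.eq]
    exact h u
  obtain ⟨g, hg⟩ : ∃ g : Units.torsion K × (Fin (Units.rank K) → Fin L) → 𝓞 K ⧸ 𝔮,
      ∀ z, g z = ((f (z.1 : (𝓞 K)ˣ) * ∏ i, f (Units.fundSystem K i) ^ (z.2 i : ℕ) :
        (𝓞 K ⧸ 𝔮)ˣ) : 𝓞 K ⧸ 𝔮) := ⟨_, fun _ => rfl⟩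
  have hsub : Set.range (fun u : (𝓞 K)ˣ => Ideal.Quotient.mk 𝔮 (u : 𝓞 K)) ⊆ Set.range g := by
    rintro _ ⟨u, rfl⟩
    obtain ⟨⟨ζ, e⟩, hu, -⟩ := Units.exist_unique_eq_mul_prod K u
    simp only at hu
    refine ⟨(ζ, fun i => ⟨(e i % (L : ℤ)).toNat, ?_⟩), ?_⟩
    · have h1 := Int.emod_lt_of_pos (e i) (show (0 : ℤ) < L by exact_mod_cast hL)
      have h2 := Int.emod_nonneg (e i) (show (L : ℤ) ≠ 0 by exact_mod_cast (by omega : L ≠ 0))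
      omega
    · rw [hg]
      simp only
      rw [← hfc u]
      congr 1
      rw [hu, map_mul, map_prod]
      congr 1
      refine Finset.prod_congr rfl fun i _ => ?_
      rw [map_zpow, ← zpow_natCast]
      have h2 := Int.emod_nonneg (e i) (show (L : ℤ) ≠ 0 by exact_mod_cast (by omega : L ≠ 0))
      rw [Int.toNat_of_nonneg h2]
      have h3 : f (Units.fundSystem K i) ^ e i =
          f (Units.fundSystem K i) ^ (e i % (L : ℤ) + L * (e i / L)) := by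
        rw [Int.emod_add_mul_ediv]
      rw [h3, zpow_add, zpow_mul, zpow_natCast, hfL, one_zpow, mul_one]
  unfold Un
  have hfin : (Set.range g).Finite := Set.finite_range g
  refine (Set.ncard_le_ncard hsub hfin).trans ?_
  have h1 : (Set.range g).ncard ≤ Nat.card (Units.torsion K × (Fin (Units.rank K) → Fin L)) := by
    rw [← Set.image_univ]
    refine (Set.ncard_image_le Set.finite_univ).trans ?_
    rw [Set.ncard_univ]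
  refine h1.trans ?_
  rw [Nat.card_prod, Nat.card_fun, Nat.card_fin, Nat.card_fin]

/-- structure of the moduli -/
structure Split (𝔮 : Ideal (𝓞 K)) (B : ℝ) : Prop where
  ne_bot : 𝔮 ≠ ⊥
  sqf : Squarefree 𝔮
  prime : ∀ 𝔭 : Ideal (𝓞 K), Prime 𝔭 → 𝔭 ∣ 𝔮 → (Ideal.absNorm 𝔭).Prime ∧
    B < (Ideal.absNorm 𝔭 : ℝ)
  inj : ∀ 𝔭 𝔭' : Ideal (𝓞 K), Prime 𝔭 → Prime 𝔭' → 𝔭 ∣ 𝔮 → 𝔭' ∣ 𝔮 →
    Ideal.absNorm 𝔭 = Ideal.absNorm 𝔭' → 𝔭 = 𝔭'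

/-- the construction -/
theorem constr (P : Finset ℕ) (hP : ∀ p ∈ P, p.Prime ∧ Nonempty (𝓞 K →+* ZMod p)) (L : ℕ)
    (hL : 1 ≤ L) (hPL : ∀ p ∈ P, p - 1 ∣ L) (B : ℝ) (hB : ∀ p ∈ P, B < (p : ℝ)) :
    ∃ 𝔮 : Ideal (𝓞 K), Split 𝔮 B ∧ Ideal.absNorm 𝔮 = ∏ p ∈ P, p ∧
      Un 𝔮 ≤ Nat.card (Units.torsion K) * L ^ Units.rank K := by
  classical
  have hφ : ∀ p : ℕ, ∃ 𝔭 : Ideal (𝓞 K), p ∈ P → ∃ φ : 𝓞 K →+* ZMod p, 𝔭 = RingHom.ker φ := by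
    intro p
    by_cases hp : p ∈ P
    · obtain ⟨φ⟩ := (hP p hp).2
      exact ⟨RingHom.ker φ, fun _ => ⟨φ, rfl⟩⟩
    · exact ⟨⊥, fun h => absurd h hp⟩
  choose 𝔭 h𝔭 using hφ
  have hN : ∀ p ∈ P, Ideal.absNorm (𝔭 p) = p := by
    intro p hp
    obtain ⟨φ, hφ⟩ := h𝔭 p hp
    rw [hφ]
    exact norm_ker (hP p hp).1 φ
  have hbot : ∀ p ∈ P, 𝔭 p ≠ ⊥ := by
    intro p hp h
    have h1 := hN p hp
    rw [h, Ideal.absNorm_bot] at h1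
    exact (hP p hp).1.ne_zero h1.symm
  have hprime : ∀ p ∈ P, Prime (𝔭 p) := by
    intro p hp
    rw [Ideal.prime_iff_isPrime (hbot p hp)]
    refine Ideal.isPrime_of_irreducible_absNorm ?_
    rw [hN p hp]
    exact (hP p hp).1.prime.irreducible
  have hcop : ∀ p ∈ P, ∀ p' ∈ P, p ≠ p' → IsCoprime (𝔭 p) (𝔭 p') := by
    intro p hp p' hp' hne
    refine cop_of_norm ?_
    rw [hN p hp, hN p' hp']
    exact (Nat.coprime_primes (hP p hp).1 (hP p' hp').1).mpr hne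
  have hq0 : (∏ p ∈ P, 𝔭 p) ≠ ⊥ := by
    rw [← Ideal.zero_eq_bot]
    exact Finset.prod_ne_zero_iff.mpr fun p hp => by rw [Ideal.zero_eq_bot]; exact hbot p hp
  have hdiv : ∀ 𝔩 : Ideal (𝓞 K), Prime 𝔩 → 𝔩 ∣ ∏ p ∈ P, 𝔭 p → ∃ p ∈ P, 𝔩 = 𝔭 p := by
    intro 𝔩 h𝔩 hd
    obtain ⟨p, hp, hd'⟩ := (Prime.dvd_finsetProd_iff h𝔩 _).mp hd
    refine ⟨p, hp, ?_⟩
    exact associated_iff_eq.mp (h𝔩.associated_of_dvd (hprime p hp) hd')
  refine ⟨∏ p ∈ P, 𝔭 p, ⟨hq0, ?_, ?_, ?_⟩, ?_, ?_⟩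
  · -- squarefree
    refine Finset.squarefree_prod_of_pairwise_isCoprime ?_ fun p hp => (hprime p hp).squarefree
    intro p hp p' hp' hne
    exact (hcop p hp p' hp' hne).isRelPrime
  · intro 𝔩 h𝔩 hd
    obtain ⟨p, hp, rfl⟩ := hdiv 𝔩 h𝔩 hd
    rw [hN p hp]
    exact ⟨(hP p hp).1, hB p hp⟩
  · intro 𝔩 𝔩' h𝔩 h𝔩' hd hd' he
    obtain ⟨p, hp, rfl⟩ := hdiv 𝔩 h𝔩 hd
    obtain ⟨p', hp', rfl⟩ := hdiv 𝔩' h𝔩' hd'
    rw [hN p hp, hN p' hp'] at he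
    rw [he]
  · rw [map_prod]
    exact Finset.prod_congr rfl fun p hp => hN p hp
  · refine Un_le hq0 L hL fun u => ?_
    rw [← Ideal.dvd_span_singleton]
    refine Finset.prod_dvd_of_coprime (fun p hp p' hp' hne => hcop p hp p' hp' hne) fun p hp => ?_
    rw [Ideal.dvd_span_singleton]
    obtain ⟨φ, hφ⟩ := h𝔭 p hp
    rw [hφ, RingHom.mem_ker, map_sub, map_pow, map_one, sub_eq_zero]
    obtain ⟨k, rfl⟩ := hPL p hp
    have : Fact p.Prime := ⟨(hP p hp).1⟩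
    have hu : φ (u : 𝓞 K) ≠ 0 := (u.isUnit.map φ).ne_zero
    rw [pow_mul, ZMod.pow_card_sub_one_eq_one hu, one_pow]

end

end Pool.Agent.N784.AD
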