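import Pool.Agent.N784.AD.Mod
import Pool.Agent.Y773.IQ.Num

/-! # Moduli for which the units occupy few residue classes, existence (helper784) -/

set_option autoImplicit false
set_option linter.unusedSectionVars false
set_option linter.unusedVariables false

open NumberField Filter Topology

namespace Pool.Agent.N784.AD

open Pool.Agent.Y773.IQ (Fam cd cd_spec absNorm_pos' cop_of_norm exists_ge)
open Pool.Agent.H901R3.MS (DegP t_LY)

/-- the analytic estimates -/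
lemma est (δ κ τ r W B : ℝ) (hδ : 0 < δ) (hκ : 0 < κ) (hτ0 : 0 < τ) (hτ : τ < 1) (hr : 0 ≤ r)
    (hW : 1 ≤ W) : ∃ Y : ℝ, 16 ≤ Y ∧ ∀ y : ℝ, Y ≤ y →
      Real.sqrt y * Real.log y ≤ κ / 2 * y ∧
      Real.log W + r * (y ^ τ * Real.log (y + 1)) ≤ δ * (κ / 4 * y) ∧ B ≤ κ / 4 * y ∧
      B ≤ Real.sqrt y := by
  obtain ⟨s, hs⟩ : ∃ s : ℝ, s = (1 - τ) / 2 := ⟨_, rfl⟩
  have hs0 : 0 < s := by rw [hs]; linarith
  obtain ⟨Y1, hY1, h1⟩ := exists_ge (1 / 4) (8 / κ) (by norm_num)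
  obtain ⟨Y2, hY2, h2⟩ := exists_ge s (r * 2 ^ s / s * (8 / (δ * κ))) hs0
  refine ⟨max (max (max Y1 Y2) (max 16 (8 * Real.log W / (δ * κ)))) (max (4 * B / κ) (B ^ 2)),
    (le_max_left _ _).trans ((le_max_right _ _).trans (le_max_left _ _)), fun y hy => ?_⟩
  have hy1 : Y1 ≤ y :=
    (((le_max_left _ _).trans (le_max_left _ _)).trans (le_max_left _ _)).trans hy
  have hy2 : Y2 ≤ y :=
    (((le_max_right _ _).trans (le_max_left _ _)).trans (le_max_left _ _)).trans hy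
  have hy3 : 16 ≤ y :=
    (((le_max_left _ _).trans (le_max_right _ _)).trans (le_max_left _ _)).trans hy
  have hy4 : 8 * Real.log W / (δ * κ) ≤ y :=
    (((le_max_right _ _).trans (le_max_right _ _)).trans (le_max_left _ _)).trans hy
  have hy5 : 4 * B / κ ≤ y := ((le_max_left _ _).trans (le_max_right _ _)).trans hy
  have hy6 : B ^ 2 ≤ y := ((le_max_right _ _).trans (le_max_right _ _)).trans hy
  have hy0 : 0 < y := by linarith
  refine ⟨?_, ?_, ?_, ?_⟩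
  · have e1 : Real.log y ≤ y ^ (1 / 4 : ℝ) / (1 / 4) := Real.log_le_rpow_div hy0.le (by norm_num)
    have e2 := h1 y hy1
    rw [div_le_iff₀ hκ] at e2
    have e3 : Real.sqrt y = y ^ (1 / 4 : ℝ) * y ^ (1 / 4 : ℝ) := by
      rw [← Real.rpow_add hy0, Real.sqrt_eq_rpow]; norm_num
    have e4 : y = y ^ (1 / 4 : ℝ) * y ^ (1 / 4 : ℝ) * (y ^ (1 / 4 : ℝ) * y ^ (1 / 4 : ℝ)) := by
      rw [← Real.rpow_add hy0, ← Real.rpow_add hy0]; norm_num
    obtain ⟨x, hx⟩ : ∃ x : ℝ, x = y ^ (1 / 4 : ℝ) := ⟨_, rfl⟩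
    have hx0 : 0 < x := by rw [hx]; exact Real.rpow_pos_of_pos hy0 _
    rw [← hx] at e1 e2 e3 e4
    rw [e3]
    calc x * x * Real.log y ≤ x * x * (x / (1 / 4)) :=
          mul_le_mul_of_nonneg_left e1 (by positivity)
      _ = (x * x * x) * 4 := by ring
      _ ≤ (x * x * x) * (x * κ / 2) := by
          refine mul_le_mul_of_nonneg_left ?_ (by positivity)
          linarith
      _ = κ / 2 * (x * x * (x * x)) := by ring
      _ = κ / 2 * y := by rw [← e4]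
  · have e1 : Real.log (y + 1) ≤ (2 * y) ^ s / s := by
      refine le_trans (Real.log_le_log (by linarith) (by linarith)) (Real.log_le_rpow_div
        (show 0 ≤ 2 * y by linarith) hs0)
    have e2 := h2 y hy2
    have e3 : y ^ τ * y ^ s * y ^ s = y := by
      rw [← Real.rpow_add hy0, ← Real.rpow_add hy0]
      have : τ + s + s = 1 := by rw [hs]; ring
      rw [this, Real.rpow_one]
    have e4 : (2 * y) ^ s = 2 ^ s * y ^ s := Real.mul_rpow (by norm_num) hy0.le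
    have hyτ : 0 < y ^ τ := Real.rpow_pos_of_pos hy0 _
    have hys : 0 < y ^ s := Real.rpow_pos_of_pos hy0 _
    have e5 : r * (y ^ τ * Real.log (y + 1)) ≤ δ * κ / 8 * y := by
      calc r * (y ^ τ * Real.log (y + 1)) ≤ r * (y ^ τ * ((2 * y) ^ s / s)) := by gcongr
        _ = (r * 2 ^ s / s) * (y ^ τ * y ^ s) := by rw [e4]; ring
        _ = (r * 2 ^ s / s * (8 / (δ * κ))) * (δ * κ / 8 * (y ^ τ * y ^ s)) := by
            field_simp
        _ ≤ y ^ s * (δ * κ / 8 * (y ^ τ * y ^ s)) :=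
            mul_le_mul_of_nonneg_right e2 (by positivity)
        _ = δ * κ / 8 * (y ^ τ * y ^ s * y ^ s) := by ring
        _ = δ * κ / 8 * y := by rw [e3]
    have e6 : Real.log W ≤ δ * κ / 8 * y := by
      rw [div_le_iff₀ (by positivity)] at hy4
      linarith
    linarith
  · rw [div_le_iff₀ hκ] at hy5
    linarith
  · exact Real.le_sqrt_of_sq_le hy6

section

variable (K : Type) [Field K] [NumberField K]

theorem exists_mod (δ B : ℝ) (hδ : 0 < δ) : ∃ 𝔮 : Ideal (𝓞 K), Split 𝔮 B ∧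
    B ≤ (Ideal.absNorm 𝔮 : ℝ) ∧ (Un 𝔮 : ℝ) ≤ (Ideal.absNorm 𝔮 : ℝ) ^ δ := by
  classical
  obtain ⟨τ, hτ0, hτ1, κ, hκ, Y₀, hY₀⟩ := spm K
  obtain ⟨W, hW⟩ : ∃ W : ℝ, W = (Nat.card (Units.torsion K) : ℝ) := ⟨_, rfl⟩
  have hW1 : 1 ≤ W := by
    rw [hW]
    have : 0 < Nat.card (Units.torsion K) := Nat.card_pos
    exact_mod_cast this
  obtain ⟨r, hr⟩ : ∃ r : ℝ, r = (Units.rank K : ℝ) := ⟨_, rfl⟩
  have hr0 : 0 ≤ r := by rw [hr]; exact Nat.cast_nonneg _
  obtain ⟨Y, hY, hest⟩ := est δ κ τ r W B hδ hκ hτ0 hτ1 hr0 hW1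
  obtain ⟨y, hy⟩ : ∃ y : ℕ, y = max Y₀ ⌈Y⌉₊ := ⟨_, rfl⟩
  have hy0 : Y₀ ≤ y := by rw [hy]; exact le_max_left _ _
  have hyY : Y ≤ (y : ℝ) := by
    rw [hy]
    exact (Nat.le_ceil Y).trans (by exact_mod_cast le_max_right _ _)
  obtain ⟨f1, f2, f3, f4⟩ := hest y hyY
  have hcard := hY₀ y hy0
  have hy16 : (16 : ℝ) ≤ y := hY.trans hyY
  have hypos : (0 : ℝ) < y := by linarith
  have hlogy : 0 < Real.log y := Real.log_pos (by linarith)
  obtain ⟨P, hPd⟩ : ∃ P : Finset ℕ, P = (DegP K False False y \ RoughM τ y).filter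
    (fun p : ℕ => Real.sqrt y < (p : ℝ)) := ⟨_, rfl⟩
  have hPm : ∀ p ∈ P, (p.Prime ∧ Nonempty (𝓞 K →+* ZMod p)) ∧ p ≤ y ∧ Real.sqrt y < p ∧
      ∀ q : ℕ, q.Prime → q ∣ p - 1 → q ≤ ⌊(y : ℝ) ^ τ⌋₊ := by
    intro p hp
    rw [hPd, Finset.mem_filter, Finset.mem_sdiff] at hp
    obtain ⟨⟨h1, h2⟩, h3⟩ := hp
    unfold DegP at h1
    rw [Finset.mem_filter, Finset.mem_Icc] at h1
    refine ⟨⟨h1.2.1, h1.2.2.2⟩, h1.1.2, h3, fun q hq hd => ?_⟩
    by_contra hcon
    apply h2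
    unfold RoughM
    rw [Finset.mem_filter, Finset.mem_Icc]
    exact ⟨h1.1, h1.2.1, q, hq, hd, not_le.mp hcon⟩
  obtain ⟨L, hL1, hL2, hL3⟩ := t_LY y ⌊(y : ℝ) ^ τ⌋₊
  obtain ⟨𝔮, hs, hN, hU⟩ := constr (K := K) P (fun p hp => (hPm p hp).1) L hL1 (fun p hp => by
      obtain ⟨⟨h1, -⟩, h2, -, h4⟩ := hPm p hp
      have := h1.two_le
      exact hL3 (p - 1) (by omega) (by omega) h4) B
    (fun p hp => lt_of_le_of_lt f4 (hPm p hp).2.2.1)
  -- the norm
  have hPc : κ * (y / Real.log y) - Real.sqrt y ≤ (P.card : ℝ) := by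
    have h1 : (DegP K False False y \ RoughM τ y) ⊆ P ∪ Finset.Icc 1 ⌊Real.sqrt y⌋₊ := by
      intro p hp
      rw [Finset.mem_union]
      by_cases h : Real.sqrt y < (p : ℝ)
      · left; rw [hPd, Finset.mem_filter]; exact ⟨hp, h⟩
      · right
        rw [Finset.mem_Icc]
        refine ⟨?_, Nat.le_floor (not_lt.mp h)⟩
        rw [Finset.mem_sdiff] at hp
        have h1 := hp.1
        unfold DegP at h1
        rw [Finset.mem_filter, Finset.mem_Icc] at h1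
        exact h1.1.1
    have h2 := (Finset.card_le_card h1).trans (Finset.card_union_le _ _)
    rw [Nat.card_Icc, Nat.add_sub_cancel] at h2
    have h3 : ((DegP K False False y \ RoughM τ y).card : ℝ) ≤
        (P.card : ℝ) + (⌊Real.sqrt y⌋₊ : ℝ) := by exact_mod_cast h2
    have h4 : (⌊Real.sqrt y⌋₊ : ℝ) ≤ Real.sqrt y := Nat.floor_le (Real.sqrt_nonneg _)
    linarith
  have hlogN : κ / 4 * y ≤ Real.log (Ideal.absNorm 𝔮) := by
    rw [hN, Nat.cast_prod, Real.log_prod (fun p hp => by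
      have := (hPm p hp).1.1.ne_zero
      exact_mod_cast this)]
    have h1 : ∀ p ∈ P, 1 / 2 * Real.log y ≤ Real.log (p : ℝ) := by
      intro p hp
      have h2 := (hPm p hp).2.2.1
      have h3 : Real.log (Real.sqrt y) ≤ Real.log p :=
        Real.log_le_log (Real.sqrt_pos.mpr hypos) h2.le
      rw [Real.log_sqrt hypos.le] at h3
      linarith
    have h2 := Finset.sum_le_sum h1
    rw [Finset.sum_const, nsmul_eq_mul] at h2
    refine le_trans ?_ h2
    have h3 : (κ * (y / Real.log y) - Real.sqrt y) * (1 / 2 * Real.log y) ≤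
        (P.card : ℝ) * (1 / 2 * Real.log y) :=
      mul_le_mul_of_nonneg_right hPc (by positivity)
    refine le_trans ?_ h3
    have h4 : (κ * (y / Real.log y) - Real.sqrt y) * (1 / 2 * Real.log y) =
        κ / 2 * y - 1 / 2 * (Real.sqrt y * Real.log y) := by
      field_simp
    rw [h4]
    linarith
  have hNpos : (0 : ℝ) < (Ideal.absNorm 𝔮 : ℝ) := by
    exact_mod_cast absNorm_pos' hs.ne_bot
  refine ⟨𝔮, hs, ?_, ?_⟩
  · have h1 : Real.log (Ideal.absNorm 𝔮) ≤ (Ideal.absNorm 𝔮 : ℝ) :=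
      (Real.log_le_sub_one_of_pos hNpos).trans (by linarith)
    linarith
  · have h1 : (Un 𝔮 : ℝ) ≤ W * (L : ℝ) ^ Units.rank K := by
      rw [hW]; exact_mod_cast hU
    have hL0 : (0 : ℝ) < L := by exact_mod_cast hL1
    have h2 : Real.log (W * (L : ℝ) ^ Units.rank K) ≤ δ * Real.log (Ideal.absNorm 𝔮) := by
      rw [Real.log_mul (by linarith) (pow_pos hL0 _).ne', Real.log_pow, ← hr]
      have h3 : Real.log L ≤ (y : ℝ) ^ τ * Real.log (y + 1) := by
        have h4 : (L : ℝ) ≤ ((y : ℝ) + 1) ^ ⌊(y : ℝ) ^ τ⌋₊ := by exact_mod_cast hL2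
        have h5 := Real.log_le_log hL0 h4
        rw [Real.log_pow] at h5
        refine h5.trans (mul_le_mul_of_nonneg_right (Nat.floor_le (by positivity)) ?_)
        exact Real.log_nonneg (by linarith)
      have h4 : r * Real.log L ≤ r * ((y : ℝ) ^ τ * Real.log (y + 1)) :=
        mul_le_mul_of_nonneg_left h3 hr0
      have h5 : δ * (κ / 4 * y) ≤ δ * Real.log (Ideal.absNorm 𝔮) :=
        mul_le_mul_of_nonneg_left hlogN hδ.le
      linarith
    have h3 : 0 < W * (L : ℝ) ^ Units.rank K := by positivity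
    refine h1.trans ?_
    rw [Real.rpow_def_of_pos hNpos, ← Real.log_le_iff_le_exp h3]
    linarith

end

end Pool.Agent.N784.AD
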