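import Pool.Agent.Y773.IQ.Msq
import Pool.Agent.Y773.AB.PPow
import Pool.Agent.N786.Win
import Pool.Agent.N786.CoreI
import Pool.Agent.N784.AD.Sum

/-!
# The mean square from a large sieve inequality with an off-diagonal term (helper784)

As `Pool.Agent.Y773.IQ.msqV` and `Pool.Agent.N786.msq_win`, but the large sieve inequality is only
assumed for the coefficients at the primes, with Gaussian weights, and with an additional term; this
term is large for the weights which are concentrated on the small primes, where the classical mean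
value theorem for Dirichlet polynomials is used.
-/

open Complex Filter Topology Set MeasureTheory

set_option autoImplicit false
set_option linter.unusedVariables false

namespace Pool.Agent.N784.AD

open ArithmeticFunction (vonMangoldt)
open H385 W388 Pool.Agent.W398.LV Pool.Agent.Y655.HC
open Pool.Agent.Y773.IQ (a_bd2 split_q err_part)
open Pool.Agent.Y773.AB (Gw Gw_nonneg pp_bound)
open Pool.Agent.N786 (LSW win_pt MSD)

open Classical in
theorem split_qp (M q : ℕ) (a : ℕ → ℂ) (d T u t Cp : ℝ)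
    (hpp : ∀ (u : ℝ) (N : ℕ), ∑ n ∈ (Finset.Icc 1 N).filter (fun n => ¬ n.Prime), Gw u n ≤ Cp)
    (hq : 1 ≤ q) (hu : 0 ≤ u) (hd : 0 ≤ d) (hT : 0 ≤ T)
    (h0 : ∀ n : ℕ, ‖a n‖ ≤ d * vonMangoldt n)
    (ht : ∑' n : ℕ, (if M < n then vonMangoldt n * Real.exp (-(u - Real.log n) ^ 2 / 4) else 0) ≤ 1) :
    ∃ r : ℂ, ‖r‖ ≤ d * wt T t * (1 + Cp + Gq q u) ∧
      ∑' n : ℕ, a n * ww T u t n =
        ∑ n ∈ Finset.Icc 1 M, (if n.Prime ∧ Nat.Coprime n q then a n else 0) * ww T u t n + r := by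
  obtain ⟨r1, hr1, hr2⟩ := split_q M q a d T u t hq hu hd hT h0 ht
  have hw := H385.wt_nonneg T t hT
  refine ⟨∑ n ∈ (Finset.Icc 1 M).filter (fun n => ¬ n.Prime),
    (if Nat.Coprime n q then a n else 0) * ww T u t n + r1, ?_, ?_⟩
  · have h1 : ‖∑ n ∈ (Finset.Icc 1 M).filter (fun n => ¬ n.Prime),
        (if Nat.Coprime n q then a n else 0) * ww T u t n‖ ≤ d * wt T t * Cp := by
      refine (norm_sum_le _ _).trans ?_
      have h2 : ∀ n ∈ (Finset.Icc 1 M).filter (fun n => ¬ n.Prime),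
          ‖(if Nat.Coprime n q then a n else 0) * ww T u t n‖ ≤ d * wt T t * Gw u n := by
        intro n _
        split_ifs
        · exact a_bd2 a d T u t hd hT h0 n
        · rw [zero_mul, norm_zero]
          exact mul_nonneg (mul_nonneg hd hw) (Gw_nonneg _ _)
      refine (Finset.sum_le_sum h2).trans ?_
      rw [← Finset.mul_sum]
      exact mul_le_mul_of_nonneg_left (hpp u M) (by positivity)
    calc _ ≤ d * wt T t * Cp + d * wt T t * (1 + Gq q u) :=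
          (norm_add_le _ _).trans (add_le_add h1 hr1)
      _ = _ := by ring
  · rw [hr2, ← add_assoc]
    congr 1
    rw [Finset.sum_filter, ← Finset.sum_add_distrib]
    refine Finset.sum_congr rfl fun n _ => ?_
    by_cases hp : n.Prime
    · by_cases hc : Nat.Coprime n q
      · simp [hp, hc]
      · simp [hc]
    · simp [hp]

/-- the size of the off-diagonal term -/
noncomputable def EO (A0 A1 u : ℝ) : ℝ := (u + 1) ^ 2 * (A0 * Real.exp (-u) + A1 * Real.exp u)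

lemma EO_nonneg {A0 A1 u : ℝ} (h0 : 0 ≤ A0) (h1 : 0 ≤ A1) : 0 ≤ EO A0 A1 u := by
  unfold EO; positivity

/-- the hypothesis -/
def LSG {ι : Type} (s : Finset ι) (a : ι → ℕ → ℂ) (c : ℕ → ℂ) (q : ℕ) (W A0 A1 : ℝ) : Prop :=
  ∀ (M : ℕ) (b : ℕ → ℂ) (ω u : ℝ), 0 ≤ ω → 0 ≤ u →
    (∀ n : ℕ, n.Prime → ‖b n‖ * Real.log n ≤ ω * gw u n) →
    ∑ i ∈ s, ‖∑ m ∈ Finset.Icc 1 M, b m *
      (if m.Prime ∧ Nat.Coprime m q then a i m else 0)‖ ^ 2 ≤
      W * (∑ m ∈ Finset.Icc 1 M, ‖b m‖ ^ 2 * (vonMangoldt m * ‖c m‖) ^ 2 + ω ^ 2 * EO A0 A1 u)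

/-- the mean square at a point -/
theorem ptP {ι : Type} (s : Finset ι) (hs : s.Nonempty) (c : ℕ → ℂ) (a : ι → ℕ → ℂ) (M q : ℕ)
    (hq : 1 ≤ q) (d D T u t δ A0 A1 Cp : ℝ)
    (hpp : ∀ (u : ℝ) (N : ℕ), ∑ n ∈ (Finset.Icc 1 N).filter (fun n => ¬ n.Prime), Gw u n ≤ Cp)
    (hu : 0 ≤ u) (hd : 0 ≤ d) (hD : 0 ≤ D) (hT : 0 ≤ T)
    (hδ : 0 < δ) (hCp : 0 ≤ Cp) (h0 : ∀ i ∈ s, ∀ n : ℕ, ‖a i n‖ ≤ d * vonMangoldt n)
    (hLS : LSG s a c q (D * s.card) A0 A1)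
    (ht : ∑' n : ℕ, (if M < n then vonMangoldt n * Real.exp (-(u - Real.log n) ^ 2 / 4) else 0) ≤ 1) :
    ∑ i ∈ s, (s.card : ℝ)⁻¹ * ‖∑' n : ℕ, a i n * ww T u t n‖ ^ 2 ≤
      (1 + δ) * D * ∑ n ∈ Finset.Icc 1 M, vonMangoldt n ^ 2 * ‖c n * ww T u t n‖ ^ 2 +
      ((1 + 1 / δ) * d ^ 2 * (1 + Cp + Gq q u) ^ 2 + (1 + δ) * D * EO A0 A1 u) * wt T t ^ 2 := by
  have hw := H385.wt_nonneg T t hT
  have hG := Gq_nonneg q u
  have hc : (0 : ℝ) < s.card := by exact_mod_cast hs.card_pos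
  choose! r hr1 hr2 using fun i (hi : i ∈ s) =>
    split_qp M q (a i) d T u t Cp hpp hq hu hd hT (h0 i hi) ht
  have e1 : ∀ i ∈ s, (s.card : ℝ)⁻¹ * ‖∑' n : ℕ, a i n * ww T u t n‖ ^ 2 ≤
      (1 + δ) * ((s.card : ℝ)⁻¹ * ‖∑ m ∈ Finset.Icc 1 M, ww T u t m *
        (if m.Prime ∧ Nat.Coprime m q then a i m else 0)‖ ^ 2) +
        (s.card : ℝ)⁻¹ * ((1 + 1 / δ) * d ^ 2 * (1 + Cp + Gq q u) ^ 2 * wt T t ^ 2) := by
    intro i hi
    rw [hr2 i hi]
    have h1 := norm_add_sq_le (∑ m ∈ Finset.Icc 1 M,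
      (if m.Prime ∧ Nat.Coprime m q then a i m else 0) * ww T u t m) (r i) δ hδ
    have h3 : ‖r i‖ ^ 2 ≤ (d * wt T t * (1 + Cp + Gq q u)) ^ 2 :=
      pow_le_pow_left₀ (norm_nonneg _) (hr1 i hi) 2
    have h2 : ∑ m ∈ Finset.Icc 1 M, (if m.Prime ∧ Nat.Coprime m q then a i m else 0) * ww T u t m =
        ∑ m ∈ Finset.Icc 1 M, ww T u t m * (if m.Prime ∧ Nat.Coprime m q then a i m else 0) :=
      Finset.sum_congr rfl fun _ _ => mul_comm _ _
    rw [h2] at h1 ⊢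
    have h5 := h1.trans (add_le_add le_rfl
      (mul_le_mul_of_nonneg_left h3 (show 0 ≤ 1 + 1 / δ by positivity)))
    have h6 := mul_le_mul_of_nonneg_left h5 (inv_nonneg.2 hc.le)
    refine h6.trans (le_of_eq ?_)
    ring
  refine (Finset.sum_le_sum e1).trans ?_
  rw [Finset.sum_add_distrib, ← Finset.mul_sum, ← Finset.mul_sum, Finset.sum_const, nsmul_eq_mul]
  have g1 : (s.card : ℝ)⁻¹ * ∑ i ∈ s, ‖∑ m ∈ Finset.Icc 1 M, ww T u t m *
        (if m.Prime ∧ Nat.Coprime m q then a i m else 0)‖ ^ 2 ≤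
      D * (∑ n ∈ Finset.Icc 1 M, vonMangoldt n ^ 2 * ‖c n * ww T u t n‖ ^ 2 +
        wt T t ^ 2 * EO A0 A1 u) := by
    have h1 := mul_le_mul_of_nonneg_left (hLS M (fun m => ww T u t m) (wt T t) u hw hu (by
      intro n hn
      have h3 := H385.b_bound T u t hT n
      rw [ArithmeticFunction.vonMangoldt_apply_prime hn] at h3
      rw [mul_comm]
      exact h3)) (inv_nonneg.2 hc.le)
    refine h1.trans (le_of_eq ?_)
    have h2 : ∑ m ∈ Finset.Icc 1 M, ‖ww T u t m‖ ^ 2 * (vonMangoldt m * ‖c m‖) ^ 2 =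
        ∑ n ∈ Finset.Icc 1 M, vonMangoldt n ^ 2 * ‖c n * ww T u t n‖ ^ 2 := by
      refine Finset.sum_congr rfl fun n _ => ?_
      rw [norm_mul]
      ring
    rw [h2]
    field_simp
  have g2 : (s.card : ℝ) * ((s.card : ℝ)⁻¹ *
      ((1 + 1 / δ) * d ^ 2 * (1 + Cp + Gq q u) ^ 2 * wt T t ^ 2)) =
      (1 + 1 / δ) * d ^ 2 * (1 + Cp + Gq q u) ^ 2 * wt T t ^ 2 := by
    field_simp
  rw [g2]
  have g3 := mul_le_mul_of_nonneg_left g1 (show 0 ≤ 1 + δ by positivity)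
  linarith

/-- the mean square, integrated -/
theorem int_ptP {c : ℕ → ℂ} (hcm : MeanC c) :
    ∃ C0 Cp : ℝ, 0 < C0 ∧ 0 < Cp ∧ ∀ (δ d D : ℝ), 0 < δ → 0 ≤ d → 0 ≤ D → ∀ {ι : Type}
      (s : Finset ι) (a : ι → ℕ → ℂ) (M q : ℕ) (T κ u A0 A1 : ℝ), s.Nonempty → 1 ≤ q → 0 ≤ u →
      1 ≤ κ → 1 ≤ T → T ≤ Real.exp (κ ^ 2) → 0 ≤ A0 → 0 ≤ A1 →
    (∀ i ∈ s, ∀ n : ℕ, ‖a i n‖ ≤ d * vonMangoldt n) →
    LSG s a c q (D * s.card) A0 A1 →
    (∑' n : ℕ, (if M < n then vonMangoldt n *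
      Real.exp (-(u - Real.log n) ^ 2 / 4) else 0) ≤ 1) →
    ∫ t : ℝ, ∑ i ∈ s, (s.card : ℝ)⁻¹ * ‖∑' n : ℕ, a i n *
        ((Real.sqrt n : ℂ)⁻¹ * bt T u t (Real.log n))‖ ^ 2 ≤
      (1 + δ) * D * (T / (2 * Real.pi) * SWu c 1 u + C0 * κ * SWu c (1 / 2) u) +
      (T + C0) * ((1 + 1 / δ) * d ^ 2 * (1 + Cp + Gq q u) ^ 2 + (1 + δ) * D * EO A0 A1 u) := by
  obtain ⟨C5, hC5, h5⟩ := btc_sum_int_E hcm
  obtain ⟨C7, hC7, h7⟩ := wt_sq_int
  obtain ⟨Cp, hCp, hpp⟩ := pp_bound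
  refine ⟨C5 + C7, Cp, by positivity, hCp, ?_⟩
  intro δ d D hδ hd hD ι s a M q T κ u A0 A1 hs hq hu hκ hT hTκ hA0 hA1 h0 hLS ht
  have hT0 : 0 ≤ T := by linarith
  obtain ⟨i1, i2⟩ := h5 T κ u M hκ hT hTκ
  obtain ⟨j1, j2⟩ := h7 T hT0
  have hS1 := SWu_nonneg c 1 u
  have hS2 := SWu_nonneg c (1 / 2) u
  have hEO := EO_nonneg (u := u) hA0 hA1
  obtain ⟨D1, hD1⟩ : ∃ x : ℝ, x = (1 + δ) * D := ⟨_, rfl⟩
  obtain ⟨E, hE⟩ : ∃ x : ℝ, x = (1 + 1 / δ) * d ^ 2 * (1 + Cp + Gq q u) ^ 2 +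
    (1 + δ) * D * EO A0 A1 u := ⟨_, rfl⟩
  have hE0 : 0 ≤ E := by rw [hE]; positivity
  have hD0 : 0 ≤ D1 := by rw [hD1]; positivity
  rw [← hE, ← hD1]
  calc _ ≤ ∫ t : ℝ, (D1 * ∑ n ∈ Finset.Icc 1 M, (vonMangoldt n) ^ 2 *
          ‖c n * ((Real.sqrt n : ℂ)⁻¹ * bt T u t (Real.log n))‖ ^ 2 + E * wt T t ^ 2) := by
        refine integral_mono_of_nonneg ?_ ?_ ?_
        · refine Filter.Eventually.of_forall (fun t => ?_)
          exact Finset.sum_nonneg fun i hi => mul_nonneg (by positivity) (sq_nonneg _)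
        · exact (i1.const_mul _).add (j1.const_mul _)
        · refine Filter.Eventually.of_forall (fun t => ?_)
          rw [hD1, hE]
          exact ptP s hs c a M q hq d D T u t δ A0 A1 Cp hpp hu hd hD hT0 hδ hCp.le h0 hLS ht
    _ = D1 * (∫ t : ℝ, ∑ n ∈ Finset.Icc 1 M, (vonMangoldt n) ^ 2 *
          ‖c n * ((Real.sqrt n : ℂ)⁻¹ * bt T u t (Real.log n))‖ ^ 2) +
          E * (∫ t : ℝ, wt T t ^ 2) := by
        rw [integral_add (i1.const_mul _) (j1.const_mul _), integral_const_mul, integral_const_mul]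
    _ ≤ D1 * (T / (2 * Real.pi) * SWu c 1 u + C5 * κ * SWu c (1 / 2) u) + E * (T + C7) := by
        exact add_le_add (mul_le_mul_of_nonneg_left i2 hD0) (mul_le_mul_of_nonneg_left j2 hE0)
    _ ≤ _ := by
        refine add_le_add ?_ ?_
        · refine mul_le_mul_of_nonneg_left ?_ hD0
          have : C5 ≤ C5 + C7 := by linarith
          gcongr
        · rw [mul_comm]
          have e2 : T + C7 ≤ T + (C5 + C7) := by linarith
          exact mul_le_mul e2 le_rfl hE0 (by positivity)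

/-! ### small `u` -/

lemma log_gap {M m n : ℕ} (hm : m ∈ Finset.Icc 1 M) (hn : n ∈ Finset.Icc 1 M) (h : m ≠ n) :
    1 / (M : ℝ) ≤ |Real.log m - Real.log n| := by
  have key : ∀ m n : ℕ, m ∈ Finset.Icc 1 M → n ∈ Finset.Icc 1 M → m < n →
      1 / (M : ℝ) ≤ Real.log n - Real.log m := by
    intro m n hm hn h
    obtain ⟨h1, h2⟩ := Finset.mem_Icc.mp hm
    obtain ⟨h3, h4⟩ := Finset.mem_Icc.mp hn
    have hm0 : (0 : ℝ) < m := by exact_mod_cast h1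
    have hn0 : (0 : ℝ) < n := by exact_mod_cast h3
    have hM0 : (0 : ℝ) < M := lt_of_lt_of_le hn0 (by exact_mod_cast h4)
    have e1 : 1 - ((n : ℝ) / m)⁻¹ ≤ Real.log ((n : ℝ) / m) :=
      Real.one_sub_inv_le_log_of_pos (by positivity)
    rw [Real.log_div hn0.ne' hm0.ne', inv_div] at e1
    refine le_trans ?_ e1
    have e2 : 1 - (m : ℝ) / n = (n - m) / n := by field_simp
    rw [e2]
    have e3 : (1 : ℝ) ≤ n - m := by
      have : m + 1 ≤ n := h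
      have : ((m + 1 : ℕ) : ℝ) ≤ n := by exact_mod_cast this
      push_cast at this
      linarith
    calc 1 / (M : ℝ) ≤ 1 / n := one_div_le_one_div_of_le hn0 (by exact_mod_cast h4)
      _ ≤ (n - m) / n := div_le_div_of_nonneg_right e3 hn0.le
  rcases lt_or_gt_of_ne h with h1 | h1
  · rw [abs_sub_comm]
    exact (key m n hm hn h1).trans (le_abs_self _)
  · exact (key n m hn hm h1).trans (le_abs_self _)

/-- the classical mean value theorem, crude form -/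
theorem mv_crude (M : ℕ) (z : ℕ → ℂ) {w : ℝ} (hw : 0 < w) (hM : 2 * (M : ℝ) ^ 2 ≤ w) (t₁ : ℝ) :
    ∫ t in t₁..(t₁ + w), ‖∑ m ∈ Finset.Icc 1 M,
      z m * cexp (-(((t * Real.log m : ℝ) : ℂ) * I))‖ ^ 2 ≤
      2 * w * ∑ m ∈ Finset.Icc 1 M, ‖z m‖ ^ 2 := by
  classical
  have e1 : ∀ t : ℝ, ((‖∑ m ∈ Finset.Icc 1 M,
      z m * cexp (-(((t * Real.log m : ℝ) : ℂ) * I))‖ ^ 2 : ℝ) : ℂ) =
      ∑ m ∈ Finset.Icc 1 M, ∑ n ∈ Finset.Icc 1 M, (z m * (starRingEnd ℂ) (z n)) *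
        cexp ((((Real.log n - Real.log m : ℝ) : ℂ) * I) * t) := by
    intro t
    obtain ⟨l, hl⟩ : ∃ l : ℕ → ℝ, ∀ n : ℕ, Real.log n = l n := ⟨fun n => Real.log n, fun _ => rfl⟩
    simp only [hl]
    rw [Complex.ofReal_pow, ← Complex.mul_conj', map_sum, Finset.sum_mul_sum]
    refine Finset.sum_congr rfl fun m _ => Finset.sum_congr rfl fun n _ => ?_
    rw [map_mul, ← Complex.exp_conj]
    have h1 : (starRingEnd ℂ) (-(((t * l n : ℝ) : ℂ) * I)) =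
        ((t * l n : ℝ) : ℂ) * I := by
      rw [map_neg, map_mul, Complex.conj_ofReal, Complex.conj_I]
      ring
    rw [h1]
    have h2 : z m * cexp (-(((t * l m : ℝ) : ℂ) * I)) *
        ((starRingEnd ℂ) (z n) * cexp (((t * l n : ℝ) : ℂ) * I)) =
        (z m * (starRingEnd ℂ) (z n)) * (cexp (-(((t * l m : ℝ) : ℂ) * I)) *
          cexp (((t * l n : ℝ) : ℂ) * I)) := by ring
    rw [h2, ← Complex.exp_add]
    congr 2
    push_cast
    ring
  have e2 : ((∫ t in t₁..(t₁ + w), ‖∑ m ∈ Finset.Icc 1 M,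
      z m * cexp (-(((t * Real.log m : ℝ) : ℂ) * I))‖ ^ 2 : ℝ) : ℂ) =
      ∑ m ∈ Finset.Icc 1 M, ∑ n ∈ Finset.Icc 1 M, (z m * (starRingEnd ℂ) (z n)) *
        ∫ t in t₁..(t₁ + w), cexp ((((Real.log n - Real.log m : ℝ) : ℂ) * I) * t) := by
    rw [← intervalIntegral.integral_ofReal]
    simp_rw [e1]
    rw [intervalIntegral.integral_finsetSum (fun m _ => by
      refine Continuous.intervalIntegrable ?_ _ _
      refine continuous_finsetSum _ fun n _ => ?_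
      fun_prop)]
    refine Finset.sum_congr rfl fun m _ => ?_
    rw [intervalIntegral.integral_finsetSum (fun n _ => by
      refine Continuous.intervalIntegrable ?_ _ _
      fun_prop)]
    refine Finset.sum_congr rfl fun n _ => ?_
    rw [intervalIntegral.integral_const_mul]
  have hk : ∀ m ∈ Finset.Icc 1 M, ∀ n ∈ Finset.Icc 1 M,
      ‖∫ t in t₁..(t₁ + w), cexp ((((Real.log n - Real.log m : ℝ) : ℂ) * I) * t)‖ ≤
      (if m = n then w else 0) + 2 * M := by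
    intro m hm n hn
    by_cases h : m = n
    · rw [if_pos h, h, sub_self]
      simp only [Complex.ofReal_zero, zero_mul, Complex.exp_zero]
      rw [intervalIntegral.integral_const, add_sub_cancel_left]
      have h1 : ‖w • (1 : ℂ)‖ = w := by
        rw [norm_smul, norm_one, mul_one, Real.norm_of_nonneg hw.le]
      rw [h1]
      have : (0 : ℝ) ≤ M := Nat.cast_nonneg M
      linarith
    · rw [if_neg h, zero_add]
      have hgap := log_gap hn hm (fun h' => h h'.symm)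
      obtain ⟨h1, h2⟩ := Finset.mem_Icc.mp hm
      have hM0 : (0 : ℝ) < M := by
        have : 0 < M := by omega
        exact_mod_cast this
      have hg0 : 0 < |Real.log n - Real.log m| := lt_of_lt_of_le (by positivity) hgap
      have hc : (((Real.log n - Real.log m : ℝ) : ℂ) * I) ≠ 0 := by
        refine mul_ne_zero ?_ I_ne_zero
        rw [Ne, Complex.ofReal_eq_zero]
        exact abs_pos.mp hg0
      rw [integral_exp_mul_complex hc, norm_div]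
      have h3 : ‖(((Real.log n - Real.log m : ℝ) : ℂ) * I)‖ = |Real.log n - Real.log m| := by
        rw [norm_mul, norm_I, mul_one, Complex.norm_real, Real.norm_eq_abs]
      have h4 : ∀ t : ℝ, ‖cexp ((((Real.log n - Real.log m : ℝ) : ℂ) * I) * t)‖ = 1 := by
        intro t
        have : (((Real.log n - Real.log m : ℝ) : ℂ) * I) * t =
            (((Real.log n - Real.log m) * t : ℝ) : ℂ) * I := by push_cast; ring
        rw [this, Complex.norm_exp_ofReal_mul_I]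
      have h5 : ‖cexp ((((Real.log n - Real.log m : ℝ) : ℂ) * I) * ((t₁ + w : ℝ) : ℂ)) -
          cexp ((((Real.log n - Real.log m : ℝ) : ℂ) * I) * (t₁ : ℂ))‖ ≤ 2 := by
        refine (norm_sub_le _ _).trans ?_
        rw [h4, h4]
        norm_num
      rw [h3, div_le_iff₀ hg0]
      refine h5.trans ?_
      calc (2 : ℝ) = 2 * M * (1 / M) := by field_simp
        _ ≤ 2 * M * |Real.log n - Real.log m| := mul_le_mul_of_nonneg_left hgap (by positivity)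
  have h0 : 0 ≤ ∫ t in t₁..(t₁ + w), ‖∑ m ∈ Finset.Icc 1 M,
      z m * cexp (-(((t * Real.log m : ℝ) : ℂ) * I))‖ ^ 2 :=
    intervalIntegral.integral_nonneg (by linarith) fun t _ => by positivity
  have h1 : ∫ t in t₁..(t₁ + w), ‖∑ m ∈ Finset.Icc 1 M,
      z m * cexp (-(((t * Real.log m : ℝ) : ℂ) * I))‖ ^ 2 ≤
      ∑ m ∈ Finset.Icc 1 M, ∑ n ∈ Finset.Icc 1 M, (‖z m‖ * ‖z n‖) *
        ((if m = n then w else 0) + 2 * M) := by
    have h2 : ∫ t in t₁..(t₁ + w), ‖∑ m ∈ Finset.Icc 1 M,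
      z m * cexp (-(((t * Real.log m : ℝ) : ℂ) * I))‖ ^ 2 = ‖((∫ t in t₁..(t₁ + w),
        ‖∑ m ∈ Finset.Icc 1 M, z m * cexp (-(((t * Real.log m : ℝ) : ℂ) * I))‖ ^ 2 : ℝ) : ℂ)‖ := by
      rw [Complex.norm_real, Real.norm_of_nonneg h0]
    rw [h2, e2]
    refine (norm_sum_le _ _).trans (Finset.sum_le_sum fun m hm => ?_)
    refine (norm_sum_le _ _).trans (Finset.sum_le_sum fun n hn => ?_)
    rw [norm_mul, norm_mul, Complex.norm_conj]
    exact mul_le_mul_of_nonneg_left (hk m hm n hn) (by positivity)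
  refine h1.trans ?_
  have h2 : ∑ m ∈ Finset.Icc 1 M, ∑ n ∈ Finset.Icc 1 M, (‖z m‖ * ‖z n‖) *
        ((if m = n then w else 0) + 2 * M) =
      w * ∑ m ∈ Finset.Icc 1 M, ‖z m‖ ^ 2 + 2 * M * (∑ m ∈ Finset.Icc 1 M, ‖z m‖) ^ 2 := by
    rw [sq (∑ m ∈ Finset.Icc 1 M, ‖z m‖), Finset.sum_mul_sum, Finset.mul_sum, Finset.mul_sum,
      ← Finset.sum_add_distrib]
    refine Finset.sum_congr rfl fun m hm => ?_
    have h3 : w * ‖z m‖ ^ 2 = ∑ n ∈ Finset.Icc 1 M, (‖z m‖ * ‖z n‖) * (if m = n then w else 0) := by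
      simp only [mul_ite, mul_zero]
      rw [Finset.sum_ite_eq, if_pos hm]
      ring
    rw [h3, Finset.mul_sum, ← Finset.sum_add_distrib]
    refine Finset.sum_congr rfl fun n _ => ?_
    ring
  rw [h2]
  have h3 : (∑ m ∈ Finset.Icc 1 M, ‖z m‖) ^ 2 ≤ M * ∑ m ∈ Finset.Icc 1 M, ‖z m‖ ^ 2 := by
    have := sq_sum_le_card_mul_sum_sq (s := Finset.Icc 1 M) (f := fun m => ‖z m‖)
    rwa [Nat.card_Icc, Nat.add_sub_cancel] at this
  have h4 : 0 ≤ ∑ m ∈ Finset.Icc 1 M, ‖z m‖ ^ 2 := Finset.sum_nonneg fun _ _ => by positivity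
  have hMn : (0 : ℝ) ≤ M := Nat.cast_nonneg M
  calc w * ∑ m ∈ Finset.Icc 1 M, ‖z m‖ ^ 2 + 2 * M * (∑ m ∈ Finset.Icc 1 M, ‖z m‖) ^ 2 ≤
      w * ∑ m ∈ Finset.Icc 1 M, ‖z m‖ ^ 2 +
        2 * M * (M * ∑ m ∈ Finset.Icc 1 M, ‖z m‖ ^ 2) := by gcongr
    _ = (w + 2 * (M : ℝ) ^ 2) * ∑ m ∈ Finset.Icc 1 M, ‖z m‖ ^ 2 := by ring
    _ ≤ _ := mul_le_mul_of_nonneg_right (by linarith) h4

theorem lsw_triv {ι : Type} (s : Finset ι) (a : ι → ℕ → ℂ) (c : ℕ → ℂ) (M : ℕ) {w d : ℝ}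
    (hw : 0 < w) (hM : 2 * (M : ℝ) ^ 2 ≤ w)
    (ha : ∀ i ∈ s, ∀ n : ℕ, ‖a i n‖ ^ 2 ≤ d * (vonMangoldt n * ‖c n‖) ^ 2) :
    LSW s a c M w (2 * d * s.card * w) := by
  intro b t₁
  have h1 : ∀ i ∈ s, ∫ t in t₁..(t₁ + w), ‖∑ m ∈ Finset.Icc 1 M,
      b m * a i m * cexp (-(((t * Real.log m : ℝ) : ℂ) * I))‖ ^ 2 ≤
      2 * w * (d * ∑ m ∈ Finset.Icc 1 M, ‖b m‖ ^ 2 * (vonMangoldt m * ‖c m‖) ^ 2) := by
    intro i hi
    refine (mv_crude M (fun m => b m * a i m) hw hM t₁).trans ?_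
    refine mul_le_mul_of_nonneg_left ?_ (by positivity)
    rw [Finset.mul_sum]
    refine Finset.sum_le_sum fun m _ => ?_
    rw [norm_mul, mul_pow]
    calc ‖b m‖ ^ 2 * ‖a i m‖ ^ 2 ≤ ‖b m‖ ^ 2 * (d * (vonMangoldt m * ‖c m‖) ^ 2) :=
          mul_le_mul_of_nonneg_left (ha i hi m) (by positivity)
      _ = _ := by ring
  refine (Finset.sum_le_sum h1).trans (le_of_eq ?_)
  rw [Finset.sum_const, nsmul_eq_mul]
  ring

end Pool.Agent.N784.AD
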