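import Pool.Agent.N784.AD.Msp
import Pool.Agent.N786.Msw

/-!
# The mean square from a large sieve inequality with an off-diagonal term, II (helper784)
-/

open Complex Filter Topology Set MeasureTheory

set_option autoImplicit false
set_option linter.unusedVariables false

namespace Pool.Agent.N784.AD

open ArithmeticFunction (vonMangoldt)
open H385 W388 Pool.Agent.W398.LV Pool.Agent.Y655.HC
open Pool.Agent.Y773.IQ (a_bd2 split_q err_part)
open Pool.Agent.Y773.AB (Gw Gw_nonneg pp_bound)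
open Pool.Agent.N786 (LSW win_pt MSD sqrt_add_le')

/-- the off-diagonal term is bounded for large `u` -/
lemma EO_le {A0 A1 κ β L u : ℝ} (hκ : 0 < κ) (hβ : 0 < β) (hL : 0 ≤ L) (hA0 : 0 ≤ A0)
    (hA1 : 0 ≤ A1) (h0 : A0 ≤ Real.exp (κ * L / 2))
    (h1 : A1 * Real.exp (β * L) * (β * L + 1) ^ 2 ≤ 1) (hu : κ * L ≤ u) (hu2 : u ≤ β * L) :
    EO A0 A1 u ≤ 17 := by
  have hu0 : 0 ≤ u := le_trans (by positivity) hu
  unfold EO
  rw [mul_add]
  have e1 : (u + 1) ^ 2 * (A0 * Real.exp (-u)) ≤ 16 := by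
    have f1 : A0 ≤ Real.exp (u / 2) := h0.trans (Real.exp_le_exp.mpr (by linarith))
    have f2 : (u + 1) ≤ 4 * Real.exp (u / 4) := by
      have := Real.add_one_le_exp (u / 4)
      linarith
    have f3 : (u + 1) ^ 2 ≤ 16 * Real.exp (u / 2) := by
      calc (u + 1) ^ 2 ≤ (4 * Real.exp (u / 4)) ^ 2 := pow_le_pow_left₀ (by linarith) f2 2
        _ = 16 * (Real.exp (u / 4) ^ 2) := by ring
        _ = _ := by rw [← Real.exp_nat_mul]; congr 2; push_cast; ring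
    calc (u + 1) ^ 2 * (A0 * Real.exp (-u)) ≤
        (16 * Real.exp (u / 2)) * (Real.exp (u / 2) * Real.exp (-u)) := by gcongr
      _ = 16 * (Real.exp (u / 2) * Real.exp (u / 2) * Real.exp (-u)) := by ring
      _ = 16 := by
          rw [← Real.exp_add, ← Real.exp_add]
          have : u / 2 + u / 2 + -u = 0 := by ring
          rw [this, Real.exp_zero, mul_one]
  have e2 : (u + 1) ^ 2 * (A1 * Real.exp u) ≤ 1 := by
    refine le_trans ?_ h1
    calc (u + 1) ^ 2 * (A1 * Real.exp u) = A1 * Real.exp u * (u + 1) ^ 2 := by ring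
      _ ≤ A1 * Real.exp (β * L) * (β * L + 1) ^ 2 := by
          have : Real.exp u ≤ Real.exp (β * L) := Real.exp_le_exp.mpr hu2
          have h3 : u + 1 ≤ β * L + 1 := by linarith
          gcongr
  linarith

/-- the cut-off -/
noncomputable def cut (κL u : ℝ) : ℝ := max 0 (2 - u / κL)

lemma cut_cont (x : ℝ) : Continuous (cut x) := by
  unfold cut
  exact continuous_const.max (continuous_const.sub (continuous_id.div_const _))

lemma cut_nonneg (x u : ℝ) : 0 ≤ cut x u := le_max_left _ _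

lemma cut_le {x u : ℝ} (hx : 0 < x) (hu : 0 ≤ u) : cut x u ≤ 2 := by
  unfold cut
  refine max_le (by norm_num) ?_
  have : 0 ≤ u / x := by positivity
  linarith

lemma one_le_cut {x u : ℝ} (hx : 0 < x) (hu : u ≤ x) : 1 ≤ cut x u := by
  unfold cut
  refine le_max_of_le_right ?_
  have : u / x ≤ 1 := by rw [div_le_one hx]; exact hu
  linarith

lemma cut_zero {x u : ℝ} (hx : 0 < x) (hu : 2 * x ≤ u) : cut x u = 0 := by
  unfold cut
  refine max_eq_left ?_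
  have : 2 ≤ u / x := by rw [le_div_iff₀ hx]; exact hu
  linarith

lemma num_large {K P Cp C0 T G Wn eo S X : ℝ} (hK : 0 ≤ K) (hP : 0 ≤ P) (hCp : 0 ≤ Cp)
    (hC0 : 0 ≤ C0) (hT : 1 ≤ T) (hG : 0 ≤ G) (hW : 0 ≤ Wn) (heo : eo ≤ 17) (hX : 0 ≤ X) :
    S + (T + C0) * (K * (1 + Cp + G) ^ 2 + P * eo) ≤
      (S + (T + C0) * ((2 * K * (1 + Cp) ^ 2 + P * 17) * (0 + 1) * (Wn + 1))) +
        (1 + C0) * (2 * K) * T * G ^ 2 + X := by
  have hsq : (1 + Cp + G) ^ 2 ≤ 2 * (1 + Cp) ^ 2 + 2 * G ^ 2 := by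
    nlinarith [sq_nonneg (G - (1 + Cp))]
  have c1 : K * (1 + Cp + G) ^ 2 ≤ K * (2 * (1 + Cp) ^ 2 + 2 * G ^ 2) :=
    mul_le_mul_of_nonneg_left hsq hK
  have c2 : P * eo ≤ P * 17 := mul_le_mul_of_nonneg_left heo hP
  obtain ⟨E, hE⟩ : ∃ E : ℝ, E = 2 * K * (1 + Cp) ^ 2 + P * 17 := ⟨_, rfl⟩
  have hE0 : 0 ≤ E := by rw [hE]; positivity
  have b1 : K * (1 + Cp + G) ^ 2 + P * eo ≤ E + 2 * K * G ^ 2 := by
    rw [hE]; linarith
  have b2 : T + C0 ≤ (1 + C0) * T := by nlinarith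
  have b3 : (T + C0) * (K * (1 + Cp + G) ^ 2 + P * eo) ≤ (T + C0) * (E + 2 * K * G ^ 2) :=
    mul_le_mul_of_nonneg_left b1 (by positivity)
  have b4 := mul_le_mul_of_nonneg_right b2 (show 0 ≤ 2 * K * G ^ 2 by positivity)
  have b5 : (T + C0) * E ≤ (T + C0) * (E * (0 + 1) * (Wn + 1)) := by
    refine mul_le_mul_of_nonneg_left ?_ (by positivity)
    have := mul_nonneg hE0 hW
    linarith
  rw [← hE]
  linarith

lemma num_small {d T S1 S2 C0 y χ b : ℝ} (hd : 0 ≤ d) (hT : 1 ≤ T) (hS1 : 0 ≤ S1)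
    (hS2 : 0 ≤ S2) (h12 : S1 ≤ S2) (hC0 : 0 ≤ C0) (hy : 0 ≤ y) (hb : 0 ≤ b) (hχ : 1 ≤ χ) :
    (1 + 1) * (2 * d) * ((1 + 1) * ((T + T) / (2 * Real.pi) * S1) +
        (1 + 1 / 1) * (11 * T * S2)) + (T + C0) * ((1 + 1 / 1) * d ^ 2) ≤
      y + b + T * (96 * d + 2 * (1 + C0) * d ^ 2) * (χ * (S2 + 1)) := by
  have hpi := Real.pi_gt_three
  have g1 : (T + T) / (2 * Real.pi) * S1 ≤ T * S2 := by
    have : (T + T) / (2 * Real.pi) ≤ T := by
      rw [div_le_iff₀ (by positivity)]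
      nlinarith
    exact mul_le_mul this h12 hS1 (by linarith)
  have g2 : (1 + 1) * (2 * d) * ((1 + 1) * ((T + T) / (2 * Real.pi) * S1) +
      (1 + 1 / 1) * (11 * T * S2)) ≤ T * (96 * d * S2) := by
    calc _ ≤ (1 + 1) * (2 * d) * ((1 + 1) * (T * S2) + (1 + 1 / 1) * (11 * T * S2)) := by gcongr
      _ = _ := by ring
  have g3 : (T + C0) * ((1 + 1 / 1) * d ^ 2) ≤ T * (2 * (1 + C0) * d ^ 2) := by
    have b2 : T + C0 ≤ (1 + C0) * T := by nlinarith
    calc _ ≤ ((1 + C0) * T) * ((1 + 1 / 1) * d ^ 2) :=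
          mul_le_mul_of_nonneg_right b2 (by positivity)
      _ = _ := by ring
  have g4 : S2 + 1 ≤ χ * (S2 + 1) := by nlinarith
  have g5 : T * (96 * d + 2 * (1 + C0) * d ^ 2) * (S2 + 1) ≤
      T * (96 * d + 2 * (1 + C0) * d ^ 2) * (χ * (S2 + 1)) :=
    mul_le_mul_of_nonneg_left g4 (by positivity)
  have g6 : T * (96 * d * S2) + T * (2 * (1 + C0) * d ^ 2) ≤
      T * (96 * d + 2 * (1 + C0) * d ^ 2) * (S2 + 1) := by
    have h1 : 0 ≤ T * (96 * d) := by positivity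
    have h2 : 0 ≤ T * (2 * (1 + C0) * d ^ 2) * S2 := by positivity
    nlinarith
  linarith

lemma M_small {x T κ L : ℝ} (hx : x = κ * L) (h1 : 1 ≤ x) (hT : Real.exp (5 * κ * L) ≤ T) :
    2 * ((⌊Real.exp (5 / 3 * x)⌋₊ : ℕ) : ℝ) ^ 2 ≤ T := by
  have g1 : ((⌊Real.exp (5 / 3 * x)⌋₊ : ℕ) : ℝ) ≤ Real.exp (5 / 3 * x) :=
    Nat.floor_le (Real.exp_pos _).le
  have g2 : ((⌊Real.exp (5 / 3 * x)⌋₊ : ℕ) : ℝ) ^ 2 ≤
      Real.exp (5 / 3 * x) ^ 2 := pow_le_pow_left₀ (Nat.cast_nonneg _) g1 2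
  have g3 : (2 : ℝ) ≤ Real.exp x := by
    have := Real.add_one_le_exp x
    linarith
  have g4 : Real.exp x * Real.exp (5 / 3 * x) ^ 2 ≤ Real.exp (5 * κ * L) := by
    rw [← Real.exp_nat_mul, ← Real.exp_add]
    refine Real.exp_le_exp.mpr ?_
    push_cast
    have : 5 * κ * L = 5 * x := by rw [hx]; ring
    rw [this]
    linarith
  calc 2 * ((⌊Real.exp (5 / 3 * x)⌋₊ : ℕ) : ℝ) ^ 2 ≤
      Real.exp x * Real.exp (5 / 3 * x) ^ 2 := by gcongr
    _ ≤ Real.exp (5 * κ * L) := g4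
    _ ≤ T := hT

/-- the integral of the part of the small `u` -/
lemma int_small {c : ℕ → ℂ} {Cs : ℝ} (hs : SmC c Cs) (hCs : 0 < Cs) (γ β κ L C6 T : ℝ)
    (h0 : 0 < γ) (hπ : γ < Real.pi) (hβ : 0 < β) (hκ : 0 < κ) (hκβ : 2 * κ ≤ β)
    (hL : 0 < L) (hκL : 1 ≤ κ * L) (hC6 : 0 ≤ C6) (hT : 0 ≤ T) :
    2 / (Real.sqrt Real.pi * (β * L)) * ∫ u in (0 : ℝ)..(β * L), Rw γ (u / (β * L)) *
      (T * C6 * (cut (κ * L) u * (SWu c (1 / 2) u + 1))) ≤
    T / (2 * Real.pi) * L * ((2 / (Real.sqrt Real.pi * β) *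
      (Rw γ 0 * (2 * C6 * (9 * Cs + 2))) * (2 * Real.pi)) * κ ^ 2) := by
  have hpi := Real.pi_pos
  have hspi : 0 < Real.sqrt Real.pi := Real.sqrt_pos.mpr hpi
  have hsc := hs.sc (1 / 2) (by norm_num)
  have hSn : ∀ u, 0 ≤ SWu c (1 / 2) u := SWu_nonneg c (1 / 2)
  have hR0 : 0 ≤ Rw γ 0 := Rw_nonneg γ h0 hπ 0
  have hβL0 : 0 < β * L := by positivity
  have hκL0 : 0 < κ * L := by positivity
  have hκL2 : 2 * (κ * L) ≤ β * L := by
    calc 2 * (κ * L) = (2 * κ) * L := by ring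
      _ ≤ β * L := mul_le_mul_of_nonneg_right hκβ hL.le
  have hRc : Continuous fun u : ℝ => Rw γ (u / (β * L)) :=
    (Rw_cont γ h0 hπ).comp (continuous_id.div_const _)
  have hCc : Continuous (fun u : ℝ => cut (κ * L) u * (SWu c (1 / 2) u + 1)) :=
    (cut_cont (κ * L)).mul (hsc.add continuous_const)
  have hF : Continuous (fun u : ℝ => Rw γ (u / (β * L)) *
      (T * C6 * (cut (κ * L) u * (SWu c (1 / 2) u + 1)))) :=
    hRc.mul (continuous_const.mul hCc)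
  have e1 : ∫ u in (0 : ℝ)..(β * L), Rw γ (u / (β * L)) *
      (T * C6 * (cut (κ * L) u * (SWu c (1 / 2) u + 1))) ≤
      Rw γ 0 * (2 * (T * C6)) * (Cs * (2 * (κ * L) + 1) ^ 2 + 2 * (κ * L)) := by
    rw [← intervalIntegral.integral_add_adjacent_intervals
      (hF.intervalIntegrable 0 (2 * (κ * L))) (hF.intervalIntegrable (2 * (κ * L)) (β * L))]
    have z : ∫ u in (2 * (κ * L))..(β * L), Rw γ (u / (β * L)) *
        (T * C6 * (cut (κ * L) u * (SWu c (1 / 2) u + 1))) = 0 := by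
      rw [intervalIntegral.integral_congr (g := fun _ => (0 : ℝ)), intervalIntegral.integral_zero]
      intro u hu
      rw [Set.uIcc_of_le hκL2] at hu
      simp only
      rw [cut_zero hκL0 hu.1]
      ring
    rw [z, add_zero]
    have f1 : ∫ u in (0 : ℝ)..(2 * (κ * L)), Rw γ (u / (β * L)) *
        (T * C6 * (cut (κ * L) u * (SWu c (1 / 2) u + 1))) ≤
        ∫ u in (0 : ℝ)..(2 * (κ * L)), Rw γ 0 * (2 * (T * C6)) * (SWu c (1 / 2) u + 1) := by
      refine intervalIntegral.integral_mono_on (by positivity) (hF.intervalIntegrable _ _)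
        ((continuous_const.mul (hsc.add continuous_const)).intervalIntegrable _ _) fun u hu => ?_
      have r1 := Rw_le γ h0 hπ (u / (β * L)) (div_nonneg hu.1 hβL0.le)
      have r2 := cut_le (x := κ * L) hκL0 hu.1
      have r3 := cut_nonneg (κ * L) u
      have r4 := hSn u
      calc Rw γ (u / (β * L)) * (T * C6 * (cut (κ * L) u * (SWu c (1 / 2) u + 1))) ≤
          Rw γ 0 * (T * C6 * (2 * (SWu c (1 / 2) u + 1))) := by gcongr
        _ = _ := by ring
    refine f1.trans ?_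
    rw [intervalIntegral.integral_const_mul]
    refine mul_le_mul_of_nonneg_left ?_ (by positivity)
    rw [intervalIntegral.integral_add (hsc.intervalIntegrable _ _)
      (continuous_const.intervalIntegrable _ _), intervalIntegral.integral_const, smul_eq_mul,
      sub_zero, mul_one]
    have := hs.sint (2 * (κ * L)) (by positivity)
    linarith
  have e2 : Cs * (2 * (κ * L) + 1) ^ 2 + 2 * (κ * L) ≤ (9 * Cs + 2) * (κ * L) ^ 2 := by
    have f1 : (2 * (κ * L) + 1) ^ 2 ≤ (3 * (κ * L)) ^ 2 :=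
      pow_le_pow_left₀ (by positivity) (by linarith) 2
    have f2 : κ * L ≤ (κ * L) ^ 2 := by nlinarith
    have f3 := mul_le_mul_of_nonneg_left f1 hCs.le
    have f4 : Cs * (3 * (κ * L)) ^ 2 = 9 * Cs * (κ * L) ^ 2 := by ring
    linarith
  calc _ ≤ 2 / (Real.sqrt Real.pi * (β * L)) *
        (Rw γ 0 * (2 * (T * C6)) * ((9 * Cs + 2) * (κ * L) ^ 2)) := by
        refine mul_le_mul_of_nonneg_left ?_ (by positivity)
        refine e1.trans ?_
        gcongr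
    _ = _ := by
        field_simp

end Pool.Agent.N784.AD
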