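import Pool.Agent.N784.AD.Msp2

/-!
# The mean square from a large sieve inequality with an off-diagonal term, III (helper784)
-/

open Complex Filter Topology Set MeasureTheory

set_option autoImplicit false
set_option linter.unusedVariables false

namespace Pool.Agent.N784.AD

open ArithmeticFunction (vonMangoldt)
open H385 W388 Pool.Agent.W398.LV Pool.Agent.Y655.HC
open Pool.Agent.Y773.IQ (a_bd2 split_q err_part)
open Pool.Agent.N786 (LSW win_pt MSD sqrt_add_le')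

/-- the majorant -/
noncomputable def YP (c : ℕ → ℂ) (D1 T L C E B C6 x : ℝ) (q : ℕ) (u : ℝ) : ℝ :=
  YE c D1 T L C E 0 u + B * T * Gq q u ^ 2 + T * C6 * (cut x u * (SWu c (1 / 2) u + 1))

lemma YP_cont {c : ℕ → ℂ} {Cs : ℝ} (hs : SmC c Cs) (D1 T L C E B C6 x : ℝ) (q : ℕ) :
    Continuous (YP c D1 T L C E B C6 x q) := by
  have hsc := hs.sc (1 / 2) (by norm_num)
  have hYEc := YE_cont hs D1 T L C E 0
  have hGc := Gq_cont q
  have hEc : Continuous (fun u : ℝ => B * T * Gq q u ^ 2) := by fun_prop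
  have hCc : Continuous (fun u : ℝ => cut x u * (SWu c (1 / 2) u + 1)) :=
    (cut_cont x).mul (hsc.add continuous_const)
  unfold YP
  exact (hYEc.add hEc).add (continuous_const.mul hCc)

lemma YE_nonneg' (c : ℕ → ℂ) {D1 T L C E : ℝ} (hD : 0 ≤ D1) (hT : 0 ≤ T) (hL : 0 ≤ L)
    (hC : 0 ≤ C) (hE : 0 ≤ E) (u : ℝ) : 0 ≤ YE c D1 T L C E 0 u := by
  unfold YE
  have hS1 := SWu_nonneg c 1 u
  have hS2 := SWu_nonneg c (1 / 2) u
  have hWu := Wu_nonneg c u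
  have hpi := Real.pi_pos
  positivity

/-- the integral of the majorant -/
lemma YP_int {c : ℕ → ℂ} {Cs : ℝ} (hs : SmC c Cs) (γ β D1 T L C E B C6 x : ℝ) (q : ℕ)
    (h0 : 0 < γ) (hπ : γ < Real.pi) {K b1 b2 b3 : ℝ}
    (m1 : K * (∫ u in (0 : ℝ)..(β * L), Rw γ (u / (β * L)) * YE c D1 T L C E 0 u) ≤ b1)
    (m2 : K * (∫ u in (0 : ℝ)..(β * L), Rw γ (u / (β * L)) * (B * T * Gq q u ^ 2)) ≤ b2)
    (m3 : K * (∫ u in (0 : ℝ)..(β * L), Rw γ (u / (β * L)) *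
      (T * C6 * (cut x u * (SWu c (1 / 2) u + 1)))) ≤ b3) :
    K * (∫ u in (0 : ℝ)..(β * L), Rw γ (u / (β * L)) * YP c D1 T L C E B C6 x q u) ≤
      b1 + b2 + b3 := by
  have hRc : Continuous fun u : ℝ => Rw γ (u / (β * L)) :=
    (Rw_cont γ h0 hπ).comp (continuous_id.div_const _)
  have hsc := hs.sc (1 / 2) (by norm_num)
  have hYEc := YE_cont hs D1 T L C E 0
  have hGc := Gq_cont q
  have hEc : Continuous (fun u : ℝ => B * T * Gq q u ^ 2) := by fun_prop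
  have hCc : Continuous (fun u : ℝ => T * C6 * (cut x u * (SWu c (1 / 2) u + 1))) :=
    continuous_const.mul ((cut_cont x).mul (hsc.add continuous_const))
  have h1 : Continuous fun u : ℝ => Rw γ (u / (β * L)) * YE c D1 T L C E 0 u := hRc.mul hYEc
  have h2 : Continuous fun u : ℝ => Rw γ (u / (β * L)) * (B * T * Gq q u ^ 2) := hRc.mul hEc
  have h3 : Continuous fun u : ℝ => Rw γ (u / (β * L)) *
    (T * C6 * (cut x u * (SWu c (1 / 2) u + 1))) := hRc.mul hCc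
  have h12 : Continuous fun u : ℝ => Rw γ (u / (β * L)) * YE c D1 T L C E 0 u +
    Rw γ (u / (β * L)) * (B * T * Gq q u ^ 2) := h1.add h2
  have e : ∀ u, Rw γ (u / (β * L)) * YP c D1 T L C E B C6 x q u =
      (Rw γ (u / (β * L)) * YE c D1 T L C E 0 u +
      Rw γ (u / (β * L)) * (B * T * Gq q u ^ 2)) + Rw γ (u / (β * L)) *
      (T * C6 * (cut x u * (SWu c (1 / 2) u + 1))) := by
    intro u
    unfold YP
    ring
  simp only [e]
  rw [intervalIntegral.integral_add (h12.intervalIntegrable _ _) (h3.intervalIntegrable _ _),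
    intervalIntegral.integral_add (h1.intervalIntegrable _ _) (h2.intervalIntegrable _ _)]
  linarith

lemma num_y {ε Ky C6 D L x y1 y2 y3 : ℝ} (hε : 0 < ε) (hKy : 0 ≤ Ky) (hC6 : 0 ≤ C6)
    (hD : 1 ≤ D) (hL1 : 1 ≤ L) (hy1 : 0 ≤ y1) (hy2 : 0 ≤ y2) (hy3 : 0 ≤ y3) (hx : 0 ≤ x)
    (hxL : x ≤ L)
    (hLK : 64 * Ky / ε ^ 2 ≤ L) (hLC : 128 * C6 / ε ^ 2 ≤ L)
    (m : Real.sqrt y1 + Real.sqrt y2 ≤ ε / (4 * D) * L * Real.sqrt D)
    (k : Real.sqrt y3 ≤ ε / 4 * L) :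
    Real.sqrt (y1 + Ky * x) + Real.sqrt (y2 + y3 + 2 * C6) ≤ ε * L := by
  have hD0 : 0 < D := by linarith
  have q1 : Real.sqrt D ≤ D := by
    rw [Real.sqrt_le_left (by linarith)]
    nlinarith
  have q2 : Real.sqrt y1 + Real.sqrt y2 ≤ ε / 4 * L := by
    refine m.trans ?_
    calc ε / (4 * D) * L * Real.sqrt D ≤ ε / (4 * D) * L * D := by gcongr
      _ = ε / 4 * L := by field_simp
  have q3 : Real.sqrt (Ky * x) ≤ ε / 8 * L := by
    rw [Real.sqrt_le_left (by positivity)]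
    rw [div_le_iff₀ (by positivity)] at hLK
    have : Ky * x ≤ Ky * L := mul_le_mul_of_nonneg_left hxL hKy
    have h2 : 64 * Ky * L ≤ L * ε ^ 2 * L := mul_le_mul_of_nonneg_right hLK (by linarith)
    nlinarith
  have q4 : Real.sqrt (2 * C6) ≤ ε / 8 * L := by
    rw [Real.sqrt_le_left (by positivity)]
    rw [div_le_iff₀ (by positivity)] at hLC
    have h2 : 128 * C6 * 1 ≤ L * ε ^ 2 * L :=
      mul_le_mul hLC hL1 (by norm_num) (by positivity)
    nlinarith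
  have q5 := sqrt_add_le' hy1 (show 0 ≤ Ky * x by positivity)
  have q6 := sqrt_add_le' (show 0 ≤ y2 + y3 by positivity) (show 0 ≤ 2 * C6 by positivity)
  have q7 := sqrt_add_le' hy2 hy3
  have : 0 < ε * L := by positivity
  linarith

/-- the pointwise bound of the last part -/
lemma num_cut {Cs C6 T x u S : ℝ} (hCs : 0 < Cs) (hC6 : 0 ≤ C6) (hT : 0 ≤ T) (hx : 1 ≤ x)
    (hu : 0 ≤ u) (hS : 0 ≤ S) (hS2 : S ≤ Cs * (u + 1) ^ 2) :
    T * C6 * (cut x u * (S + 1)) ≤ T * ((2 * C6 * Cs * 3) * x * (u + 1) + 2 * C6) := by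
  rcases le_or_gt (2 * x) u with h | h
  · rw [cut_zero (by linarith) h]
    have : 0 ≤ T * ((2 * C6 * Cs * 3) * x * (u + 1) + 2 * C6) := by positivity
    linarith
  · have h1 := cut_le (x := x) (u := u) (by linarith) hu
    have h2 : (u + 1) ^ 2 ≤ (3 * x) * (u + 1) := by
      rw [sq]
      exact mul_le_mul_of_nonneg_right (by linarith) (by linarith)
    have h3 : S + 1 ≤ Cs * ((3 * x) * (u + 1)) + 1 := by
      have := mul_le_mul_of_nonneg_left h2 hCs.le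
      linarith
    have h0 := cut_nonneg x u
    calc T * C6 * (cut x u * (S + 1)) ≤ T * C6 * (2 * (Cs * ((3 * x) * (u + 1)) + 1)) := by
          gcongr
      _ = _ := by ring

theorem msqP {c : ℕ → ℂ} (hsel : SelE c) (d D : ℝ) (hd : 1 ≤ d) (hD : 1 ≤ D) (γ β : ℝ)
    (h0 : 0 < γ) (hπ : γ < Real.pi) (hβ : 0 < β) (ε : ℝ) (hε : 0 < ε) :
    ∃ κ0 : ℝ, 0 < κ0 ∧ ∀ κ : ℝ, 0 < κ → κ ≤ κ0 → ∃ L0 : ℝ, 1 ≤ L0 ∧
    ∀ {ι : Type} (s : Finset ι) (a : ι → ℕ → ℂ) (q : ℕ) (L T A0 A1 : ℝ), s.Nonempty → L0 ≤ L →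
      L ^ 2 ≤ T → T ≤ Real.exp (L ^ 2) → Real.exp (5 * κ * L) ≤ T → 1 ≤ q →
      Real.log q ≤ d * L → (∀ i ∈ s, ∀ n : ℕ, ‖a i n‖ ≤ d * vonMangoldt n) →
      (∀ i ∈ s, ∀ n : ℕ, ‖a i n‖ ^ 2 ≤ d * (vonMangoldt n * ‖c n‖) ^ 2) →
      0 ≤ A0 → 0 ≤ A1 → LSG s a c q (D * s.card) A0 A1 → A0 ≤ Real.exp (κ * L / 2) →
      A1 * Real.exp (β * L) * (β * L + 1) ^ 2 ≤ 1 →
      MSD s (fun _ => (s.card : ℝ)⁻¹) a γ β (2 * β * (∫ α in (0 : ℝ)..1, α * Rw γ α) * D) ε L T := by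
  have hD0 : 0 < D := by linarith
  have hd0 : 0 < d := by linarith
  have hpi := Real.pi_pos
  have hspi : 0 < Real.sqrt Real.pi := Real.sqrt_pos.mpr hpi
  have hε' : 0 < ε / (4 * D) := by positivity
  obtain ⟨s1, s2, s3, s4, ⟨Cs, hCs, s5, s6, s7, s8⟩, s9⟩ := Pool.Agent.W261.TW.t_smooth c hsel
  obtain ⟨n1, -, -, -⟩ := W566TW.t_noncop c hsel
  have hcm : MeanC c := ⟨n1, s2⟩
  have hs : SmC c Cs := ⟨s3, s4, s5, s6, s7, s8, s9⟩
  clear s1 s3 s4 s5 s6 s8 s9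
  obtain ⟨ε1, hε1, hε1', hfin⟩ := YF_final hcm hCs hs γ β h0 hπ hβ (ε / (4 * D)) hε'
  obtain ⟨C0, Cp, hC0, hCp, hint⟩ := int_ptP hcm
  obtain ⟨C0', hC0', hwin⟩ := win_pt hcm
  obtain ⟨δ, hδd⟩ : ∃ δ : ℝ, δ = ε1 / 2 := ⟨_, rfl⟩
  have hδ : 0 < δ := by rw [hδd]; positivity
  obtain ⟨Lt, hLt, htail⟩ := tail_leY 1 (1 / 6) (by norm_num) (by norm_num)
  -- constants
  obtain ⟨K, hK⟩ : ∃ K : ℝ, K = (1 + 1 / δ) * d ^ 2 := ⟨_, rfl⟩
  have hK0 : 0 < K := by rw [hK]; positivity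
  obtain ⟨D1, hD1⟩ : ∃ D1 : ℝ, D1 = (1 + δ) * D := ⟨_, rfl⟩
  have hD10 : 0 < D1 := by rw [hD1]; positivity
  have hD1n : 0 ≤ D1 := hD10.le
  obtain ⟨E, hEd⟩ : ∃ E : ℝ, E = 2 * K * (1 + Cp) ^ 2 + D1 * 17 := ⟨_, rfl⟩
  have hE0 : 0 < E := by rw [hEd]; positivity
  obtain ⟨L1, hL1, hY⟩ := hfin C0 E hC0 hE0
  clear hfin
  obtain ⟨B, hBd⟩ : ∃ B : ℝ, B = (1 + C0) * (2 * K) := ⟨_, rfl⟩
  have hB : 0 < B := by rw [hBd]; positivity
  obtain ⟨L2, hL2, herr⟩ := err_part γ β (ε / 4) B d h0 hπ hβ (by positivity) hB hd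
  obtain ⟨C6, hC6⟩ : ∃ C6 : ℝ, C6 = 96 * d + 2 * (1 + C0') * d ^ 2 := ⟨_, rfl⟩
  have hC60 : 0 < C6 := by rw [hC6]; positivity
  obtain ⟨Kc, hKc⟩ : ∃ Kc : ℝ, Kc = 2 / (Real.sqrt Real.pi * β) *
    (Rw γ 0 * (2 * C6 * (9 * Cs + 2))) * (2 * Real.pi) := ⟨_, rfl⟩
  have hKc0 : 0 ≤ Kc := by
    have := Rw_nonneg γ h0 hπ 0
    rw [hKc]; positivity
  obtain ⟨κ0, hκ0d⟩ : ∃ κ0 : ℝ, κ0 = min (min (β / 2) 1) (ε / (4 * (Kc + 1))) := ⟨_, rfl⟩
  have hκ0 : 0 < κ0 := by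
    rw [hκ0d]
    exact lt_min (lt_min (by positivity) one_pos) (by positivity)
  refine ⟨κ0, hκ0, fun κ hκ hκκ0 => ?_⟩
  have hκβ : 2 * κ ≤ β := by
    have : κ0 ≤ β / 2 := by rw [hκ0d]; exact (min_le_left _ _).trans (min_le_left _ _)
    linarith
  have hκ1 : κ ≤ 1 := by
    have : κ0 ≤ 1 := by rw [hκ0d]; exact (min_le_left _ _).trans (min_le_right _ _)
    linarith
  have hκK : Kc * κ ^ 2 ≤ ε / 4 := by
    have h1 : κ ≤ ε / (4 * (Kc + 1)) := by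
      refine hκκ0.trans ?_
      rw [hκ0d]; exact min_le_right _ _
    have h2 : κ ^ 2 ≤ κ := by
      rw [sq]
      calc κ * κ ≤ κ * 1 := mul_le_mul_of_nonneg_left hκ1 hκ.le
        _ = κ := mul_one _
    calc Kc * κ ^ 2 ≤ Kc * (ε / (4 * (Kc + 1))) :=
          mul_le_mul_of_nonneg_left (h2.trans h1) hKc0
      _ = ε / 4 * (Kc / (Kc + 1)) := by field_simp
      _ ≤ ε / 4 * 1 := by
          refine mul_le_mul_of_nonneg_left ?_ (by positivity)
          rw [div_le_one (by positivity)]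
          linarith
      _ = ε / 4 := mul_one _
  -- the constants for `y1`, `y2`
  obtain ⟨Ky, hKy⟩ : ∃ Ky : ℝ, Ky = 2 * C6 * Cs * 3 := ⟨_, rfl⟩
  have hKy0 : 0 < Ky := by rw [hKy]; positivity
  refine ⟨max (max (max L1 L2) (max (Lt / β) (Lt / κ))) (max (max 1 (1 / κ))
    (max (64 * Ky / ε ^ 2) (128 * C6 / ε ^ 2))), ?_, ?_⟩
  · exact ((le_max_left _ _).trans (le_max_left _ _)).trans (le_max_right _ _)
  intro ι s a q L T A0 A1 hsne hL hT hT2 hTκ hq hlogq ha ha2 hA0 hA1 hLS hA0e hA1e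
  have hLL1 : L1 ≤ L :=
    (((le_max_left _ _).trans (le_max_left _ _)).trans (le_max_left _ _)).trans hL
  have hLL2 : L2 ≤ L :=
    (((le_max_right _ _).trans (le_max_left _ _)).trans (le_max_left _ _)).trans hL
  have hLt1 : Lt / β ≤ L :=
    (((le_max_left _ _).trans (le_max_right _ _)).trans (le_max_left _ _)).trans hL
  have hLt2 : Lt / κ ≤ L :=
    (((le_max_right _ _).trans (le_max_right _ _)).trans (le_max_left _ _)).trans hL
  have hLge1 : 1 ≤ L :=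
    (((le_max_left _ _).trans (le_max_left _ _)).trans (le_max_right _ _)).trans hL
  have hLκ : 1 / κ ≤ L :=
    (((le_max_right _ _).trans (le_max_left _ _)).trans (le_max_right _ _)).trans hL
  have hLK : 64 * Ky / ε ^ 2 ≤ L :=
    (((le_max_left _ _).trans (le_max_right _ _)).trans (le_max_right _ _)).trans hL
  have hLC : 128 * C6 / ε ^ 2 ≤ L :=
    (((le_max_right _ _).trans (le_max_right _ _)).trans (le_max_right _ _)).trans hL
  clear hL
  have hTn : 1 ≤ T := (one_le_pow₀ hLge1).trans hT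
  have hT0 : 0 ≤ T := by linarith
  have hcard : (0 : ℝ) < s.card := by exact_mod_cast hsne.card_pos
  have hW : ∑ i ∈ s, (s.card : ℝ)⁻¹ = 1 := by
    rw [Finset.sum_const, nsmul_eq_mul]
    exact mul_inv_cancel₀ hcard.ne'
  have hκL : 1 ≤ κ * L := by
    rw [div_le_iff₀ hκ] at hLκ
    linarith
  have hL0 : 0 < L := by linarith
  have hβL : 2 * (κ * L) ≤ β * L := by
    calc 2 * (κ * L) = (2 * κ) * L := by ring
      _ ≤ β * L := mul_le_mul_of_nonneg_right hκβ hL0.le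
  have hΛ0 : 0 < β * L := by positivity
  have hκL0 : 0 < κ * L := by positivity
  have hD1W : D1 ≤ (1 + 11 * ε1) * D := by
    rw [hD1]
    refine mul_le_mul_of_nonneg_right ?_ hD0.le
    rw [hδd]
    linarith
  obtain ⟨y1, y2, hy1, hy2, m1, m2, m3⟩ := hY L T D1 D 0 hLL1 le_rfl hT (by linarith) hD1n hD1W
  obtain ⟨y3, hy3, k1, k2, k3⟩ := herr q L T hq hLL2 hlogq hTn
  clear hY herr
  -- the tail bound
  have hta : ∀ v u : ℝ, Lt ≤ v → 0 ≤ u → u ≤ v →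
      ∑' n : ℕ, (if ⌊(Real.exp (2 * v)) ^ (1 - (1 / 6 : ℝ))⌋₊ < n then
        vonMangoldt n * Real.exp (-(u - Real.log n) ^ 2 / 4) else 0) ≤ 1 := by
    intro v u hv hu0 huv
    have hlog : Real.log (Real.sqrt (Real.exp (2 * v))) = v := by
      rw [Real.log_sqrt (Real.exp_pos _).le, Real.log_exp]
      ring
    refine htail (Real.exp (2 * v)) u (Real.exp_pos _) ?_ hu0 ?_
    · rw [hlog]; exact hv
    · rw [hlog, one_mul]; exact huv
  clear htail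
  refine ⟨YP c D1 T L C0 E B C6 (κ * L) q, y1 + Ky * (κ * L), y2 + y3 + 2 * C6, by positivity,
    by positivity, ?_, ?_, (YP_cont hs _ _ _ _ _ _ _ _ _).intervalIntegrable _ _, ?_, ?_⟩
  · -- the mean square
    intro u hu
    rcases le_or_gt (κ * L) u with hku | hku
    · -- large `u`
      have ht := hta (β * L) u (by rw [div_le_iff₀ hβ] at hLt1; linarith) hu.1 hu.2
      have h := hint δ d D hδ hd0.le hD0.le s a
        ⌊(Real.exp (2 * (β * L))) ^ (1 - (1 / 6 : ℝ))⌋₊ q T L u A0 A1 hsne hq hu.1 hLge1 hTn hT2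
        hA0 hA1 ha hLS ht
      refine h.trans ?_
      have hEO := EO_le hκ hβ hL0.le hA0 hA1 hA0e hA1e hku hu.2
      have hX : 0 ≤ T * C6 * (cut (κ * L) u * (SWu c (1 / 2) u + 1)) := by
        have := cut_nonneg (κ * L) u
        have := SWu_nonneg c (1 / 2) u
        positivity
      rw [← hK, ← hD1]
      unfold YP YE
      rw [hEd, hBd]
      exact num_large hK0.le hD1n hCp.le hC0.le hTn (Gq_nonneg q u) (Wu_nonneg c u) hEO hX
    · -- small `u`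
      have ht := hta (κ * L) u (by rw [div_le_iff₀ hκ] at hLt2; linarith) hu.1 hku.le
      have hMe : (Real.exp (2 * (κ * L))) ^ (1 - (1 / 6 : ℝ)) = Real.exp (5 / 3 * (κ * L)) := by
        rw [← Real.exp_mul]
        congr 1
        ring
      rw [hMe] at ht
      have hM := M_small rfl hκL hTκ
      have hLSW := lsw_triv s a c ⌊Real.exp (5 / 3 * (κ * L))⌋₊ (w := T) (d := d) (by linarith)
        hM ha2
      have h := hwin 1 d (2 * d) one_pos hd0.le (by positivity) s a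
        ⌊Real.exp (5 / 3 * (κ * L))⌋₊ T T u hsne hTn hT0 ha hLSW ht
      refine h.trans ?_
      unfold YP
      rw [hC6]
      exact num_small hd0.le hTn (SWu_nonneg c 1 u) (SWu_nonneg c (1 / 2) u) (SWu_anti hcm u)
        hC0'.le (YE_nonneg' c hD1n hT0 hL0.le hC0.le hE0.le u)
        (mul_nonneg (mul_nonneg hB.le hT0) (sq_nonneg _)) (one_le_cut hκL0 hku.le)
  · -- pointwise bound
    intro u hu
    have b1 := m1 u hu
    have b2 := k1 u hu
    have b3 := num_cut hCs hC60.le hT0 hκL hu.1 (SWu_nonneg c (1 / 2) u) (s7 u hu.1)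
    rw [← hKy] at b3
    unfold YP
    calc _ ≤ T * (y1 * (u + 1) + y2) + T * y3 + T * (Ky * (κ * L) * (u + 1) + 2 * C6) :=
          add_le_add (add_le_add b1 b2) b3
      _ = _ := by ring
  · -- the integral
    have i3 := int_small hs hCs γ β κ L C6 T h0 hπ hβ hκ hκβ hL0 hκL hC60.le hT0
    rw [← hKc] at i3
    have i4 := YP_int hs γ β D1 T L C0 E B C6 (κ * L) q h0 hπ m3 k3 i3
    refine i4.trans ?_
    rw [hW]
    have hTL : 0 ≤ T / (2 * Real.pi) * L := by positivity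
    have e5 : T / (2 * Real.pi) * L * D * (2 * β * (∫ α in (0 : ℝ)..1, α * Rw γ α) +
        ε / (4 * D)) =
        T / (2 * Real.pi) * L * (2 * β * (∫ α in (0 : ℝ)..1, α * Rw γ α) * D + ε / 4) := by
      field_simp
    rw [e5]
    have e6 := mul_le_mul_of_nonneg_left hκK hTL
    have e7 : 0 ≤ T / (2 * Real.pi) * L * (ε / 4) := by positivity
    linarith
  · rw [hW, Real.sqrt_one, mul_one]
    exact num_y hε hKy0.le hC60.le hD hLge1 hy1 hy2 hy3 hκL0.le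
      (by calc κ * L ≤ 1 * L := mul_le_mul_of_nonneg_right hκ1 hL0.le
            _ = L := one_mul L) hLK hLC m2 k2

end Pool.Agent.N784.AD
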