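import Pool.Agent.N784.AD.Num
import Pool.Agent.N784.AD.Conv
import Pool.Agent.N784.AD.Msp3
import Pool.Agent.N784.AD.CoreP
import Pool.Agent.N786.Zer
import Pool.Agent.Y773.IQ.Asm

/-! # The parameters (helper784) -/

set_option autoImplicit false
set_option linter.unusedSectionVars false
set_option linter.unusedVariables false

open NumberField Filter Topology MeasureTheory

namespace Pool.Agent.N784.AD

open Pool.Agent.Y773 (LI cc)
open Pool.Agent.Y767 (Cls cK)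
open Pool.Agent.Y773.IQ (Fam cd cd_spec LL LL_eq absNorm_pos')
open Pool.Agent.N786 (kc)
open H370 (zset NN Ns Nd)
open H385 (Rw)
open Pool.Agent.W354 (LogC)
open Y767.WH (GoodH)
open ArithmeticFunction (vonMangoldt)

lemma exp_dom (e C : ℝ) (he : 0 < e) : ∃ x0 : ℝ, 1 ≤ x0 ∧ ∀ x : ℝ, x0 ≤ x →
    C * (x + 1) ^ 2 ≤ Real.exp (e * x) := by
  have h1 : Tendsto (fun x : ℝ => (|C| * 4) * (x ^ 2 * Real.exp (-(e * x)))) atTop (𝓝 0) := by
    have h2 := Real.tendsto_pow_mul_exp_neg_atTop_nhds_zero 2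
    have h3 : Tendsto (fun x : ℝ => e * x) atTop atTop := tendsto_id.const_mul_atTop he
    have h4 := h2.comp h3
    have h5 := h4.const_mul (|C| * 4 / e ^ 2)
    rw [mul_zero] at h5
    refine h5.congr fun x => ?_
    simp only [Function.comp]
    field_simp
  have h2 := (h1.eventually_le_const (show (0 : ℝ) < 1 by norm_num)).and (eventually_ge_atTop 1)
  obtain ⟨x0, hx0⟩ := h2.exists_forall_of_atTop
  refine ⟨max x0 1, le_max_right _ _, fun x hx => ?_⟩
  obtain ⟨h3, h4⟩ := hx0 x ((le_max_left _ _).trans hx)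
  have h5 : C * (x + 1) ^ 2 ≤ |C| * 4 * x ^ 2 := by
    have a1 : (x + 1) ^ 2 ≤ (2 * x) ^ 2 := pow_le_pow_left₀ (by linarith) (by linarith) 2
    calc C * (x + 1) ^ 2 ≤ |C| * (x + 1) ^ 2 :=
          mul_le_mul_of_nonneg_right (le_abs_self C) (sq_nonneg _)
      _ ≤ |C| * (2 * x) ^ 2 := mul_le_mul_of_nonneg_left a1 (abs_nonneg _)
      _ = _ := by ring
  refine h5.trans ?_
  have h6 : |C| * 4 * x ^ 2 = (|C| * 4 * (x ^ 2 * Real.exp (-(e * x)))) * Real.exp (e * x) := by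
    rw [Real.exp_neg]
    field_simp
  rw [h6]
  calc _ ≤ 1 * Real.exp (e * x) := mul_le_mul_of_nonneg_right h3 (Real.exp_pos _).le
    _ = _ := one_mul _

/-- the relations between the parameters -/
lemma par_rel {N T d h η1 L : ℝ} (hN : 1 ≤ N) (hT : 0 < T) (hd : 1 ≤ d) (hh : 0 < h)
    (hη1 : 0 < η1) (hL : L = Real.log N / d + Real.log T) (h1 : N ^ η1 ≤ T)
    (h2 : h * (Real.log N + d * Real.log T) ≤ Real.log N) :
    1 ≤ T ∧ 0 ≤ Real.log T ∧ Real.log N ≤ d * L ∧ h * d * L ≤ Real.log N ∧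
      Real.exp (η1 * h * d * L) ≤ T ∧ T ≤ Real.exp L := by
  have hd0 : 0 < d := by linarith
  have hN0 : 0 < N := by linarith
  have hΛ : 0 ≤ Real.log N := Real.log_nonneg hN
  have hT1 : 1 ≤ T := (Real.one_le_rpow hN hη1.le).trans h1
  have hlT : 0 ≤ Real.log T := Real.log_nonneg hT1
  have e1 : d * L = Real.log N + d * Real.log T := by
    rw [hL]; field_simp
  have e2 : h * d * L ≤ Real.log N := by
    rw [mul_assoc, e1]; exact h2
  have e3 : η1 * Real.log N ≤ Real.log T := by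
    have := Real.log_le_log (Real.rpow_pos_of_pos hN0 _) h1
    rwa [Real.log_rpow hN0] at this
  refine ⟨hT1, hlT, ?_, e2, ?_, ?_⟩
  · rw [e1]
    have : 0 ≤ d * Real.log T := by positivity
    linarith
  · rw [← Real.le_log_iff_exp_le hT]
    have : η1 * (h * d * L) ≤ η1 * Real.log N := mul_le_mul_of_nonneg_left e2 hη1.le
    linarith
  · rw [← Real.log_le_iff_le_exp hT, hL]
    have : 0 ≤ Real.log N / d := by positivity
    linarith

section

variable {K : Type} [Field K] [NumberField K]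

/-- the large sieve in the form `LSG` -/
lemma lsg_of {C : ℝ} (hC : 1 ≤ C)
    (hls : ∀ (𝔮 : Ideal (𝓞 K)) (_ : 𝔮 ≠ ⊥) (htop : 𝔮 ≠ ⊤)
    (Y : Finset (Ideal (𝓞 K) →*₀ ℂ)), (∀ ψ ∈ Y, ψ ∈ Fam 𝔮) → ∀ (M : ℕ) (b : ℕ → ℂ) (ω u : ℝ),
    0 ≤ ω → 0 ≤ u → (∀ n : ℕ, n.Prime → ‖b n‖ * Real.log n ≤ ω * gw u n) →
    ∑ ψ ∈ Y, ‖∑ m ∈ Finset.Icc 1 M, b m * (if m.Prime ∧ Nat.Coprime m (Ideal.absNorm 𝔮) then
      cc ψ m * (ArithmeticFunction.vonMangoldt m : ℂ) else 0)‖ ^ 2 ≤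
      Nat.card (Cls (pi1 htop)) * (∑ m ∈ Finset.Icc 1 M,
          ‖b m‖ ^ 2 * (ArithmeticFunction.vonMangoldt m * ‖cK K m‖) ^ 2 +
        ω ^ 2 * ((u + 1) ^ 2 * (C * Un 𝔮 * Real.exp (-u) +
          C * Un 𝔮 / (Ideal.absNorm 𝔮 : ℝ) * Real.exp u))))
    {𝔮 : Ideal (𝓞 K)} (hbot : 𝔮 ≠ ⊥) (htop : 𝔮 ≠ ⊤) {D : ℝ} (S : Finset (Ideal (𝓞 K) →*₀ ℂ))
    (hS : ∀ ψ ∈ S, ψ ∈ Fam 𝔮) (hD : (Nat.card (Cls (pi1 htop)) : ℝ) ≤ D * S.card) :
    LSG S (fun ψ m => cc ψ m * (ArithmeticFunction.vonMangoldt m : ℂ)) (cK K) (Ideal.absNorm 𝔮)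
      (D * S.card) (C * Un 𝔮) (C * Un 𝔮 / (Ideal.absNorm 𝔮 : ℝ)) := by
  intro M b ω u hω hu hb
  refine (hls 𝔮 hbot htop S hS M b ω u hω hu hb).trans ?_
  unfold EO
  refine mul_le_mul_of_nonneg_right hD ?_
  have hN : (1 : ℝ) ≤ (Ideal.absNorm 𝔮 : ℝ) := by exact_mod_cast absNorm_pos' hbot
  have h1 : 0 ≤ ∑ m ∈ Finset.Icc 1 M,
      ‖b m‖ ^ 2 * (ArithmeticFunction.vonMangoldt m * ‖cK K m‖) ^ 2 :=
    Finset.sum_nonneg fun m _ => by positivity
  positivity

end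

/-- the sizes of the off-diagonal coefficients -/
lemma par_A {N d h r κ δ C U L β : ℝ} (hN : 1 ≤ N) (hd : 1 ≤ d) (hC : 1 ≤ C) (hr0 : 0 < r)
    (hr1 : r < 1) (hκ : 0 < κ) (hδ : 0 < δ) (hδ1 : δ ≤ κ / (4 * d)) (hδ2 : δ ≤ (1 - r) / 2)
    (hU0 : 0 ≤ U) (hU : U ≤ N ^ δ) (hβ : β = h * d * r) (hh : 0 < h) (hL : 0 ≤ L)
    (e1 : Real.log N ≤ d * L) (e2 : h * d * L ≤ Real.log N)
    (g1 : C ≤ Real.exp (κ / 4 * L))
    (g2 : C * (Real.log N + 1) ^ 2 ≤ Real.exp ((1 - r) / 2 * Real.log N)) :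
    C * U ≤ Real.exp (κ * L / 2) ∧
      C * U / N * Real.exp (β * L) * (β * L + 1) ^ 2 ≤ 1 := by
  have hN0 : 0 < N := by linarith
  have hd0 : 0 < d := by linarith
  have hΛ : 0 ≤ Real.log N := Real.log_nonneg hN
  have hNδ : N ^ δ = Real.exp (δ * Real.log N) := by
    rw [Real.rpow_def_of_pos hN0, mul_comm]
  constructor
  · have h1 : U ≤ Real.exp (κ / 4 * L) := by
      refine hU.trans ?_
      rw [hNδ]
      refine Real.exp_le_exp.mpr ?_
      calc δ * Real.log N ≤ δ * (d * L) := mul_le_mul_of_nonneg_left e1 hδ.le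
        _ = (δ * d) * L := by ring
        _ ≤ κ / 4 * L := by
            refine mul_le_mul_of_nonneg_right ?_ hL
            rw [le_div_iff₀ (by positivity)] at hδ1
            linarith
    calc C * U ≤ Real.exp (κ / 4 * L) * Real.exp (κ / 4 * L) :=
          mul_le_mul g1 h1 hU0 (Real.exp_pos _).le
      _ = Real.exp (κ * L / 2) := by rw [← Real.exp_add]; congr 1; ring
  · have hβL : β * L ≤ r * Real.log N := by
      calc β * L = r * (h * d * L) := by rw [hβ]; ring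
        _ ≤ r * Real.log N := mul_le_mul_of_nonneg_left e2 hr0.le
    have hβL0 : 0 ≤ β * L := by rw [hβ]; positivity
    have hβL1 : β * L ≤ Real.log N := by
      have : r * Real.log N ≤ 1 * Real.log N := mul_le_mul_of_nonneg_right hr1.le hΛ
      linarith
    have h1 : Real.exp (β * L) ≤ Real.exp (r * Real.log N) := Real.exp_le_exp.mpr hβL
    have h2 : (β * L + 1) ^ 2 ≤ (Real.log N + 1) ^ 2 :=
      pow_le_pow_left₀ (by linarith) (by linarith) 2
    have hNe : N = Real.exp (Real.log N) := (Real.exp_log hN0).symm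
    have h3 : U ≤ Real.exp ((1 - r) / 2 * Real.log N) := by
      refine hU.trans ?_
      rw [hNδ]
      exact Real.exp_le_exp.mpr (mul_le_mul_of_nonneg_right hδ2 hΛ)
    have h4 : C * U / N * Real.exp (β * L) * (β * L + 1) ^ 2 ≤
        C * Real.exp ((1 - r) / 2 * Real.log N) / N * Real.exp (r * Real.log N) *
          (Real.log N + 1) ^ 2 := by
      gcongr
    refine h4.trans ?_
    have h5 : C * Real.exp ((1 - r) / 2 * Real.log N) / N * Real.exp (r * Real.log N) *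
          (Real.log N + 1) ^ 2 = (C * (Real.log N + 1) ^ 2) *
          (Real.exp ((1 - r) / 2 * Real.log N) * Real.exp (r * Real.log N) / N) := by ring
    rw [h5]
    have h6 : Real.exp ((1 - r) / 2 * Real.log N) * Real.exp (r * Real.log N) / N =
        Real.exp (-((1 - r) / 2 * Real.log N)) := by
      rw [div_eq_iff hN0.ne']
      nth_rewrite 4 [hNe]
      rw [← Real.exp_add, ← Real.exp_add]
      congr 1
      ring
    rw [h6]
    calc (C * (Real.log N + 1) ^ 2) * Real.exp (-((1 - r) / 2 * Real.log N)) ≤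
        Real.exp ((1 - r) / 2 * Real.log N) * Real.exp (-((1 - r) / 2 * Real.log N)) :=
          mul_le_mul_of_nonneg_right g2 (Real.exp_pos _).le
      _ = 1 := by rw [← Real.exp_add, add_neg_cancel, Real.exp_zero]

end Pool.Agent.N784.AD
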