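import Pool.Agent.Y773.IQ.Fam

/-! # Narrow ray classes modulo an arbitrary ideal, fields of arbitrary signature (helper784)

The fields without real places are in `Pool.Agent.Y773.IQ.Ray`. -/

set_option autoImplicit false
set_option linter.unusedSectionVars false

open NumberField

namespace Pool.Agent.N784.AD

open Pool.Agent.Y773 (TPos)
open Pool.Agent.Y767 (Mq Mq_cop Mq_ne_bot Mq_cancel isUnit_mk coprime_of_isUnit Cls cls cls_eq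
  cls_of_mul cls_pi cls_div ext_mon tpos_one tpos_mul tpos_of_mul)
open Pool.Agent.Y773.IQ (ne_zero_of_cop cop_mono cop_one cop_congr cop_mul exists_cop_lift
  exists_inv exists_mem_one exists_moving ofM' ofM'_pos ofM'_supp absNorm_pos' absNorm_lt)
open Pool.Agent.Y773.G (IsPrimChar)

section

variable {K : Type} [Field K] [NumberField K]

/-- totally positive representatives -/
lemma exists_tp (x : 𝓞 K) {𝔪 : Ideal (𝓞 K)} (h : 𝔪 ≠ ⊥) : ∃ x' : 𝓞 K, TPos K x' ∧ x' - x ∈ 𝔪 := by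
  obtain ⟨k, hk, -⟩ := Pool.Agent.Y772.TW.exists_tpos x (absNorm_pos' h)
  refine ⟨_, hk, ?_⟩
  rw [add_sub_cancel_left]
  exact Ideal.mul_mem_left _ _ (Ideal.absNorm_mem _)

lemma exists_inv_tp {𝔮 : Ideal (𝓞 K)} (h𝔮 : 𝔮 ≠ ⊥) {x : 𝓞 K} (h : IsCoprime (Ideal.span {x}) 𝔮) :
    ∃ w : 𝓞 K, TPos K w ∧ w * x - 1 ∈ 𝔮 := by
  obtain ⟨v, hv⟩ := exists_inv h
  obtain ⟨w, hw, hwv⟩ := exists_tp v h𝔮
  refine ⟨w, hw, ?_⟩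
  have : w * x - 1 = (w - v) * x + (v * x - 1) := by ring
  rw [this]
  exact add_mem (Ideal.mul_mem_right _ _ hwv) hv

lemma sq_tp {x : 𝓞 K} (hx : x ≠ 0) : TPos K (x * x) := by
  intro σ
  have h1 : ((x * x : 𝓞 K) : K) = (x : K) * (x : K) := map_mul (algebraMap (𝓞 K) K) x x
  rw [h1, map_mul]
  have h2 : σ (x : K) ≠ 0 := by
    rw [Ne, map_eq_zero]
    exact fun h => hx (NumberField.RingOfIntegers.coe_eq_zero_iff.mp h)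
  exact mul_self_pos.mpr h2

/-- the same signs at the real places -/
def SameSign (x y : 𝓞 K) : Prop := ∀ σ : K →+* ℝ, 0 < σ (x : K) ↔ 0 < σ (y : K)

lemma SameSign.mul_tp {x y : 𝓞 K} (h : SameSign x y) (hx : x ≠ 0) (hy : y ≠ 0) :
    TPos K (x * y) := by
  intro σ
  have h1 : ((x * y : 𝓞 K) : K) = (x : K) * (y : K) := map_mul (algebraMap (𝓞 K) K) x y
  rw [h1, map_mul]
  have h2 : σ (x : K) ≠ 0 := by
    rw [Ne, map_eq_zero]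
    exact fun h => hx (NumberField.RingOfIntegers.coe_eq_zero_iff.mp h)
  have h3 : σ (y : K) ≠ 0 := by
    rw [Ne, map_eq_zero]
    exact fun h => hy (NumberField.RingOfIntegers.coe_eq_zero_iff.mp h)
  by_cases hp : 0 < σ (x : K)
  · exact mul_pos hp ((h σ).mp hp)
  · have h4 : σ (x : K) < 0 := lt_of_le_of_ne (not_lt.mp hp) h2
    have h5 : ¬ 0 < σ (y : K) := fun h6 => hp ((h σ).mpr h6)
    have h6 : σ (y : K) < 0 := lt_of_le_of_ne (not_lt.mp h5) h3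
    exact mul_pos_of_neg_of_neg h4 h6

lemma SameSign.of_tp {x y : 𝓞 K} (hx : TPos K x) (hy : TPos K y) : SameSign x y :=
  fun σ => ⟨fun _ => hy σ, fun _ => hx σ⟩

lemma exists_mem_one_tp {𝔟 𝔮 : Ideal (𝓞 K)} (h : IsCoprime 𝔟 𝔮) (h𝔟 : 𝔟 ≠ ⊥) (h𝔮 : 𝔮 ≠ ⊥) :
    ∃ (x : 𝓞 K) (𝔠 : Ideal (𝓞 K)), x - 1 ∈ 𝔮 ∧ TPos K x ∧ Ideal.span {x} = 𝔟 * 𝔠 ∧
      IsCoprime 𝔠 𝔮 := by
  obtain ⟨x₀, hx₀, b, hb, hab⟩ := Ideal.isCoprime_iff_exists.mp h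
  obtain ⟨x, hx, hxx⟩ := exists_tp x₀ (mul_ne_zero h𝔟 h𝔮)
  have hx𝔟 : x ∈ 𝔟 := by
    have : x = (x - x₀) + x₀ := by ring
    rw [this]
    exact add_mem (Ideal.mul_le_left hxx) hx₀
  have h1 : x - 1 ∈ 𝔮 := by
    have : x - 1 = (x - x₀) - b := by rw [← hab]; ring
    rw [this]
    exact sub_mem (Ideal.mul_le_right hxx) hb
  obtain ⟨𝔠, h𝔠⟩ := Ideal.dvd_iff_le.mpr ((Ideal.span_singleton_le_iff_mem 𝔟).mpr hx𝔟)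
  refine ⟨x, 𝔠, h1, hx, h𝔠, ?_⟩
  have h2 := cop_one h1
  rw [h𝔠] at h2
  exact (IsCoprime.mul_left_iff.mp h2).2

/-- **moving lemma** -/
lemma exists_moving_tp {𝔠 𝔣 𝔮 : Ideal (𝓞 K)} (h : 𝔮 ≤ 𝔣) (h𝔮 : 𝔮 ≠ ⊥) (h𝔠 : 𝔠 ≠ ⊥)
    (hc : IsCoprime 𝔠 𝔣) : ∃ (y : 𝓞 K) (𝔟 : Ideal (𝓞 K)), y - 1 ∈ 𝔣 ∧ TPos K y ∧
      Ideal.span {y} = 𝔠 * 𝔟 ∧ IsCoprime 𝔟 𝔮 := by
  obtain ⟨y₀, 𝔟₀, h1, h2, h3⟩ := exists_moving h h𝔮 h𝔠 hc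
  obtain ⟨y, hy, hyy⟩ := exists_tp y₀ (mul_ne_zero h𝔠 h𝔮)
  have hy0𝔠 : y₀ ∈ 𝔠 := by
    have : Ideal.span {y₀} ≤ 𝔠 := by rw [h2]; exact Ideal.mul_le_left
    exact this (Ideal.mem_span_singleton_self _)
  have hy𝔠 : y ∈ 𝔠 := by
    have : y = (y - y₀) + y₀ := by ring
    rw [this]
    exact add_mem (Ideal.mul_le_left hyy) hy0𝔠
  obtain ⟨𝔟, h𝔟⟩ := Ideal.dvd_iff_le.mpr ((Ideal.span_singleton_le_iff_mem 𝔠).mpr hy𝔠)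
  refine ⟨y, 𝔟, ?_, hy, h𝔟, ?_⟩
  · have : y - 1 = (y - y₀) + (y₀ - 1) := by ring
    rw [this]
    exact add_mem (h (Ideal.mul_le_right hyy)) h1
  · rw [Ideal.isCoprime_iff_sup_eq, ← Ideal.one_eq_top]
    apply mul_left_cancel₀ h𝔠
    rw [mul_one, Ideal.mul_sup, ← h𝔟]
    apply le_antisymm
    · exact sup_le ((Ideal.span_singleton_le_iff_mem 𝔠).mpr hy𝔠) Ideal.mul_le_left
    · have h4 : 𝔠 = Ideal.span {y₀} ⊔ 𝔠 * 𝔮 := by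
        rw [h2, ← Ideal.mul_sup, Ideal.isCoprime_iff_sup_eq.mp h3, ← Ideal.one_eq_top, mul_one]
      conv_lhs => rw [h4]
      refine sup_le ?_ le_sup_right
      rw [Ideal.span_singleton_le_iff_mem]
      have : y₀ = y - (y - y₀) := by ring
      rw [this]
      exact sub_mem (Ideal.mem_sup_left (Ideal.mem_span_singleton_self _)) (Ideal.mem_sup_right hyy)

/-- a character depends only on the residue class and the signs -/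
lemma prim_congr {𝔣 : Ideal (𝓞 K)} {ψ : Ideal (𝓞 K) →*₀ ℂ} (h : IsPrimChar K 𝔣 ψ) (ht : 𝔣 ≠ ⊤)
    {x y : 𝓞 K} (hxy : x - y ∈ 𝔣) (hy : IsCoprime (Ideal.span {y}) 𝔣) (hs : SameSign x y) :
    ψ (Ideal.span {x}) = ψ (Ideal.span {y}) := by
  have hx := cop_congr hxy hy
  have hx0 := ne_zero_of_cop ht hx
  have hy0 := ne_zero_of_cop ht hy
  obtain ⟨w, hwp, hw⟩ := exists_inv_tp h.ne_bot (cop_mul hx hx)
  -- `w x` is an inverse of `x` with the signs of `x`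
  have h1' : (w * x) * x - 1 ∈ 𝔣 := by rw [mul_assoc]; exact hw
  have h2' : (w * x) * y - 1 ∈ 𝔣 := by
    have : (w * x) * y - 1 = ((w * x) * x - 1) - (w * x) * (x - y) := by ring
    rw [this]; exact sub_mem h1' (Ideal.mul_mem_left _ _ hxy)
  have p1 : TPos K ((w * x) * x) := by rw [mul_assoc]; exact tpos_mul hwp (sq_tp hx0)
  have p2 : TPos K ((w * x) * y) := by rw [mul_assoc]; exact tpos_mul hwp (hs.mul_tp hx0 hy0)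
  have h1 := h.ray _ (ne_zero_of_cop ht (cop_one h1')) h1' p1
  have h2 := h.ray _ (ne_zero_of_cop ht (cop_one h2')) h2' p2
  rw [← Ideal.span_singleton_mul_span_singleton, map_mul] at h1 h2
  have h3 : ψ (Ideal.span {w * x}) ≠ 0 := by
    intro h4; rw [h4, zero_mul] at h1; exact zero_ne_one h1
  exact mul_left_cancel₀ h3 (h1.trans h2.symm)

lemma cond_le {𝔮 𝔣 𝔣' : Ideal (𝓞 K)} {ψ ψ' : Ideal (𝓞 K) →*₀ ℂ}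
    (hq : 𝔮 ≠ ⊥) (h : IsPrimChar K 𝔣 ψ) (h' : IsPrimChar K 𝔣' ψ') (hd : 𝔣 ∣ 𝔮) (hd' : 𝔣' ∣ 𝔮)
    (ht : 𝔣 ≠ ⊤) (ht' : 𝔣' ≠ ⊤) (he : ∀ 𝔞, IsCoprime 𝔞 𝔮 → ψ 𝔞 = ψ' 𝔞) : 𝔣' ≤ 𝔣 := by
  have hqf := Ideal.dvd_iff_le.mp hd
  have hqf' := Ideal.dvd_iff_le.mp hd'
  by_contra hcon
  have hne : 𝔣 ⊔ 𝔣' ≠ 𝔣 := fun h1 => hcon (h1 ▸ le_sup_right)
  obtain ⟨x, hx1, hxp, hx2, hx3⟩ := h.prim (𝔣 ⊔ 𝔣') (Ideal.dvd_iff_le.mpr le_sup_left) hne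
  obtain ⟨f, hf, f', hf', hff⟩ := Submodule.mem_sup.mp hx1
  apply hx3
  have hz : x - f = 1 + f' := by linear_combination -hff
  have hz1 : IsCoprime (Ideal.span {x - f}) 𝔣 := cop_congr (by
    have : x - f - x = -f := by ring
    rw [this]; exact neg_mem hf) hx2
  have hz2 : IsCoprime (Ideal.span {x - f}) 𝔣' := by
    rw [hz]; exact cop_one (by rw [add_sub_cancel_left]; exact hf')
  have hz3 : IsCoprime (Ideal.span {x - f}) (𝔣 ⊓ 𝔣') :=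
    cop_mono Ideal.mul_le_inf (IsCoprime.mul_right hz1 hz2)
  obtain ⟨z₀, hz4', hz5'⟩ := exists_cop_lift (le_inf hqf hqf') hq hz3
  obtain ⟨z', hzp, hzz⟩ := exists_tp z₀ hq
  have hz4 : IsCoprime (Ideal.span {z'}) 𝔮 := cop_congr hzz hz4'
  have hz5 : z' - (x - f) ∈ 𝔣 ⊓ 𝔣' := by
    have : z' - (x - f) = (z' - z₀) + (z₀ - (x - f)) := by ring
    rw [this]
    exact add_mem (le_inf hqf hqf' hzz) hz5'
  have hz6 : z' - x ∈ 𝔣 := by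
    have : z' - x = (z' - (x - f)) - f := by ring
    rw [this]; exact sub_mem (inf_le_left (b := 𝔣') hz5) hf
  have hz7 : z' - 1 ∈ 𝔣' := by
    have : z' - 1 = (z' - (x - f)) + f' := by rw [hz]; ring
    rw [this]; exact add_mem (inf_le_right (a := 𝔣) hz5) hf'
  rw [← prim_congr h ht hz6 hx2 (SameSign.of_tp hzp hxp), he _ hz4]
  exact h'.ray z' (ne_zero_of_cop ht' (cop_one hz7)) hz7 hzp

/-- **a primitive character is determined by its values on the ideals prime to a multiple of its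
conductor** -/
theorem prim_unique {𝔮 𝔣 𝔣' : Ideal (𝓞 K)} {ψ ψ' : Ideal (𝓞 K) →*₀ ℂ}
    (hq : 𝔮 ≠ ⊥) (h : IsPrimChar K 𝔣 ψ) (h' : IsPrimChar K 𝔣' ψ') (hd : 𝔣 ∣ 𝔮) (hd' : 𝔣' ∣ 𝔮)
    (ht : 𝔣 ≠ ⊤) (ht' : 𝔣' ≠ ⊤) (he : ∀ 𝔞, IsCoprime 𝔞 𝔮 → ψ 𝔞 = ψ' 𝔞) : 𝔣 = 𝔣' ∧ ψ = ψ' := by
  have h1 := cond_le hq h h' hd hd' ht ht' he
  have h2 := cond_le hq h' h hd' hd ht' ht (fun 𝔞 ha => (he 𝔞 ha).symm)
  obtain rfl : 𝔣 = 𝔣' := le_antisymm h2 h1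
  have hqf := Ideal.dvd_iff_le.mp hd
  refine ⟨rfl, ?_⟩
  ext 𝔞
  by_cases h0 : 𝔞 = ⊥
  · rw [h0, ← Ideal.zero_eq_bot, map_zero, map_zero]
  by_cases hc : IsCoprime 𝔞 𝔣
  · obtain ⟨x, 𝔠, hx1, hxp, hx2, hx3⟩ := exists_mem_one_tp hc h0 h.ne_bot
    have h𝔠 : 𝔠 ≠ ⊥ := by
      rintro rfl
      rw [Ideal.isCoprime_iff_sup_eq, bot_sup_eq] at hx3
      exact ht hx3
    obtain ⟨y, 𝔟, hy1, hyp, hy2, hy3⟩ := exists_moving_tp hqf hq h𝔠 hx3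
    have e1 : ∀ (φ : Ideal (𝓞 K) →*₀ ℂ), IsPrimChar K 𝔣 φ → φ 𝔞 = φ 𝔟 := by
      intro φ hφ
      have h3 := hφ.ray x (ne_zero_of_cop ht (cop_one hx1)) hx1 hxp
      have h4 := hφ.ray y (ne_zero_of_cop ht (cop_one hy1)) hy1 hyp
      rw [hx2, map_mul, mul_comm] at h3
      rw [hy2, map_mul] at h4
      have h5 : φ 𝔠 ≠ 0 := by
        intro h6; rw [h6, zero_mul] at h3; exact zero_ne_one h3
      exact mul_left_cancel₀ h5 (h3.trans h4.symm)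
    rw [e1 ψ h, e1 ψ' h', he 𝔟 hy3]
  · have h3 : ψ 𝔞 = 0 := by
      by_contra h4; exact hc ((h.supp 𝔞 h0).mp h4)
    have h5 : ψ' 𝔞 = 0 := by
      by_contra h4; exact hc ((h'.supp 𝔞 h0).mp h4)
    rw [h3, h5]

/-- totally positive integers congruent to one -/
def T1 {𝔮 : Ideal (𝓞 K)} (_h : 𝔮 ≠ ⊤) : Submonoid (𝓞 K) where
  carrier := {x | x - 1 ∈ 𝔮 ∧ TPos K x}
  mul_mem' {x y} hx hy := by
    refine ⟨?_, tpos_mul hx.2 hy.2⟩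
    have : x * y - 1 = (x - 1) * y + (y - 1) := by ring
    rw [this]
    exact add_mem (Ideal.mul_mem_right _ _ hx.1) hy.1
  one_mem' := by
    refine ⟨?_, tpos_one⟩
    rw [sub_self]; exact zero_mem _

lemma T1_one {𝔮 : Ideal (𝓞 K)} {h : 𝔮 ≠ ⊤} (x : T1 h) : (x : 𝓞 K) - 1 ∈ 𝔮 := x.2.1

lemma T1_tp {𝔮 : Ideal (𝓞 K)} {h : 𝔮 ≠ ⊤} (x : T1 h) : TPos K (x : 𝓞 K) := x.2.2

lemma T1_cop {𝔮 : Ideal (𝓞 K)} {h : 𝔮 ≠ ⊤} (x : T1 h) : IsCoprime (Ideal.span {(x : 𝓞 K)}) 𝔮 :=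
  cop_one x.2.1

/-- the principal ideals generated by totally positive integers congruent to one -/
def pi1 {𝔮 : Ideal (𝓞 K)} (h : 𝔮 ≠ ⊤) : T1 h →* Mq 𝔮 where
  toFun x := ⟨Ideal.span {(x : 𝓞 K)}, T1_cop x⟩
  map_one' := by
    apply Subtype.ext
    change Ideal.span {(1 : 𝓞 K)} = 1
    rw [Ideal.span_singleton_one, Ideal.one_eq_top]
  map_mul' x y := by
    apply Subtype.ext
    change Ideal.span {(x : 𝓞 K) * (y : 𝓞 K)} = _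
    rw [← Ideal.span_singleton_mul_span_singleton]
    rfl

lemma pi1_coe {𝔮 : Ideal (𝓞 K)} {h : 𝔮 ≠ ⊤} (x : T1 h) : ((pi1 h x : Mq 𝔮) : Ideal (𝓞 K)) =
    Ideal.span {(x : 𝓞 K)} := rfl

/-- the map `(𝔞, x) ↦ 𝔞 (x)` -/
noncomputable def pi2 {𝔮 𝔣 : Ideal (𝓞 K)} (h : 𝔮 ≤ 𝔣) (hf : 𝔣 ≠ ⊤) : (Mq 𝔮 × T1 hf) →* Mq 𝔣 :=
  (Submonoid.inclusion (show Mq 𝔮 ≤ Mq 𝔣 from fun _ h1 => cop_mono h h1)).coprod (pi1 hf)

lemma pi2_coe {𝔮 𝔣 : Ideal (𝓞 K)} (h : 𝔮 ≤ 𝔣) (hf : 𝔣 ≠ ⊤) (𝔞 : Mq 𝔮) (x : T1 hf) :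
    ((pi2 h hf (𝔞, x) : Mq 𝔣) : Ideal (𝓞 K)) = (𝔞 : Ideal (𝓞 K)) * Ideal.span {(x : 𝓞 K)} := by
  unfold pi2
  rw [MonoidHom.coprod_apply, Submonoid.coe_mul, pi1_coe, Submonoid.coe_inclusion]

lemma cop_ne_bot {𝔟 𝔮 : Ideal (𝓞 K)} (htop : 𝔮 ≠ ⊤) (h : IsCoprime 𝔟 𝔮) : 𝔟 ≠ ⊥ := by
  rintro rfl
  rw [Ideal.isCoprime_iff_sup_eq, bot_sup_eq] at h
  exact htop h

/-- the key step: two ideals prime to `𝔮` in the same ray class modulo `𝔣` -/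
lemma key_step {𝔮 𝔣 : Ideal (𝓞 K)} (hqf : 𝔮 ≤ 𝔣) (hbot : 𝔮 ≠ ⊥) (htop : 𝔮 ≠ ⊤) (hf : 𝔣 ≠ ⊤)
    {𝔞 𝔟 : Ideal (𝓞 K)}
    (h𝔞 : IsCoprime 𝔞 𝔮) (h𝔟 : IsCoprime 𝔟 𝔮) {x y : 𝓞 K} (hx : x - 1 ∈ 𝔣) (hy : y - 1 ∈ 𝔣)
    (hxp : TPos K x) (hyp : TPos K y) (hab : 𝔞 * Ideal.span {x} = 𝔟 * Ideal.span {y}) :
    ∃ x' y' : 𝓞 K, x' - 1 ∈ 𝔮 ∧ TPos K x' ∧ IsCoprime (Ideal.span {y'}) 𝔮 ∧ y' - 1 ∈ 𝔣 ∧
      TPos K y' ∧ 𝔞 * Ideal.span {x'} = 𝔟 * Ideal.span {y'} := by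
  obtain ⟨x', 𝔠, hx1, hxp', hx2, hx3⟩ := exists_mem_one_tp h𝔟 (cop_ne_bot htop h𝔟) hbot
  have h2 : 𝔞 * 𝔠 * Ideal.span {x} = Ideal.span {x' * y} := by
    rw [← Ideal.span_singleton_mul_span_singleton, hx2, mul_right_comm, hab]
    ring
  have h3 : x' * y ∈ Ideal.span {x} := by
    have h4 : Ideal.span {x' * y} ≤ Ideal.span {x} := by
      rw [← h2]; exact Ideal.mul_le_right
    exact h4 (Ideal.mem_span_singleton_self _)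
  obtain ⟨y', hy'⟩ := Ideal.mem_span_singleton'.mp h3
  have hx0 : x ≠ 0 := ne_zero_of_cop hf (cop_one hx)
  have h5 : 𝔞 * 𝔠 = Ideal.span {y'} := by
    apply mul_right_cancel₀ (b := Ideal.span {x})
    · rw [Ne, Ideal.zero_eq_bot, Ideal.span_singleton_eq_bot]; exact hx0
    · rw [h2, Ideal.span_singleton_mul_span_singleton, hy']
  refine ⟨x', y', hx1, hxp', ?_, ?_, ?_, ?_⟩
  · rw [← h5]; exact IsCoprime.mul_left h𝔞 hx3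
  · have e1 := (Ideal.Quotient.eq (I := 𝔣)).mpr hx
    have e2 := (Ideal.Quotient.eq (I := 𝔣)).mpr hy
    have e3 := (Ideal.Quotient.eq (I := 𝔣)).mpr (hqf hx1)
    rw [← Ideal.Quotient.eq]
    have e4 := congrArg (Ideal.Quotient.mk 𝔣) hy'
    rw [map_mul, map_mul, e1, e2, e3, map_one, mul_one, mul_one] at e4
    rw [e4, map_one]
  · apply tpos_of_mul hxp
    rw [mul_comm, hy']
    exact tpos_mul hxp' hyp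
  · rw [hx2, ← h5]; ring

theorem exists_ext {𝔮 𝔣 : Ideal (𝓞 K)} (hqf : 𝔮 ≤ 𝔣) (hbot : 𝔮 ≠ ⊥) (htop : 𝔮 ≠ ⊤) (hf : 𝔣 ≠ ⊤)
    (F : Mq 𝔮 →* ℂˣ) (hF : ∀ x : T1 htop, F (pi1 htop x) = 1)
    (h1 : ∀ (x : 𝓞 K) (hx : IsCoprime (Ideal.span {x}) 𝔮), x - 1 ∈ 𝔣 → TPos K x →
      F ⟨Ideal.span {x}, hx⟩ = 1) :
    ∃ F' : Mq 𝔣 →* ℂˣ, ∀ p : Mq 𝔮 × T1 hf, F' (pi2 hqf hf p) = F p.1 := by
  have := Mq_cancel hf
  refine ext_mon (pi2 hqf hf) (F.comp (MonoidHom.fst _ _)) ?_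
  rintro ⟨𝔞, x⟩ ⟨𝔟, y⟩ hab
  rw [MonoidHom.comp_apply, MonoidHom.comp_apply, MonoidHom.coe_fst]
  have hab' := congrArg Subtype.val hab
  rw [pi2_coe, pi2_coe] at hab'
  obtain ⟨x', y', hx1, hxp, hy1, hy2, hyp, hxy⟩ := key_step hqf hbot htop hf (Mq_cop 𝔞) (Mq_cop 𝔟)
    (T1_one x) (T1_one y) (T1_tp x) (T1_tp y) hab'
  have h6 := h1 y' hy1 hy2 hyp
  have h7 := hF ⟨x', hx1, hxp⟩
  have h8 : 𝔞 * pi1 htop ⟨x', hx1, hxp⟩ = 𝔟 * ⟨Ideal.span {y'}, hy1⟩ := by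
    apply Subtype.ext
    rw [Submonoid.coe_mul, Submonoid.coe_mul, pi1_coe]
    exact hxy
  have h9 := congrArg F h8
  rwa [map_mul, map_mul, h6, h7, mul_one, mul_one] at h9

/-- **every character of the narrow ray class group modulo `𝔮` which is non-trivial on the ideals
with a totally positive generator is induced by a primitive character of conductor `≠ 1`** -/
theorem exists_prim {𝔮 : Ideal (𝓞 K)} (hbot : 𝔮 ≠ ⊥) (htop : 𝔮 ≠ ⊤) (F : Mq 𝔮 →* ℂˣ)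
    (hF : ∀ x : T1 htop, F (pi1 htop x) = 1) :
    (∀ (x : 𝓞 K) (hx : IsCoprime (Ideal.span {x}) 𝔮), TPos K x → F ⟨Ideal.span {x}, hx⟩ = 1) ∨
    ∃ (𝔣 : Ideal (𝓞 K)) (ψ : Ideal (𝓞 K) →*₀ ℂ), 𝔣 ∣ 𝔮 ∧ 𝔣 ≠ ⊤ ∧
      IsPrimChar K 𝔣 ψ ∧ ∀ x : Mq 𝔮, ψ (x : Ideal (𝓞 K)) = ((F x : ℂˣ) : ℂ) := by
  obtain ⟨P, hP⟩ : ∃ P : Set (Ideal (𝓞 K)), ∀ 𝔣, 𝔣 ∈ P ↔ (𝔣 ∣ 𝔮 ∧ ∀ (x : 𝓞 K)
    (hx : IsCoprime (Ideal.span {x}) 𝔮), x - 1 ∈ 𝔣 → TPos K x → F ⟨Ideal.span {x}, hx⟩ = 1) :=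
    ⟨{𝔣 | _}, fun 𝔣 => Iff.rfl⟩
  have hne : P.Nonempty := ⟨𝔮, (hP 𝔮).mpr ⟨dvd_refl _, fun x hx h1 h2 => hF ⟨x, h1, h2⟩⟩⟩
  obtain ⟨𝔣, h𝔣, hmin⟩ := (measure (fun 𝔣 : Ideal (𝓞 K) => Ideal.absNorm 𝔣)).wf.has_min P hne
  obtain ⟨hd, h1⟩ := (hP 𝔣).mp h𝔣
  by_cases hf : 𝔣 = ⊤
  · left
    intro x hx
    exact h1 x hx (by rw [hf]; exact Submodule.mem_top)
  right
  have hqf := Ideal.dvd_iff_le.mp hd
  have hfb : 𝔣 ≠ ⊥ := by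
    rintro rfl
    exact hbot (le_bot_iff.mp hqf)
  obtain ⟨F', hF'⟩ := exists_ext hqf hbot htop hf F hF h1
  have hres : ∀ x : Mq 𝔮, ∀ h : IsCoprime (x : Ideal (𝓞 K)) 𝔣, F' ⟨(x : Ideal (𝓞 K)), h⟩ = F x := by
    intro x h
    rw [← hF' (x, 1)]
    congr 1
    apply Subtype.ext
    rw [pi2_coe, Submonoid.coe_one, Ideal.span_singleton_one, ← Ideal.one_eq_top, mul_one]
  refine ⟨𝔣, ofM' hf F', hd, hf, ⟨hfb, fun 𝔞 _ => ofM'_supp hf F' 𝔞, ?_, ?_⟩, ?_⟩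
  · intro x hx0 hx1 hxp
    rw [ofM'_pos hf F' (cop_one hx1)]
    have h2 := hF' (1, ⟨x, hx1, hxp⟩)
    have h3 : pi2 hqf hf (1, ⟨x, hx1, hxp⟩) = ⟨Ideal.span {x}, cop_one hx1⟩ := by
      apply Subtype.ext
      rw [pi2_coe, Submonoid.coe_one, one_mul]
    rw [h3, map_one] at h2
    rw [h2, Units.val_one]
  · intro 𝔤 hg hgne
    have hnP : ¬ 𝔤 ∈ P := fun hP' => hmin 𝔤 hP' (absNorm_lt hfb hg hgne)
    rw [hP, not_and] at hnP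
    have h2 := hnP (hg.trans hd)
    push Not at h2
    obtain ⟨x, hx, hx1, hxp, hx2⟩ := h2
    have hxf := cop_mono hqf hx
    refine ⟨x, hx1, hxp, hxf, ?_⟩
    rw [ofM'_pos hf F' hxf, hres ⟨Ideal.span {x}, hx⟩ hxf]
    intro h3
    exact hx2 (Units.ext h3)
  · intro x
    have hxf := cop_mono hqf (Mq_cop x)
    rw [ofM'_pos hf F' hxf, hres x hxf]

end

end Pool.Agent.N784.AD
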