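import Pool.Agent.N784.AD.Mod2

/-! # The characters are not invariant under the automorphisms (helper784) -/

set_option autoImplicit false
set_option linter.unusedSectionVars false
set_option linter.unusedVariables false

open NumberField

namespace Pool.Agent.N784.AD

open Pool.Agent.Y773.IQ (Fam cd cd_spec absNorm_pos' cop_of_norm)

section

variable (K : Type) [Field K] [NumberField K]

instance finite_aut : Finite (K ≃+* K) := by
  have h : Function.Injective (fun σ : K ≃+* K => (σ : K →+* K).toRatAlgHom) := by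
    intro σ τ h
    ext x
    have := congrArg (fun f : K →ₐ[ℚ] K => f x) h
    exact this
  exact Finite.of_injective _ h

variable {K}

lemma exists_moved {σ : K ≃+* K} (h : σ ≠ RingEquiv.refl K) :
    ∃ x : 𝓞 K, RingOfIntegers.mapRingEquiv σ x ≠ x := by
  by_contra hcon
  push Not at hcon
  apply h
  ext x
  obtain ⟨a, b, hb, rfl⟩ := IsFractionRing.div_surjective (A := 𝓞 K) x
  have ha := congrArg (fun z : 𝓞 K => (z : K)) (hcon a)
  have hb' := congrArg (fun z : 𝓞 K => (z : K)) (hcon b)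
  rw [RingEquiv.refl_apply, map_div₀]
  change σ (a : K) = (a : K) at ha
  change σ (b : K) = (b : K) at hb'
  change σ (a : K) / σ (b : K) = _
  rw [ha, hb']

/-- the image of an ideal -/
noncomputable def mv (σ : K ≃+* K) (𝔞 : Ideal (𝓞 K)) : Ideal (𝓞 K) :=
  𝔞.map (RingOfIntegers.mapRingEquiv σ : 𝓞 K →+* 𝓞 K)

lemma mv_norm (σ : K ≃+* K) (𝔞 : Ideal (𝓞 K)) : Ideal.absNorm (mv σ 𝔞) = Ideal.absNorm 𝔞 := by
  unfold mv
  have h1 := Ideal.quotientEquiv 𝔞 (𝔞.map (RingOfIntegers.mapRingEquiv σ : 𝓞 K →+* 𝓞 K))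
    (RingOfIntegers.mapRingEquiv σ) rfl
  rw [Ideal.absNorm_apply, Ideal.absNorm_apply, Submodule.cardQuot_apply, Submodule.cardQuot_apply]
  exact (Nat.card_congr h1.toEquiv).symm

lemma mem_mv {σ : K ≃+* K} {𝔞 : Ideal (𝓞 K)} {x : 𝓞 K} (h : x ∈ 𝔞) :
    RingOfIntegers.mapRingEquiv σ x ∈ mv σ 𝔞 := Ideal.mem_map_of_mem _ h

/-- an integer congruent to a given element modulo a prime of degree one -/
lemma exists_int {𝔭 : Ideal (𝓞 K)} {p : ℕ} (hp : p.Prime) (h : Ideal.absNorm 𝔭 = p) (x : 𝓞 K) :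
    ∃ n : ℕ, x - n ∈ 𝔭 := by
  have hc : Nat.card (𝓞 K ⧸ 𝔭) = p := by
    rw [← h, Ideal.absNorm_apply, Submodule.cardQuot_apply]
  have : Fact p.Prime := ⟨hp⟩
  have hfin : Finite (𝓞 K ⧸ 𝔭) := Nat.finite_of_card_ne_zero (by rw [hc]; exact hp.ne_zero)
  have hnt : Nontrivial (𝓞 K ⧸ 𝔭) := by
    rw [← Finite.one_lt_card_iff_nontrivial, hc]
    exact hp.one_lt
  -- the characteristic is `p`
  have hchar : ((p : ℕ) : 𝓞 K ⧸ 𝔭) = 0 := by
    have := Fintype.ofFinite (𝓞 K ⧸ 𝔭)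
    rw [← hc, Nat.card_eq_fintype_card]
    exact Nat.cast_card_eq_zero _
  have : CharP (𝓞 K ⧸ 𝔭) p := by
    obtain ⟨q, hq⟩ := CharP.exists (𝓞 K ⧸ 𝔭)
    have hd : q ∣ p := (CharP.cast_eq_zero_iff (𝓞 K ⧸ 𝔭) q p).mp hchar
    rcases (Nat.dvd_prime hp).mp hd with h1 | h1
    · subst h1
      have h2 : ((1 : ℕ) : 𝓞 K ⧸ 𝔭) = 0 := CharP.cast_eq_zero _ 1
      rw [Nat.cast_one] at h2
      exact absurd h2 one_ne_zero
    · rw [h1] at hq
      exact hq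
  have hinj : Function.Injective (ZMod.castHom (dvd_refl p) (𝓞 K ⧸ 𝔭)) :=
    ZMod.castHom_injective _
  have hsurj : Function.Surjective (ZMod.castHom (dvd_refl p) (𝓞 K ⧸ 𝔭)) := by
    have h1 : Nat.card (ZMod p) = Nat.card (𝓞 K ⧸ 𝔭) := by rw [Nat.card_zmod, hc]
    exact ((Nat.bijective_iff_injective_and_card _).mpr ⟨hinj, h1⟩).2
  obtain ⟨z, hz⟩ := hsurj (Ideal.Quotient.mk 𝔭 x)
  refine ⟨z.val, ?_⟩
  rw [← Ideal.Quotient.eq, ← hz]
  rw [map_natCast]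
  conv_lhs => rw [← ZMod.natCast_zmod_val z]
  rw [map_natCast]

variable (K)

theorem reg : ∃ B : ℝ, ∀ 𝔮 : Ideal (𝓞 K), Split 𝔮 B → ∀ ψ ∈ Fam 𝔮, ∀ σ : K ≃+* K,
    σ ≠ RingEquiv.refl K → ∃ 𝔞 : Ideal (𝓞 K), ψ (mv σ 𝔞) ≠ ψ 𝔞 := by
  classical
  have hx : ∀ σ : K ≃+* K, ∃ x : 𝓞 K, σ ≠ RingEquiv.refl K → RingOfIntegers.mapRingEquiv σ x ≠ x := by
    intro σ
    by_cases h : σ = RingEquiv.refl K
    · exact ⟨0, fun h' => absurd h h'⟩
    · obtain ⟨x, hx⟩ := exists_moved h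
      exact ⟨x, fun _ => hx⟩
  choose x hx using hx
  have := Fintype.ofFinite (K ≃+* K)
  refine ⟨∑ σ : K ≃+* K, (Ideal.absNorm (Ideal.span {RingOfIntegers.mapRingEquiv σ (x σ) - x σ}) : ℝ),
    ?_⟩
  intro 𝔮 hs ψ hψ σ hσ
  by_contra hcon
  push Not at hcon
  obtain ⟨𝔣, h1, h2, h3⟩ := hψ
  obtain ⟨𝔭, hmax, hle⟩ := Ideal.exists_le_maximal 𝔣 h2
  have h𝔭0 : 𝔭 ≠ ⊥ := by
    rintro rfl
    exact h3.ne_bot (le_bot_iff.mp hle)
  have h𝔭 : Prime 𝔭 := (Ideal.prime_iff_isPrime h𝔭0).mpr hmax.isPrime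
  have hd : 𝔭 ∣ 𝔣 := Ideal.dvd_iff_le.mpr hle
  obtain ⟨hp, hB⟩ := hs.prime 𝔭 h𝔭 (hd.trans h1)
  have hψ0 : ψ 𝔭 = 0 := by
    by_contra h
    have h4 := (h3.supp 𝔭 h𝔭0).mp h
    exact h𝔭.not_unit (h4.isUnit_of_dvd' dvd_rfl hd)
  have hm0 : mv σ 𝔭 ≠ ⊥ := by
    intro h
    have h4 := mv_norm σ 𝔭
    rw [h, Ideal.absNorm_bot] at h4
    exact hp.ne_zero h4.symm
  have hmp : Prime (mv σ 𝔭) := by
    rw [Ideal.prime_iff_isPrime hm0]
    refine Ideal.isPrime_of_irreducible_absNorm ?_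
    rw [mv_norm]
    exact hp.prime.irreducible
  have h5 : ¬ IsCoprime (mv σ 𝔭) 𝔣 := by
    intro h
    apply (h3.supp _ hm0).mpr h
    rw [hcon, hψ0]
  have h6 : mv σ 𝔭 ∣ 𝔣 := by
    by_contra h
    apply h5
    rw [Ideal.isCoprime_iff_sup_eq]
    have hmm : (mv σ 𝔭).IsMaximal := by
      have := (Ideal.prime_iff_isPrime hm0).mp hmp
      exact this.isMaximal hm0
    by_contra h'
    rcases hmm.eq_of_le h' le_sup_left with h''
    apply h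
    rw [Ideal.dvd_iff_le]
    rw [h'']
    exact le_sup_right
  have h7 : mv σ 𝔭 = 𝔭 := hs.inj _ _ hmp h𝔭 (h6.trans h1) (hd.trans h1) (mv_norm σ 𝔭)
  -- the element
  obtain ⟨n, hn⟩ := exists_int hp rfl (x σ)
  have h8 := mem_mv (σ := σ) hn
  rw [h7, map_sub, map_natCast] at h8
  have h9 : RingOfIntegers.mapRingEquiv σ (x σ) - x σ ∈ 𝔭 := by
    have := 𝔭.sub_mem h8 hn
    rwa [sub_sub_sub_cancel_right] at this
  have h10 : RingOfIntegers.mapRingEquiv σ (x σ) - x σ ≠ 0 := sub_ne_zero.mpr (hx σ hσ)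
  have h11 : Ideal.span {RingOfIntegers.mapRingEquiv σ (x σ) - x σ} ≠ ⊥ := by
    rwa [Ne, Ideal.span_singleton_eq_bot]
  have h12 : Ideal.absNorm 𝔭 ≤ Ideal.absNorm (Ideal.span {RingOfIntegers.mapRingEquiv σ (x σ) - x σ}) := by
    refine Nat.le_of_dvd (absNorm_pos' h11) (Ideal.absNorm_dvd_absNorm_of_le ?_)
    rw [Ideal.span_singleton_le_iff_mem]
    exact h9
  have h13 : (Ideal.absNorm (Ideal.span {RingOfIntegers.mapRingEquiv σ (x σ) - x σ}) : ℝ) ≤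
      ∑ σ : K ≃+* K, (Ideal.absNorm (Ideal.span {RingOfIntegers.mapRingEquiv σ (x σ) - x σ}) : ℝ) :=
    Finset.single_le_sum (f := fun σ : K ≃+* K =>
      (Ideal.absNorm (Ideal.span {RingOfIntegers.mapRingEquiv σ (x σ) - x σ}) : ℝ))
      (fun _ _ => Nat.cast_nonneg _) (Finset.mem_univ σ)
  have h14 : (Ideal.absNorm 𝔭 : ℝ) ≤
      (Ideal.absNorm (Ideal.span {RingOfIntegers.mapRingEquiv σ (x σ) - x σ}) : ℝ) := by
    exact_mod_cast h12
  linarith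

end

end Pool.Agent.N784.AD
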