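import Pool.Agent.N784.AD.Par

/-! # The zeros (helper784) -/

set_option autoImplicit false
set_option linter.unusedSectionVars false
set_option linter.unusedVariables false

open NumberField Filter Topology MeasureTheory

namespace Pool.Agent.N784.AD

open Pool.Agent.Y773 (LI cc)
open Pool.Agent.Y767 (Cls cK)
open Pool.Agent.Y773.IQ (Fam cd cd_spec LL LL_eq absNorm_pos')
open Pool.Agent.N786 (kc)
open H370 (zset NN Ns Nd)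
open H385 (Rw)
open Pool.Agent.W354 (LogC)
open Y767.WH (GoodH)
open ArithmeticFunction (vonMangoldt)

lemma par_const (γ h ε : ℝ) (h0 : 0 < γ) (hπ : γ < Real.pi) (hh : 0 < h) (hε : 0 < ε) :
    0 ≤ Rw γ 0 ∧ 0 ≤ (∫ α in (0 : ℝ)..1, α * Rw γ α) ∧
    ∃ D r : ℝ, 1 < D ∧ 0 < r ∧ r < 1 ∧ ∀ d : ℝ, 1 ≤ d →
      d * Rw γ 0 / (h * d * r) + 2 * (h * d * r) * (∫ α in (0 : ℝ)..1, α * Rw γ α) * D / d +
        ε / 4 ≤ kc γ h + ε := by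
  unfold kc
  obtain ⟨R, hR⟩ : ∃ R : ℝ, R = Rw γ 0 := ⟨_, rfl⟩
  obtain ⟨I1, hI1⟩ : ∃ I1 : ℝ, I1 = ∫ α in (0 : ℝ)..1, α * Rw γ α := ⟨_, rfl⟩
  have hR0 : 0 ≤ R := by rw [hR]; exact H385.Rw_nonneg γ h0 hπ 0
  have hI0 : 0 ≤ I1 := by
    rw [hI1]
    exact intervalIntegral.integral_nonneg zero_le_one
      (fun α hα => mul_nonneg hα.1 (H385.Rw_nonneg γ h0 hπ α))
  rw [← hR, ← hI1]
  refine ⟨hR0, hI0, ?_⟩
  obtain ⟨D, hD⟩ : ∃ D : ℝ, D = 1 + ε / (4 * (2 * h * I1 + 1)) := ⟨_, rfl⟩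
  have hD1 : 1 < D := by
    rw [hD]
    have : 0 < ε / (4 * (2 * h * I1 + 1)) := by positivity
    linarith
  have hDI : 2 * h * I1 * D ≤ 2 * h * I1 + ε / 4 := by
    have e1 : 2 * h * I1 * D = 2 * h * I1 + ε * (2 * h * I1 / (2 * h * I1 + 1)) / 4 := by
      rw [hD]; field_simp
    rw [e1]
    have e2 : 2 * h * I1 / (2 * h * I1 + 1) ≤ 1 := by
      rw [div_le_one (by positivity)]; linarith
    have e3 : ε * (2 * h * I1 / (2 * h * I1 + 1)) ≤ ε * 1 := mul_le_mul_of_nonneg_left e2 hε.le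
    linarith
  obtain ⟨R', hR'⟩ : ∃ R' : ℝ, R' = R / h := ⟨_, rfl⟩
  have hR'0 : 0 ≤ R' := by rw [hR']; positivity
  obtain ⟨r, hr⟩ : ∃ r : ℝ, r = (R' + 1) / (R' + 1 + ε / 4) := ⟨_, rfl⟩
  have hr0 : 0 < r := by rw [hr]; positivity
  have hr1 : r < 1 := by
    rw [hr, div_lt_one (by positivity)]; linarith
  refine ⟨D, r, hD1, hr0, hr1, fun d hd => ?_⟩
  have hd0 : 0 < d := by linarith
  have e1 : d * R / (h * d * r) ≤ R' + ε / 4 := by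
    have : d * R / (h * d * r) = R' + ε / 4 * (R' / (R' + 1)) := by
      have h1 : d * R / (h * d * r) = R' / r := by
        rw [hR']; field_simp
      rw [h1, hr]; field_simp
    rw [this]
    have e2 : R' / (R' + 1) ≤ 1 := by rw [div_le_one (by positivity)]; linarith
    have e3 : ε / 4 * (R' / (R' + 1)) ≤ ε / 4 * 1 := mul_le_mul_of_nonneg_left e2 (by positivity)
    linarith
  have e2 : 2 * (h * d * r) * I1 * D / d ≤ 2 * h * I1 * D := by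
    rw [div_le_iff₀ hd0]
    have h1 : 0 ≤ 2 * h * I1 * D * d := by positivity
    have h2 : 2 * (h * d * r) * I1 * D = (2 * h * I1 * D * d) * r := by ring
    rw [h2]
    calc (2 * h * I1 * D * d) * r ≤ (2 * h * I1 * D * d) * 1 := mul_le_mul_of_nonneg_left hr1.le h1
      _ = _ := mul_one _
  have e3 : R' = 1 / h * R := by rw [hR']; ring
  linarith

section

variable {K : Type} [Field K] [NumberField K]

lemma cd_norm_le {𝔮 : Ideal (𝓞 K)} (hbot : 𝔮 ≠ ⊥) {ψ : Ideal (𝓞 K) →*₀ ℂ} (h : ψ ∈ Fam 𝔮) :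
    (1 : ℝ) ≤ (Ideal.absNorm (cd 𝔮 ψ) : ℝ) ∧
      (Ideal.absNorm (cd 𝔮 ψ) : ℝ) ≤ (Ideal.absNorm 𝔮 : ℝ) := by
  obtain ⟨h1, h3, h4⟩ := cd_spec h
  refine ⟨one_le_norm K h4.ne_bot, ?_⟩
  have h6 : Ideal.absNorm (cd 𝔮 ψ) ≤ Ideal.absNorm 𝔮 :=
    Nat.le_of_dvd (absNorm_pos' hbot)
      (Ideal.absNorm_dvd_absNorm_of_le (Ideal.dvd_iff_le.mp h1))
  exact_mod_cast h6

lemma avg_cond {𝔮 : Ideal (𝓞 K)} (hbot : 𝔮 ≠ ⊥) (S Sf : Finset (Ideal (𝓞 K) →*₀ ℂ))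
    (hSf : ∀ ψ, ψ ∈ Sf ↔ ψ ∈ Fam 𝔮) (hS : ∀ ψ ∈ S, ψ ∈ Fam 𝔮)
    (hcard : (Sf.card : ℝ) ≤ 2 * S.card) {δ2 d T L : ℝ} (hδ2 : 0 ≤ δ2)
    (hc : ∑ ψ ∈ Sf, (Real.log (Ideal.absNorm 𝔮) - Real.log (Ideal.absNorm (cd 𝔮 ψ))) ≤
      δ2 * Real.log (Ideal.absNorm 𝔮) * Sf.card) (hd : 1 ≤ d) (hT : 0 < T)
    (hlT : 0 ≤ Real.log T)
    (hL : L = Real.log (Ideal.absNorm 𝔮) / d + Real.log T) :
    (1 - 2 * δ2) * L * S.card ≤
      ∑ ψ ∈ S, Real.log ((Ideal.absNorm (cd 𝔮 ψ) : ℝ) ^ (1 / d) * T) := by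
  obtain ⟨Λ, hΛd⟩ : ∃ Λ : ℝ, Λ = Real.log (Ideal.absNorm 𝔮) := ⟨_, rfl⟩
  rw [← hΛd] at hc hL
  have hΛ0 : 0 ≤ Λ := by rw [hΛd]; exact Real.log_natCast_nonneg _
  have hd0 : 0 < d := by linarith
  have e1 : ∀ ψ ∈ S, Real.log ((Ideal.absNorm (cd 𝔮 ψ) : ℝ) ^ (1 / d) * T) =
      L - 1 / d * (Λ - Real.log (Ideal.absNorm (cd 𝔮 ψ))) := by
    intro ψ hψ
    obtain ⟨h1, h2⟩ := cd_norm_le hbot (hS ψ hψ)
    have h3 : (0 : ℝ) < (Ideal.absNorm (cd 𝔮 ψ) : ℝ) := by linarith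
    rw [Real.log_mul (Real.rpow_pos_of_pos h3 _).ne' hT.ne', Real.log_rpow h3, hL]
    ring
  rw [Finset.sum_congr rfl e1, Finset.sum_sub_distrib, Finset.sum_const, nsmul_eq_mul,
    ← Finset.mul_sum]
  have e2 : ∑ ψ ∈ S, (Λ - Real.log (Ideal.absNorm (cd 𝔮 ψ))) ≤
      ∑ ψ ∈ Sf, (Λ - Real.log (Ideal.absNorm (cd 𝔮 ψ))) := by
    refine Finset.sum_le_sum_of_subset_of_nonneg (fun ψ hψ => (hSf ψ).mpr (hS ψ hψ)) ?_
    intro ψ hψ _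
    obtain ⟨h1, h2⟩ := cd_norm_le hbot ((hSf ψ).mp hψ)
    have := Real.log_le_log (by linarith) h2
    rw [← hΛd] at this
    linarith
  have e3 : δ2 * Λ * Sf.card ≤ δ2 * Λ * (2 * S.card) :=
    mul_le_mul_of_nonneg_left hcard (by positivity)
  have e4 : 1 / d * ∑ ψ ∈ S, (Λ - Real.log (Ideal.absNorm (cd 𝔮 ψ))) ≤
      1 / d * (δ2 * Λ * (2 * S.card)) :=
    mul_le_mul_of_nonneg_left ((e2.trans hc).trans e3) (by positivity)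
  have e5 : 1 / d * (δ2 * Λ * (2 * S.card)) = (2 * δ2 * S.card) * (Λ / d) := by ring
  have e6 : (2 * δ2 * S.card) * (Λ / d) ≤ (2 * δ2 * S.card) * L := by
    refine mul_le_mul_of_nonneg_left ?_ (by positivity)
    linarith
  nlinarith

/-- the properties of the L-functions -/
lemma goodLL {A : ℝ} (hgood : ∀ (𝔣 : Ideal (𝓞 K)) (ψ : Ideal (𝓞 K) →*₀ ℂ), 𝔣 ≠ ⊤ →
    Pool.Agent.Y773.G.IsPrimChar K 𝔣 ψ → ∃ F : ℂ → ℂ, Differentiable ℂ F ∧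
      (∀ s : ℂ, 1 < s.re → F s = LI ψ s) ∧
    W388.LV.GoodG (Module.finrank ℚ K) A ((Ideal.absNorm 𝔣 : ℝ) ^ (1 / (Module.finrank ℚ K : ℝ)))
      F (fun m => cc ψ m * (ArithmeticFunction.vonMangoldt m : ℂ)))
    {𝔮 : Ideal (𝓞 K)} (hbot : 𝔮 ≠ ⊥) {ψ : Ideal (𝓞 K) →*₀ ℂ} (h : ψ ∈ Fam 𝔮) :
    LogC (fun t => Real.log ((Ideal.absNorm (cd 𝔮 ψ) : ℝ) ^ (1 / (Module.finrank ℚ K : ℝ)) * t)) ∧
    GoodH (Module.finrank ℚ K) A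
      (fun t => Real.log ((Ideal.absNorm (cd 𝔮 ψ) : ℝ) ^ (1 / (Module.finrank ℚ K : ℝ)) * t))
      (LL K ψ) (fun m => cc ψ m * (ArithmeticFunction.vonMangoldt m : ℂ)) := by
  obtain ⟨h1, h3, h4⟩ := cd_spec h
  obtain ⟨F, hF, hFL, hG⟩ := hgood _ ψ h3 h4
  have hQ : (1 : ℝ) ≤ (Ideal.absNorm (cd 𝔮 ψ) : ℝ) ^ (1 / (Module.finrank ℚ K : ℝ)) :=
    Real.one_le_rpow (cd_norm_le hbot h).1 (by positivity)
  refine ⟨logC_of hQ, ?_⟩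
  rw [LL_eq K hF hFL]
  exact goodH_of hQ hG

lemma lc_bounds {𝔮 : Ideal (𝓞 K)} (hbot : 𝔮 ≠ ⊥) {ψ : Ideal (𝓞 K) →*₀ ℂ} (h : ψ ∈ Fam 𝔮)
    {d T L : ℝ} (hd : 1 ≤ d) (hT : 1 ≤ T)
    (hL : L = Real.log (Ideal.absNorm 𝔮) / d + Real.log T) :
    0 ≤ Real.log ((Ideal.absNorm (cd 𝔮 ψ) : ℝ) ^ (1 / d) * T) ∧
      Real.log ((Ideal.absNorm (cd 𝔮 ψ) : ℝ) ^ (1 / d) * T) ≤ L := by
  obtain ⟨h1, h2⟩ := cd_norm_le hbot h
  have h3 : (0 : ℝ) < (Ideal.absNorm (cd 𝔮 ψ) : ℝ) := by linarith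
  have hT0 : 0 < T := by linarith
  have hd0 : 0 < d := by linarith
  rw [Real.log_mul (Real.rpow_pos_of_pos h3 _).ne' hT0.ne', Real.log_rpow h3, hL]
  have h4 := Real.log_nonneg h1
  have h5 := Real.log_nonneg hT
  have h6 := Real.log_le_log h3 h2
  constructor
  · positivity
  · have : 1 / d * Real.log (Ideal.absNorm (cd 𝔮 ψ)) ≤ 1 / d * Real.log (Ideal.absNorm 𝔮) :=
      mul_le_mul_of_nonneg_left h6 (by positivity)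
    have e : Real.log (Ideal.absNorm 𝔮) / d = 1 / d * Real.log (Ideal.absNorm 𝔮) := by ring
    rw [e]
    linarith

end

end Pool.Agent.N784.AD
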